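import Pool.Agent.H43.Stab.Loc

set_option autoImplicit false
set_option linter.unusedSectionVars false

/-! Consequences for closed pieces: length, absence, counting. -/

namespace Pool.Agent.H43.Stab

open Finset

theorem rm_abs {N : ℕ} {A φ H : ℝ} {g : ℤ → ℝ}
    (hH : ∀ (i : ℤ) (n : ℕ), n ≤ N → es N A φ g i n ≤ H) {i j : ℤ} (h : |i - j| ≤ N) :
    |rm N A φ g i - rm N A φ g j| ≤ √(N * H) := by
  have hH0 : 0 ≤ H := (es_nonneg N A φ g 0 0).trans (hH 0 0 (Nat.zero_le _))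
  have key : ∀ (a : ℤ) (n : ℕ), n ≤ N → |rm N A φ g (a + n) - rm N A φ g a| ≤ √(N * H) := by
    intro a n hn
    apply Real.abs_le_sqrt
    refine (rm_sq N A φ g a n).trans ?_
    have h1 : (n : ℝ) ≤ N := by exact_mod_cast hn
    exact mul_le_mul h1 (hH a n hn) (es_nonneg _ _ _ _ _ _) (Nat.cast_nonneg _)
  rcases le_total j i with hji | hji
  · obtain ⟨n, hn⟩ := Int.eq_ofNat_of_zero_le (sub_nonneg.mpr hji)
    have e : i = j + n := by omega
    rw [e] at h ⊢
    rw [add_sub_cancel_left, abs_of_nonneg (by positivity)] at h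
    exact key j n (by exact_mod_cast h)
  · obtain ⟨n, hn⟩ := Int.eq_ofNat_of_zero_le (sub_nonneg.mpr hji)
    have e : j = i + n := by omega
    rw [e] at h ⊢
    rw [sub_add_cancel_left, abs_neg, abs_of_nonneg (by positivity)] at h
    rw [abs_sub_comm]
    exact key i n (by exact_mod_cast h)

/-- A maximum and a minimum of `g` are far apart unless the remainder is large. -/
theorem osc {N : ℕ} (hN : 6 ≤ N) {A φ H : ℝ} (hA : 0 ≤ A) {g : ℤ → ℝ}
    (hH : ∀ (i : ℤ) (n : ℕ), n ≤ N → es N A φ g i n ≤ H)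
    {P Q : ℤ} (hP : ∀ j, g j ≤ g P) (hQ : ∀ j, g Q ≤ g j) (hPQ : 4 * |P - Q| ≤ N) :
    A ^ 2 / (40 * N) ≤ H := by
  set θ := 2 * Real.pi / N with hθ
  have hNpos : (0 : ℝ) < N := by positivity
  have hN6 : (6 : ℝ) ≤ N := by exact_mod_cast hN
  have hpi := Real.pi_pos
  have hθ0 : 0 < θ := by positivity
  have hH0 : 0 ≤ H := (es_nonneg N A φ g 0 0).trans (hH 0 0 (Nat.zero_le _))
  have hθ3 : θ / 2 ≤ Real.pi / 6 := by
    rw [hθ, div_div, div_le_div_iff₀ (by positivity) (by norm_num)]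
    nlinarith
  set j₁ : ℤ := round (φ / θ) with hj₁
  set j₂ : ℤ := round ((φ + Real.pi) / θ) with hj₂
  have h1 : |θ * j₁ - φ| ≤ θ / 2 := by
    have e1 := abs_sub_round (φ / θ)
    rw [← hj₁] at e1
    have e2 : |θ * j₁ - φ| = θ * |φ / θ - j₁| := by
      rw [← abs_of_pos hθ0, ← abs_mul, abs_of_pos hθ0, ← abs_neg]
      congr 1
      field_simp
      ring
    rw [e2]
    nlinarith
  have h2 : |θ * j₂ - (φ + Real.pi)| ≤ θ / 2 := by
    have e1 := abs_sub_round ((φ + Real.pi) / θ)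
    rw [← hj₂] at e1
    have e2 : |θ * j₂ - (φ + Real.pi)| = θ * |(φ + Real.pi) / θ - j₂| := by
      rw [← abs_of_pos hθ0, ← abs_mul, abs_of_pos hθ0, ← abs_neg]
      congr 1
      field_simp
      ring
    rw [e2]
    nlinarith
  have hcos : ∀ x : ℝ, |x| ≤ θ / 2 → √3 / 2 ≤ Real.cos x := by
    intro x hx
    rw [← Real.cos_pi_div_six, ← Real.cos_abs x]
    apply Real.cos_le_cos_of_nonneg_of_le_pi (abs_nonneg _) (by linarith) (by linarith)
  have h3 : √3 / 2 * A ≤ md N A φ j₁ := by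
    unfold md
    have := mul_le_mul_of_nonneg_left (hcos _ h1) hA
    rw [← hθ]; linarith
  have h4 : md N A φ j₂ ≤ - (√3 / 2 * A) := by
    unfold md
    have e1 := mul_le_mul_of_nonneg_left (hcos _ h2) hA
    have e2 : Real.cos (θ * (j₂ : ℝ) - (φ + Real.pi)) = - Real.cos (θ * j₂ - φ) := by
      rw [← Real.cos_sub_pi]; congr 1; ring
    rw [e2] at e1
    rw [← hθ]; linarith
  -- distance of `j₁` and `j₂`
  have h5 : |j₁ - j₂| ≤ N := by
    have e1 : |((j₁ - j₂ : ℤ) : ℝ)| ≤ N := by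
      have e2 : θ * |((j₁ - j₂ : ℤ) : ℝ)| ≤ θ * N := by
        rw [← abs_of_pos hθ0, ← abs_mul, abs_of_pos hθ0]
        have e3 : θ * ((j₁ - j₂ : ℤ) : ℝ) = (θ * j₁ - φ) - (θ * j₂ - (φ + Real.pi)) - Real.pi := by
          push_cast; ring
        have e4 : θ * N = 2 * Real.pi := by rw [hθ]; field_simp
        rw [e3, e4, abs_le]
        have e5 := abs_le.mp h1
        have e6 := abs_le.mp h2
        constructor <;> linarith
      exact le_of_mul_le_mul_left e2 hθ0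
    exact_mod_cast e1
  have h6 : |P - Q| ≤ N := by
    have := abs_nonneg (P - Q)
    omega
  -- the mode at `P`, `Q`
  have h7 : md N A φ P - md N A φ Q ≤ √2 * A := by
    unfold md
    rw [← mul_sub, Real.cos_sub_cos]
    have e1 : (2 * Real.pi / N * (P : ℝ) - φ - (2 * Real.pi / N * (Q : ℝ) - φ)) / 2 =
        θ * (P - Q) / 2 := by rw [← hθ]; ring
    rw [e1]
    have e2 : |Real.sin (θ * (P - Q) / 2)| ≤ √2 / 2 := by
      have e3 : |θ * ((P : ℝ) - Q) / 2| ≤ Real.pi / 4 := by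
        have e4 : (4 : ℝ) * |(P : ℝ) - Q| ≤ N := by exact_mod_cast hPQ
        rw [abs_div, abs_mul, abs_of_pos hθ0, abs_of_pos (show (0 : ℝ) < 2 by norm_num), hθ]
        rw [div_mul_eq_mul_div, div_div, div_le_div_iff₀ (by positivity) (by norm_num)]
        nlinarith
      have e5 : |Real.sin (θ * ((P : ℝ) - Q) / 2)| = Real.sin |θ * ((P : ℝ) - Q) / 2| := by
        set x := θ * ((P : ℝ) - Q) / 2
        have hx : 0 ≤ Real.sin |x| := Real.sin_nonneg_of_nonneg_of_le_pi (abs_nonneg _) (by linarith)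
        rcases abs_cases x with ⟨h, _⟩ | ⟨h, _⟩
        · rw [h] at hx ⊢
          rw [abs_of_nonneg hx]
        · rw [h] at hx ⊢
          rw [← abs_of_nonneg hx, Real.sin_neg, abs_neg]
      rw [e5, ← Real.sin_pi_div_four]
      apply Real.sin_le_sin_of_le_of_le_pi_div_two
      · have := abs_nonneg (θ * ((P : ℝ) - Q) / 2); linarith
      · linarith
      · exact e3
    set y := Real.sin ((2 * Real.pi / N * (P : ℝ) - φ + (2 * Real.pi / N * (Q : ℝ) - φ)) / 2)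
    have e6 : |y| ≤ 1 := Real.abs_sin_le_one _
    have e7 : |y * Real.sin (θ * (P - Q) / 2)| ≤ √2 / 2 := by
      rw [abs_mul]
      calc |y| * |Real.sin (θ * (P - Q) / 2)| ≤ 1 * (√2 / 2) :=
            mul_le_mul e6 e2 (abs_nonneg _) zero_le_one
        _ = √2 / 2 := one_mul _
    have e8 := (abs_le.mp e7).1
    have e9 : A * (-2 * y * Real.sin (θ * (P - Q) / 2)) = 2 * (A * -(y * Real.sin (θ * (P - Q) / 2))) := by
      ring
    rw [e9]
    have e10 := mul_le_mul_of_nonneg_left (show -(y * Real.sin (θ * (P - Q) / 2)) ≤ √2 / 2 by linarith) hA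
    linarith
  have h8 := abs_le.mp (rm_abs hH h5)
  have h9 := abs_le.mp (rm_abs hH h6)
  have h10 : g j₁ - g j₂ ≤ g P - g Q := by
    have := hP j₁
    have := hQ j₂
    linarith
  have e1 : g j₁ - g j₂ = (md N A φ j₁ - md N A φ j₂) + (rm N A φ g j₁ - rm N A φ g j₂) := by
    unfold rm; ring
  have e2 : g P - g Q = (md N A φ P - md N A φ Q) + (rm N A φ g P - rm N A φ g Q) := by
    unfold rm; ring
  rw [e1, e2] at h10
  have h11 : (√3 - √2) * A ≤ 2 * √(N * H) := by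
    nlinarith [h8.1, h8.2, h9.1, h9.2]
  have h12 : (0.3178 : ℝ) ≤ √3 - √2 := by
    have e3 : (1.73205 : ℝ) ≤ √3 := by
      apply Real.le_sqrt_of_sq_le; norm_num
    have e4 : √2 ≤ (1.41422 : ℝ) := by
      rw [Real.sqrt_le_left (by norm_num)]; norm_num
    linarith
  have h13 : 0.3178 * A ≤ 2 * √(N * H) := (mul_le_mul_of_nonneg_right h12 hA).trans h11
  have h14 : (0.3178 * A) ^ 2 ≤ 4 * (N * H) := by
    calc (0.3178 * A) ^ 2 ≤ (2 * √(N * H)) ^ 2 := pow_le_pow_left₀ (by positivity) h13 2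
      _ = 4 * (N * H) := by rw [mul_pow, Real.sq_sqrt (by positivity)]; norm_num
  rw [div_le_iff₀ (by positivity)]
  nlinarith

/-- If there is a closed piece then the remainder is not too small. -/
theorem loop_none {N : ℕ} (hN : 0 < N) {A φ H : ℝ} (hA : 0 ≤ A) {g : ℤ → ℝ}
    (hH : ∀ (i : ℤ) (n : ℕ), n ≤ N → es N A φ g i n ≤ H)
    {P Q : ℤ} (hP : ∀ j, g j ≤ g P) (hQ : ∀ j, g Q ≤ g j) (hper : ∀ i, g (i + N) = g i)
    {s : ℤ} {n : ℕ} (hn : 2 ≤ n) (hn3 : 4 * n ≤ 3 * N) (hs : g (s + n) = g s)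
    (hPs : ∀ k : ℤ, ¬ (s < P + k * N ∧ P + k * N < s + n))
    (hQs : ∀ k : ℤ, ¬ (s < Q + k * N ∧ Q + k * N < s + n)) :
    A ^ 2 * (2 * Real.pi / N) ^ 4 / 500 ≤ H := by
  obtain ⟨z, -, h⟩ := loop_main hN hA hH hP hQ hper hn hn3 hs hPs hQs
  have hn' : (2 : ℝ) ≤ n := by exact_mod_cast hn
  have hpi := Real.pi_pos
  have hpi2 := Real.pi_lt_d4
  set θ := 2 * Real.pi / N with hθ
  have hX : 0 ≤ A ^ 2 * θ ^ 4 := by positivity
  rcases h with ⟨h1, h2⟩ | ⟨h1, u, h2, h3⟩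
  · have h4 : es N A φ g s n ≤ H := hH s n (by omega)
    set p := |(s + n / 2 : ℝ) - z|
    have h5 : (1 / 8 : ℝ) ≤ p ^ 2 * n := by
      have e1 : (1 / 4 : ℝ) ≤ p := by linarith
      nlinarith
    have h6 : A ^ 2 * θ ^ 4 * (1 / 8) ≤ A ^ 2 * θ ^ 4 * (p ^ 2 * n) :=
      mul_le_mul_of_nonneg_left h5 hX
    have h7 : (8 / 500 : ℝ) ≤ 4 / (25 * Real.pi ^ 2) := by
      rw [div_le_div_iff₀ (by norm_num) (by positivity)]
      nlinarith
    calc A ^ 2 * θ ^ 4 / 500 = 8 / 500 * (A ^ 2 * θ ^ 4 * (1 / 8)) := by ring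
      _ ≤ 4 / (25 * Real.pi ^ 2) * (A ^ 2 * θ ^ 4 * (p ^ 2 * n)) :=
          mul_le_mul h7 h6 (by positivity) (by positivity)
      _ = 4 / (25 * Real.pi ^ 2) * (A ^ 2 * θ ^ 4 * p ^ 2 * n) := by ring
      _ ≤ H := h2.trans h4
  · have h4 : (3 / 4 : ℝ) ≤ u := by linarith
    have h5 : (27 / 64 : ℝ) ≤ u ^ 3 := by
      calc (27 / 64 : ℝ) = (3 / 4) ^ 3 := by norm_num
        _ ≤ u ^ 3 := pow_le_pow_left₀ (by norm_num) h4 3
    have h6 := mul_le_mul_of_nonneg_left h5 hX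
    linarith

open Classical in
/-- The weight used for counting. -/
noncomputable def wt (N : ℕ) (A φ κ : ℝ) (g : ℤ → ℝ) (i : ℤ) : ℝ :=
  (if |Real.sin (2 * Real.pi / N * (i + 1 / 2) - φ)| < κ then 1 else 0) +
    625 * Real.pi ^ 2 / 4 / (κ ^ 2 * A ^ 2 * (2 * Real.pi / N) ^ 2) * en N A φ g i

theorem wt_nonneg (N : ℕ) (A φ κ : ℝ) (g : ℤ → ℝ) (i : ℤ) : 0 ≤ wt N A φ κ g i := by
  unfold wt
  have h1 := en_nonneg N A φ g i
  have h2 : (0 : ℝ) ≤ 625 * Real.pi ^ 2 / 4 / (κ ^ 2 * A ^ 2 * (2 * Real.pi / N) ^ 2) := by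
    positivity
  split_ifs
  · positivity
  · have := mul_nonneg h2 h1
    linarith

/-- Counting along a closed piece. -/
theorem loop_count {N : ℕ} (hN : 0 < N) {A φ H κ : ℝ} (hA : 0 < A) (hκ : 0 < κ) {g : ℤ → ℝ}
    (hH : ∀ (i : ℤ) (n : ℕ), n ≤ N → es N A φ g i n ≤ H)
    (hκH : 125 / 27 * (1300 / 9) * H < κ ^ 3 * A ^ 2 * (2 * Real.pi / N))
    {P Q : ℤ} (hP : ∀ j, g j ≤ g P) (hQ : ∀ j, g Q ≤ g j) (hper : ∀ i, g (i + N) = g i)
    {s : ℤ} {n : ℕ} (hn : 2 ≤ n) (hn3 : 4 * n ≤ 3 * N) (hs : g (s + n) = g s)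
    (hPs : ∀ k : ℤ, ¬ (s < P + k * N ∧ P + k * N < s + n))
    (hQs : ∀ k : ℤ, ¬ (s < Q + k * N ∧ Q + k * N < s + n)) :
    (n : ℝ) ≤ ∑ k ∈ range n, wt N A φ κ g (s + k) := by
  classical
  obtain ⟨z, ⟨n₁, hz⟩, h⟩ := loop_main hN hA.le hH hP hQ hper hn hn3 hs hPs hQs
  have hn' : (2 : ℝ) ≤ n := by exact_mod_cast hn
  have hNpos : (0 : ℝ) < N := by exact_mod_cast hN
  have hpi := Real.pi_pos
  set θ := 2 * Real.pi / N with hθ
  have hθ0 : 0 < θ := by positivity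
  set p := |(s + n / 2 : ℝ) - z| with hp
  have hp0 : 0 ≤ p := abs_nonneg _
  -- the sine on the piece
  have hsin : ∀ k ∈ range n, |Real.sin (θ * (((s + k : ℤ) : ℝ) + 1 / 2) - φ)| ≤ θ * (n / 2 + p) := by
    intro k hk
    have hk' : (k : ℝ) + 1 ≤ n := by exact_mod_cast Finset.mem_range.mp hk
    have hk0 : (0 : ℝ) ≤ k := Nat.cast_nonneg _
    have e1 : θ * (((s + k : ℤ) : ℝ) + 1 / 2) - φ =
        θ * ((((s + k : ℤ) : ℝ) + 1 / 2) - z) + n₁ * Real.pi := by
      rw [← hz]; ring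
    rw [e1, Real.sin_add_int_mul_pi, abs_mul]
    have e2 : |(-1 : ℝ) ^ n₁| = 1 := by
      rw [abs_zpow, abs_neg, abs_one, one_zpow]
    rw [e2, one_mul]
    refine (Real.abs_sin_le_abs).trans ?_
    rw [abs_mul, abs_of_pos hθ0]
    apply mul_le_mul_of_nonneg_left _ hθ0.le
    have e3 : ((s + k : ℤ) : ℝ) + 1 / 2 - z = ((k : ℝ) + 1 / 2 - n / 2) + ((s + n / 2 : ℝ) - z) := by
      push_cast; ring
    rw [e3]
    refine (abs_add_le _ _).trans ?_
    rw [← hp]
    have e4 : |(k : ℝ) + 1 / 2 - n / 2| ≤ n / 2 := by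
      rw [abs_le]; constructor <;> linarith
    linarith
  set K₁ : ℝ := 625 * Real.pi ^ 2 / 4 / (κ ^ 2 * A ^ 2 * θ ^ 2) with hK₁
  have hK₁0 : 0 ≤ K₁ := by positivity
  rcases h with ⟨h1, h2⟩ | ⟨h1, u, h2, h3⟩
  · -- good piece
    have e0 : ∀ k ∈ range n, (1 : ℝ) ≤ (if |Real.sin (θ * (((s + k : ℤ) : ℝ) + 1 / 2) - φ)| < κ
        then 1 else 0) + 25 * θ ^ 2 * p ^ 2 / κ ^ 2 := by
      intro k hk
      have e1 : (0 : ℝ) ≤ 25 * θ ^ 2 * p ^ 2 / κ ^ 2 := by positivity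
      split_ifs with hc
      · linarith
      · rw [not_lt] at hc
        have e2 : κ ≤ 5 * θ * p := by
          have := hc.trans (hsin k hk)
          nlinarith
        rw [zero_add, le_div_iff₀ (by positivity), one_mul]
        calc κ ^ 2 ≤ (5 * θ * p) ^ 2 := pow_le_pow_left₀ hκ.le e2 2
          _ = _ := by ring
    have e1 : (n : ℝ) ≤ ∑ k ∈ range n, ((if |Real.sin (θ * (((s + k : ℤ) : ℝ) + 1 / 2) - φ)| < κ
        then (1 : ℝ) else 0) + 25 * θ ^ 2 * p ^ 2 / κ ^ 2) := by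
      calc (n : ℝ) = ∑ k ∈ range n, (1 : ℝ) := by simp
        _ ≤ _ := Finset.sum_le_sum e0
    rw [Finset.sum_add_distrib, Finset.sum_const, card_range, nsmul_eq_mul] at e1
    have e2 : n * (25 * θ ^ 2 * p ^ 2 / κ ^ 2) ≤ K₁ * es N A φ g s n := by
      calc n * (25 * θ ^ 2 * p ^ 2 / κ ^ 2)
          = K₁ * (4 / (25 * Real.pi ^ 2) * (A ^ 2 * θ ^ 4 * p ^ 2 * n)) := by
            rw [hK₁]; field_simp; ring
        _ ≤ K₁ * es N A φ g s n := mul_le_mul_of_nonneg_left h2 hK₁0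
    have e3 : ∑ k ∈ range n, wt N A φ κ g (s + k) =
        ∑ k ∈ range n, (if |Real.sin (θ * (((s + k : ℤ) : ℝ) + 1 / 2) - φ)| < κ
        then (1 : ℝ) else 0) + K₁ * es N A φ g s n := by
      unfold wt es
      rw [Finset.sum_add_distrib, Finset.mul_sum]
    rw [e3]
    linarith
  · -- short piece near an extremum
    have e0 : ∀ k ∈ range n, |Real.sin (θ * (((s + k : ℤ) : ℝ) + 1 / 2) - φ)| < κ := by
      intro k hk
      have e1 : θ * (n / 2 + p) ≤ 5 / 3 * θ * u := by nlinarith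
      refine (hsin k hk).trans_lt (e1.trans_lt ?_)
      have hu0 : 0 < u := by linarith
      have e2 : (5 / 3 * θ * u) ^ 3 < κ ^ 3 := by
        have e3 : A ^ 2 * θ * (5 / 3 * θ * u) ^ 3 < A ^ 2 * θ * κ ^ 3 := by
          calc A ^ 2 * θ * (5 / 3 * θ * u) ^ 3 = 125 / 27 * (A ^ 2 * θ ^ 4 * u ^ 3) := by ring
            _ ≤ 125 / 27 * (1300 / 9 * H) := by linarith
            _ = 125 / 27 * (1300 / 9) * H := by ring
            _ < κ ^ 3 * A ^ 2 * θ := hκH
            _ = A ^ 2 * θ * κ ^ 3 := by ring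
        exact lt_of_mul_lt_mul_left e3 (by positivity)
      exact lt_of_pow_lt_pow_left₀ 3 hκ.le e2
    calc (n : ℝ) = ∑ k ∈ range n, (1 : ℝ) := by simp
      _ ≤ ∑ k ∈ range n, wt N A φ κ g (s + k) := by
          apply Finset.sum_le_sum
          intro k hk
          unfold wt
          rw [if_pos (e0 k hk)]
          have := mul_nonneg hK₁0 (en_nonneg N A φ g (s + k))
          linarith

/-- Number of natural numbers in an interval. -/
theorem card_near (N : ℕ) (w r : ℝ) (hr : 0 ≤ r) :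
    (((range N).filter fun k : ℕ => |(k : ℝ) - w| < r).card : ℝ) ≤ 2 * r + 1 := by
  classical
  set S := (range N).filter fun k : ℕ => |(k : ℝ) - w| < r with hS
  rcases S.eq_empty_or_nonempty with h | h
  · rw [h]; simp; linarith
  · have h1 : S ⊆ Finset.Icc (S.min' h) (S.max' h) := fun k hk =>
      Finset.mem_Icc.mpr ⟨S.min'_le k hk, S.le_max' k hk⟩
    have h2 := Finset.card_le_card h1
    rw [Nat.card_Icc] at h2
    have h3 := (Finset.mem_filter.mp (S.min'_mem h)).2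
    have h4 := (Finset.mem_filter.mp (S.max'_mem h)).2
    have h5 : S.min' h ≤ S.max' h := S.min'_le _ (S.max'_mem h)
    have h6 : (S.card : ℝ) ≤ (S.max' h : ℝ) + 1 - S.min' h := by
      have : S.card + S.min' h ≤ S.max' h + 1 := by omega
      have h7 : ((S.card + S.min' h : ℕ) : ℝ) ≤ ((S.max' h + 1 : ℕ) : ℝ) := by exact_mod_cast this
      push_cast at h7
      linarith
    rw [abs_lt] at h3 h4
    linarith [h3.1, h4.2]

/-- Number of places where the mode is almost stationary. -/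
theorem near_count {N : ℕ} (hN : 0 < N) {φ κ : ℝ} (hκ : 0 < κ) :
    (((range N).filter fun k : ℕ =>
      |Real.sin (2 * Real.pi / N * (((k : ℤ) : ℝ) + 1 / 2) - φ)| < κ).card : ℝ) ≤ 2 * κ * N + 4 := by
  classical
  have hNpos : (0 : ℝ) < N := by exact_mod_cast hN
  have hpi := Real.pi_pos
  set θ := 2 * Real.pi / N with hθ
  have hθ0 : 0 < θ := by positivity
  set m₀ : ℤ := ⌊-φ / Real.pi⌋ with hm₀
  set T : ℕ → Finset ℕ := fun i => (range N).filter fun k : ℕ =>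
    |(k : ℝ) - ((φ + (m₀ + i : ℤ) * Real.pi) / θ - 1 / 2)| < κ * N / 4 with hT
  have hsub : ((range N).filter fun k : ℕ =>
      |Real.sin (θ * (((k : ℤ) : ℝ) + 1 / 2) - φ)| < κ) ⊆ (range 4).biUnion T := by
    intro k hk
    obtain ⟨hk1, hk2⟩ := Finset.mem_filter.mp hk
    have hkN : (k : ℝ) + 1 ≤ N := by exact_mod_cast Finset.mem_range.mp hk1
    have hk0 : (0 : ℝ) ≤ k := Nat.cast_nonneg _
    set ψ := θ * (((k : ℤ) : ℝ) + 1 / 2) - φ with hψ
    set n₁ : ℤ := round (ψ / Real.pi) with hn₁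
    have e1 := abs_sub_round (ψ / Real.pi)
    rw [← hn₁] at e1
    have e2 : |ψ - n₁ * Real.pi| ≤ Real.pi / 2 := by
      have e3 : |ψ - n₁ * Real.pi| = Real.pi * |ψ / Real.pi - n₁| := by
        rw [← abs_of_pos hpi, ← abs_mul, abs_of_pos hpi]
        congr 1
        field_simp
      rw [e3]; nlinarith
    have e4 : |Real.sin ψ| = Real.sin |ψ - n₁ * Real.pi| := by
      have e5 : |Real.sin ψ| = |Real.sin (ψ - n₁ * Real.pi)| := by
        rw [Real.sin_sub_int_mul_pi, abs_mul]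
        have : |(-1 : ℝ) ^ n₁| = 1 := by
          rw [abs_zpow, abs_neg, abs_one, one_zpow]
        rw [this, one_mul]
      rw [e5]
      set x := ψ - n₁ * Real.pi
      have hx : 0 ≤ Real.sin |x| := Real.sin_nonneg_of_nonneg_of_le_pi (abs_nonneg _) (by linarith)
      rcases abs_cases x with ⟨h, _⟩ | ⟨h, _⟩
      · rw [h] at hx ⊢
        rw [abs_of_nonneg hx]
      · rw [h] at hx ⊢
        rw [← abs_of_nonneg hx, Real.sin_neg, abs_neg]
    have e6 := Real.mul_le_sin (abs_nonneg _) e2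
    rw [← e4] at e6
    have e7 : |ψ - n₁ * Real.pi| < κ * Real.pi / 2 := by
      have e8 := e6.trans_lt hk2
      rw [div_mul_eq_mul_div, div_lt_iff₀ hpi] at e8
      linarith
    -- range of `n₁`
    have e9 : θ * N = 2 * Real.pi := by rw [hθ]; field_simp
    have e10 : ((k : ℤ) : ℝ) = k := by norm_cast
    have e11 : -φ / Real.pi ≤ ψ / Real.pi := by
      apply div_le_div_of_nonneg_right _ hpi.le
      rw [hψ, e10]
      nlinarith
    have e12 : ψ / Real.pi ≤ -φ / Real.pi + 2 := by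
      rw [div_add' _ _ _ hpi.ne']
      apply div_le_div_of_nonneg_right _ hpi.le
      rw [hψ, e10]
      nlinarith
    have e13 := (abs_le.mp e1)
    have e14 := Int.floor_le (-φ / Real.pi)
    have e15 := Int.lt_floor_add_one (-φ / Real.pi)
    rw [← hm₀] at e14 e15
    have e16 : m₀ ≤ n₁ := by
      have : ((m₀ - 1 : ℤ) : ℝ) < n₁ := by push_cast; linarith [e13.2]
      have : m₀ - 1 < n₁ := by exact_mod_cast this
      omega
    have e17 : n₁ ≤ m₀ + 3 := by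
      have : (n₁ : ℝ) < ((m₀ + 4 : ℤ) : ℝ) := by push_cast; linarith [e13.1]
      have : n₁ < m₀ + 4 := by exact_mod_cast this
      omega
    obtain ⟨i, hi⟩ := Int.eq_ofNat_of_zero_le (sub_nonneg.mpr e16)
    rw [Finset.mem_biUnion]
    refine ⟨i, Finset.mem_range.mpr (by omega), ?_⟩
    rw [hT]
    simp only [Finset.mem_filter]
    refine ⟨hk1, ?_⟩
    have e18 : (m₀ + i : ℤ) = n₁ := by
      have : (i : ℤ) = n₁ - m₀ := hi.symm
      omega
    rw [e18]
    have e19 : |(k : ℝ) - ((φ + (n₁ : ℝ) * Real.pi) / θ - 1 / 2)| = |ψ - n₁ * Real.pi| / θ := by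
      rw [← abs_of_pos hθ0, ← abs_div, abs_of_pos hθ0]
      congr 1
      rw [hψ, e10]
      field_simp
      ring
    rw [e19, div_lt_iff₀ hθ0]
    calc |ψ - n₁ * Real.pi| < κ * Real.pi / 2 := e7
      _ = κ * N / 4 * θ := by rw [hθ]; field_simp; ring
  have h1 := (Finset.card_le_card hsub).trans Finset.card_biUnion_le
  have h2 : ((((range N).filter fun k : ℕ =>
      |Real.sin (θ * (((k : ℤ) : ℝ) + 1 / 2) - φ)| < κ).card : ℕ) : ℝ) ≤
      ∑ i ∈ range 4, ((T i).card : ℝ) := by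
    exact_mod_cast h1
  refine h2.trans ?_
  calc ∑ i ∈ range 4, ((T i).card : ℝ) ≤ ∑ i ∈ range 4, (2 * (κ * N / 4) + 1) := by
        apply Finset.sum_le_sum
        intro i _
        exact card_near N _ _ (by positivity)
    _ = 2 * κ * N + 4 := by
        rw [Finset.sum_const, card_range, nsmul_eq_mul]
        push_cast; ring

end Pool.Agent.H43.Stab
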