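import Mathlib

set_option autoImplicit false
set_option linter.unusedSectionVars false

/-! A closed walk through every dart which follows a given path forwards and backwards. -/

namespace Pool.Agent.H43.Stab

open Finset

variable {V : Type*} [Fintype V] [DecidableEq V] (G : SimpleGraph V) [DecidableRel G.Adj]

theorem insert_dart {a b : V} (q : G.Walk a b) (d : G.Dart) (hd : d.fst ∈ q.support) :
    ∃ q' : G.Walk a b, q'.darts.Perm (d :: d.symm :: q.darts) ∧ q.darts.Sublist q'.darts := by
  refine ⟨(q.takeUntil d.fst hd).append (SimpleGraph.Walk.cons d.adj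
    (SimpleGraph.Walk.cons d.adj.symm (q.dropUntil d.fst hd))), ?_, ?_⟩
  · have h1 : q.darts = (q.takeUntil d.fst hd).darts ++ (q.dropUntil d.fst hd).darts := by
      rw [← SimpleGraph.Walk.darts_append, q.take_spec hd]
    rw [SimpleGraph.Walk.darts_append, SimpleGraph.Walk.darts_cons, SimpleGraph.Walk.darts_cons, h1]
    have h2 : (⟨(d.fst, d.snd), d.adj⟩ : G.Dart) = d := rfl
    have h3 : (⟨(d.snd, d.fst), d.adj.symm⟩ : G.Dart) = d.symm := rfl
    rw [h2, h3]
    refine (List.perm_middle).trans ?_
    refine List.Perm.cons _ ?_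
    exact List.perm_middle
  · have h1 : q.darts = (q.takeUntil d.fst hd).darts ++ (q.dropUntil d.fst hd).darts := by
      rw [← SimpleGraph.Walk.darts_append, q.take_spec hd]
    rw [SimpleGraph.Walk.darts_append, SimpleGraph.Walk.darts_cons, SimpleGraph.Walk.darts_cons, h1]
    apply List.Sublist.append (List.Sublist.refl _)
    exact ((List.Sublist.refl _).cons _).cons _

/-- There is a closed walk through every dart exactly once which follows the trail `Γ` forwards and
then backwards. -/
theorem exists_tour_path (hG : G.Connected) {x y : V} (Γ : G.Walk x y) (hΓ : Γ.IsTrail) :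
    ∃ (p₁ : G.Walk x y) (p₂ : G.Walk y x), (p₁.darts ++ p₂.darts).Nodup ∧
      (∀ d : G.Dart, d ∈ p₁.darts ++ p₂.darts) ∧ Γ.darts.Sublist p₁.darts ∧
      Γ.reverse.darts.Sublist p₂.darts := by
  classical
  let P : ℕ → Prop := fun n => ∃ (p₁ : G.Walk x y) (p₂ : G.Walk y x),
    (p₁.darts ++ p₂.darts).Nodup ∧
    (∀ d ∈ p₁.darts ++ p₂.darts, d.symm ∈ p₁.darts ++ p₂.darts) ∧
    Γ.darts.Sublist p₁.darts ∧ Γ.reverse.darts.Sublist p₂.darts ∧
    (p₁.darts ++ p₂.darts).length = n
  have hrev : Γ.reverse.darts = (Γ.darts.map SimpleGraph.Dart.symm).reverse :=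
    SimpleGraph.Walk.darts_reverse Γ
  have hnd0 : Γ.darts.Nodup := by
    have := hΓ.edges_nodup
    exact List.Nodup.of_map _ this
  have hP0 : P (Γ.darts ++ Γ.reverse.darts).length := by
    refine ⟨Γ, Γ.reverse, ?_, ?_, List.Sublist.refl _, List.Sublist.refl _, rfl⟩
    · rw [List.nodup_append]
      refine ⟨hnd0, ?_, ?_⟩
      · rw [hrev, List.nodup_reverse]
        exact hnd0.map SimpleGraph.Dart.symm_involutive.injective
      · intro d hd d' hd' hdd
        subst hdd
        rw [hrev, List.mem_reverse, List.mem_map] at hd'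
        obtain ⟨e, he, hed⟩ := hd'
        -- `e.symm = d`, both in `Γ.darts`, same edge
        have h1 : e.edge = d.edge := by rw [← hed, SimpleGraph.Dart.edge_symm]
        have h2 : (Γ.darts.map SimpleGraph.Dart.edge).Nodup := hΓ.edges_nodup
        have h3 : e = d := List.inj_on_of_nodup_map h2 he hd h1
        rw [h3] at hed
        exact SimpleGraph.Dart.symm_ne d hed
    · intro d hd
      rw [List.mem_append] at hd ⊢
      rcases hd with hd | hd
      · right
        rw [hrev, List.mem_reverse, List.mem_map]
        exact ⟨d, hd, rfl⟩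
      · left
        rw [hrev, List.mem_reverse, List.mem_map] at hd
        obtain ⟨e, he, hed⟩ := hd
        rw [← hed, SimpleGraph.Dart.symm_symm]
        exact he
  have hbound : ∀ n, P n → n ≤ Fintype.card G.Dart := by
    rintro n ⟨p₁, p₂, hnd, -, -, -, rfl⟩
    exact hnd.length_le_card
  obtain ⟨n, hn, hmax⟩ : ∃ n, P n ∧ ∀ m, P m → m ≤ n := by
    have := Nat.findGreatest_spec (P := P) (hbound _ hP0) hP0
    exact ⟨_, this, fun m hm => Nat.le_findGreatest (hbound m hm) hm⟩
  obtain ⟨p₁, p₂, hnd, hsymm, hs1, hs2, hlen⟩ := hn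
  refine ⟨p₁, p₂, hnd, ?_, hs1, hs2⟩
  by_contra hcon
  push Not at hcon
  obtain ⟨d0, hd0⟩ := hcon
  have hex : ∃ d : G.Dart, (d.fst ∈ p₁.support ∨ d.fst ∈ p₂.support) ∧
      d ∉ p₁.darts ++ p₂.darts := by
    by_contra hno
    push Not at hno
    have hclosed : ∀ u v, G.Adj u v → (u ∈ p₁.support ∨ u ∈ p₂.support) →
        (v ∈ p₁.support ∨ v ∈ p₂.support) := by
      intro u v huv hu
      have h1 := hno ⟨(u, v), huv⟩ hu
      rw [List.mem_append] at h1
      rcases h1 with h1 | h1
      · exact Or.inl (p₁.dart_snd_mem_support_of_mem_darts h1)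
      · exact Or.inr (p₂.dart_snd_mem_support_of_mem_darts h1)
    have hall : ∀ v, v ∈ p₁.support ∨ v ∈ p₂.support := by
      intro v
      obtain ⟨w⟩ := hG.preconnected x v
      have : ∀ {a b : V} (w : G.Walk a b), (a ∈ p₁.support ∨ a ∈ p₂.support) →
          (b ∈ p₁.support ∨ b ∈ p₂.support) := by
        intro a b w
        induction w with
        | nil => exact id
        | cons h _ ih => exact fun hx => ih (hclosed _ _ h hx)
      exact this w (Or.inl p₁.start_mem_support)
    exact hd0 (hno d0 (hall _))
  obtain ⟨d, hdsupp, hdn⟩ := hex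
  have hdsn : d.symm ∉ p₁.darts ++ p₂.darts := by
    intro h
    have := hsymm _ h
    rw [SimpleGraph.Dart.symm_symm] at this
    exact hdn this
  -- a longer pair
  have key : ∀ (q₁ : G.Walk x y) (q₂ : G.Walk y x),
      (q₁.darts ++ q₂.darts).Perm (d :: d.symm :: (p₁.darts ++ p₂.darts)) →
      p₁.darts.Sublist q₁.darts → p₂.darts.Sublist q₂.darts → False := by
    intro q₁ q₂ hperm h1 h2
    have hP : P (n + 2) := by
      refine ⟨q₁, q₂, ?_, ?_, hs1.trans h1, hs2.trans h2, ?_⟩
      · rw [hperm.nodup_iff, List.nodup_cons, List.nodup_cons]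
        refine ⟨?_, hdsn, hnd⟩
        rw [List.mem_cons, not_or]
        exact ⟨fun h => SimpleGraph.Dart.symm_ne d h.symm, hdn⟩
      · intro e he
        rw [hperm.mem_iff, List.mem_cons, List.mem_cons] at he ⊢
        rcases he with rfl | rfl | he
        · exact Or.inr (Or.inl rfl)
        · left; rw [SimpleGraph.Dart.symm_symm]
        · exact Or.inr (Or.inr (hsymm e he))
      · rw [hperm.length_eq, List.length_cons, List.length_cons, hlen]
    have := hmax _ hP
    omega
  rcases hdsupp with h | h
  · obtain ⟨q, hq1, hq2⟩ := insert_dart G p₁ d h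
    refine key q p₂ ?_ hq2 (List.Sublist.refl _)
    exact (hq1.append_right _)
  · obtain ⟨q, hq1, hq2⟩ := insert_dart G p₂ d h
    refine key p₁ q ?_ (List.Sublist.refl _) hq2
    refine (hq1.append_left p₁.darts).trans ?_
    refine List.perm_middle.trans ?_
    exact List.Perm.cons _ List.perm_middle

theorem getVert_dart' {a b : V} (p : G.Walk a b) (i : ℕ) (hi : i < p.darts.length) :
    (p.darts[i]).fst = p.getVert i ∧ (p.darts[i]).snd = p.getVert (i + 1) := by
  induction p generalizing i with
  | nil => simp at hi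
  | cons h p ih =>
    cases i with
    | zero => simp
    | succ i =>
      simp only [SimpleGraph.Walk.darts_cons, List.getElem_cons_succ,
        SimpleGraph.Walk.getVert_cons_succ]
      apply ih

/-- Comparison of a walk with a walk whose darts form a sublist: if the weights dominate the length
on every closed piece, then they dominate the difference of the lengths. -/
theorem sublist_bound {u v : V} (q Γ : G.Walk u v) (hsub : Γ.darts.Sublist q.darts) (c : ℕ → ℝ)
    (hc0 : ∀ k, 0 ≤ c k)
    (hc : ∀ i j : ℕ, i < j → j ≤ q.length → q.getVert i = q.getVert j →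
      ((j - i : ℕ) : ℝ) ≤ ∑ k ∈ Finset.Ico i j, c k) :
    (q.length : ℝ) - Γ.length ≤ ∑ k ∈ Finset.range q.length, c k := by
  classical
  obtain ⟨f, hf⟩ := List.sublist_iff_exists_fin_orderEmbedding_get_eq.mp hsub
  have hL : Γ.darts.length = Γ.length := SimpleGraph.Walk.length_darts Γ
  have hM : q.darts.length = q.length := SimpleGraph.Walk.length_darts q
  -- positions
  set τ : ℕ → ℕ := fun k => if h : k < Γ.darts.length then (f ⟨k, h⟩).val else q.length with hτ
  have hτ1 : ∀ k (h : k < Γ.darts.length), τ k < q.length ∧ q.getVert (τ k) = Γ.getVert k ∧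
      q.getVert (τ k + 1) = Γ.getVert (k + 1) := by
    intro k h
    have e1 : τ k = (f ⟨k, h⟩).val := by
      rw [hτ]; simp only; rw [dif_pos h]
    have e2 : (f ⟨k, h⟩).val < q.darts.length := (f ⟨k, h⟩).isLt
    have e3 := hf ⟨k, h⟩
    rw [List.get_eq_getElem, List.get_eq_getElem] at e3
    have e4 := getVert_dart' G Γ k h
    have e5 := getVert_dart' G q _ e2
    rw [← e3] at e5
    rw [e1]
    exact ⟨by omega, e5.1.symm.trans e4.1, e5.2.symm.trans e4.2⟩
  have hτ2 : ∀ k, k + 1 < Γ.darts.length → τ k < τ (k + 1) := by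
    intro k h
    have e1 : τ k = (f ⟨k, by omega⟩).val := by
      rw [hτ]; simp only; rw [dif_pos]
    have e2 : τ (k + 1) = (f ⟨k + 1, h⟩).val := by
      rw [hτ]; simp only; rw [dif_pos h]
    rw [e1, e2]
    have : (⟨k, by omega⟩ : Fin Γ.darts.length) < ⟨k + 1, h⟩ := by
      rw [Fin.lt_def]; simp
    exact f.strictMono this
  have hτend : τ Γ.length = q.length := by
    rw [hτ]; simp only; rw [dif_neg (by omega)]
  have piece : ∀ i j : ℕ, i ≤ j → j ≤ q.length → q.getVert i = q.getVert j →
      (j : ℝ) - i ≤ ∑ k ∈ Finset.Ico i j, c k := by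
    intro i j hij hj h
    rcases eq_or_lt_of_le hij with rfl | hlt
    · simp
    · have := hc i j hlt hj h
      rw [Nat.cast_sub hij] at this
      exact this
  -- induction
  have main : ∀ k, k ≤ Γ.length → (τ k : ℝ) - k ≤ ∑ i ∈ Finset.range (τ k), c i := by
    intro k
    induction k with
    | zero =>
      intro _
      have e1 : q.getVert 0 = q.getVert (τ 0) := by
        rw [SimpleGraph.Walk.getVert_zero]
        rcases Nat.eq_zero_or_pos Γ.length with h | h
        · have huv : u = v := SimpleGraph.Walk.eq_of_length_eq_zero h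
          have : τ 0 = q.length := by rw [← hτend, h]
          rw [this, SimpleGraph.Walk.getVert_length]
          exact huv
        · rw [(hτ1 0 (by omega)).2.1, SimpleGraph.Walk.getVert_zero]
      have e2 : τ 0 ≤ q.length := by
        rcases Nat.eq_zero_or_pos Γ.length with h | h
        · rw [← hτend, h]
        · exact (hτ1 0 (by omega)).1.le
      have e3 := piece 0 (τ 0) (Nat.zero_le _) e2 e1
      rw [← Finset.range_eq_Ico] at e3
      simpa using e3
    | succ k ih =>
      intro hk
      have hk' : k < Γ.darts.length := by omega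
      have ih' := ih (by omega)
      have e1 := hτ1 k hk'
      have e2 : τ k + 1 ≤ τ (k + 1) := by
        rcases Nat.lt_or_ge (k + 1) Γ.darts.length with h | h
        · exact hτ2 k h
        · have : k + 1 = Γ.length := by omega
          rw [this, hτend]
          omega
      have e3 : τ (k + 1) ≤ q.length := by
        rcases Nat.lt_or_ge (k + 1) Γ.darts.length with h | h
        · exact (hτ1 (k + 1) h).1.le
        · have : k + 1 = Γ.length := by omega
          rw [this, hτend]
      have e4 : q.getVert (τ k + 1) = q.getVert (τ (k + 1)) := by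
        rw [e1.2.2]
        rcases Nat.lt_or_ge (k + 1) Γ.darts.length with h | h
        · exact (hτ1 (k + 1) h).2.1.symm
        · have : k + 1 = Γ.length := by omega
          rw [this, hτend, SimpleGraph.Walk.getVert_length, SimpleGraph.Walk.getVert_length]
      have e5 := piece _ _ e2 e3 e4
      have e6 : ∑ i ∈ Finset.range (τ k), c i + ∑ i ∈ Finset.Ico (τ k + 1) (τ (k + 1)), c i ≤
          ∑ i ∈ Finset.range (τ (k + 1)), c i := by
        have e7 : ∑ i ∈ Finset.range (τ (k + 1)), c i =
            ∑ i ∈ Finset.range (τ k + 1), c i + ∑ i ∈ Finset.Ico (τ k + 1) (τ (k + 1)), c i := by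
          rw [Finset.range_eq_Ico, Finset.range_eq_Ico]
          exact (Finset.sum_Ico_consecutive _ (Nat.zero_le _) e2).symm
        rw [e7, Finset.sum_range_succ]
        have := hc0 (τ k)
        linarith
      push_cast at e5 ⊢
      linarith
  have := main Γ.length le_rfl
  rw [hτend] at this
  exact this

end Pool.Agent.H43.Stab
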