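import Pool.Agent.H43.Stab.Wirt
import Pool.Agent.H43.Stab.Count
import Pool.Agent.H43.Stab.Tour
import Pool.Agent.H43.RelaxTime

set_option autoImplicit false
set_option linter.unusedSectionVars false

/-! Stability: a function with almost minimal Rayleigh quotient forces a long geodesic. -/

namespace Pool.Agent.H43.Stab

open Finset

theorem md_val {N : ℕ} [NeZero N] (A φ : ℝ) (i : ℤ) :
    md N A φ i = A * Real.cos (2 * Real.pi / N * (i : ZMod N).val - φ) := by
  have hN : (N : ℝ) ≠ 0 := by
    have := NeZero.ne N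
    exact_mod_cast this
  have h1 : ((i : ZMod N).val : ℤ) = i % N := ZMod.val_intCast i
  have h2 : (i : ℝ) = ((i : ZMod N).val : ℝ) + (i / N : ℤ) * N := by
    have h3 : i = ((i : ZMod N).val : ℤ) + (i / N) * N := by
      rw [h1, mul_comm]
      exact (Int.emod_add_mul_ediv i N).symm
    exact_mod_cast h3
  unfold md
  congr 1
  rw [h2]
  have h4 : 2 * Real.pi / N * (((i : ZMod N).val : ℝ) + (i / N : ℤ) * N) - φ =
      2 * Real.pi / N * ((i : ZMod N).val : ℝ) - φ + (i / N : ℤ) * (2 * Real.pi) := by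
    field_simp
    ring
  rw [h4, Real.cos_add_int_mul_two_pi]

theorem es_le_total {N : ℕ} [NeZero N] (A φ : ℝ) (F : ZMod N → ℝ) (i : ℤ) (n : ℕ) (hn : n ≤ N) :
    es N A φ (fun i : ℤ => F (i : ZMod N)) i n ≤
      ∑ j : ZMod N, ((F (j + 1) - A * Real.cos (2 * Real.pi / N * (j + 1).val - φ)) -
        (F j - A * Real.cos (2 * Real.pi / N * j.val - φ))) ^ 2 := by
  classical
  set e : ZMod N → ℝ := fun j => ((F (j + 1) - A * Real.cos (2 * Real.pi / N * (j + 1).val - φ)) -
        (F j - A * Real.cos (2 * Real.pi / N * j.val - φ))) ^ 2 with he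
  have h1 : ∀ k : ℕ, en N A φ (fun i : ℤ => F (i : ZMod N)) (i + k) =
      e (((i + k : ℤ)) : ZMod N) := by
    intro k
    unfold en rm
    rw [md_val, md_val, he]
    push_cast
    rfl
  unfold es
  simp_rw [h1]
  have hinj : Set.InjOn (fun k : ℕ => (((i + k : ℤ)) : ZMod N)) (range n : Finset ℕ) := by
    intro a ha b hb hab
    rw [Finset.mem_coe, Finset.mem_range] at ha hb
    simp only at hab
    push_cast at hab
    have h2 : ((a : ℕ) : ZMod N) = (b : ℕ) := add_left_cancel hab
    have h3 := congrArg ZMod.val h2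
    rw [ZMod.val_natCast, ZMod.val_natCast, Nat.mod_eq_of_lt (by omega),
      Nat.mod_eq_of_lt (by omega)] at h3
    exact h3
  rw [← Finset.sum_image (s := range n) (g := fun k : ℕ => (((i + k : ℤ)) : ZMod N)) (f := e)
    hinj]
  exact Finset.sum_le_sum_of_subset_of_nonneg (Finset.subset_univ _) fun j _ _ => sq_nonneg _

/-- Main step. -/
theorem core {V : Type*} [Fintype V] [DecidableEq V] (G : SimpleGraph V) [DecidableRel G.Adj]
    (hG : G.Connected) {m : ℕ} (hm : G.edgeFinset.card = m) (hm2 : 2 ≤ m) (f : V → ℝ)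
    (hf0 : f ≠ 0) (hdeg : ∀ v, 0 < G.degree v) (hsum : ∑ v, (G.degree v : ℝ) * f v = 0) (ε : ℝ)
    (hε0 : 0 ≤ ε)
    (hE : (1 - ε) * ∑ u, ∑ v, (if G.Adj u v then (f u - f v) ^ 2 else 0) ≤
      (2 - 2 * Real.cos (Real.pi / m)) * ∑ v, (G.degree v : ℝ) * f v ^ 2) :
    ∃ x y : V, ((m : ℝ) - G.dist x y) ^ 3 ≤ 10 ^ 6 * ε * m ^ 3 := by
  classical
  have hne : Nonempty V := hG.nonempty
  obtain ⟨x, hx⟩ := Finite.exists_min f
  obtain ⟨y, hy⟩ := Finite.exists_max f
  refine ⟨x, y, ?_⟩
  by_contra hcon
  push Not at hcon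
  set D := G.dist x y with hD
  have hpi := Real.pi_pos
  have hmpos : (0 : ℝ) < m := by positivity
  have hDm : (0 : ℝ) < (m : ℝ) - D := by
    by_contra h
    push Not at h
    have h1 : ((m : ℝ) - D) ^ 3 ≤ 0 := by
      have : ((m : ℝ) - D) ^ 3 = ((m : ℝ) - D) ^ 2 * ((m : ℝ) - D) := by ring
      rw [this]
      exact mul_nonpos_of_nonneg_of_nonpos (sq_nonneg _) h
    have h2 : 0 ≤ 10 ^ 6 * ε * (m : ℝ) ^ 3 := by positivity
    linarith
  -- `f x < f y`
  have hxy : f x < f y := by
    rcases lt_or_ge (f x) (f y) with h | h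
    · exact h
    · exfalso
      have hc : ∀ v, f v = f x := fun v => le_antisymm ((hy v).trans h) (hx v)
      have h1 : ∑ v, (G.degree v : ℝ) * f v = (∑ v, (G.degree v : ℝ)) * f x := by
        rw [Finset.sum_mul]
        exact Finset.sum_congr rfl fun v _ => by rw [hc v]
      rw [h1] at hsum
      have h2 : 0 < ∑ v, (G.degree v : ℝ) :=
        Finset.sum_pos (fun v _ => by exact_mod_cast hdeg v) Finset.univ_nonempty
      have h3 : f x = 0 := by
        rcases mul_eq_zero.mp hsum with h | h
        · exact absurd h h2.ne'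
        · exact h
      exact hf0 (funext fun v => (hc v).trans h3)
  have hxne : x ≠ y := fun h => by rw [h] at hxy; exact lt_irrefl _ hxy
  -- the tour
  obtain ⟨Γ, hΓ⟩ := hG.exists_walk_length_eq_dist x y
  have hΓt : Γ.IsTrail := (Γ.isPath_of_length_eq_dist hΓ).isTrail
  obtain ⟨p₁, p₂, hnd, hall, hs1, hs2⟩ := exists_tour_path G hG Γ hΓt
  set p := p₁.append p₂ with hp
  have hpd : p.darts = p₁.darts ++ p₂.darts := SimpleGraph.Walk.darts_append _ _
  rw [← hpd] at hnd hall
  set N := 2 * m with hN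
  have hN4 : 4 ≤ N := by omega
  have hNe : NeZero N := ⟨by omega⟩
  have hcard : p.darts.length = N := by
    have h1 : p.darts.toFinset = Finset.univ := by
      ext d; simp [hall d]
    have h2 := List.toFinset_card_of_nodup hnd
    rw [h1, Finset.card_univ, G.dart_card_eq_twice_card_edges, hm] at h2
    exact h2.symm
  have hplen : p.length = N := by rw [← hcard, SimpleGraph.Walk.length_darts]
  have hlen12 : p₁.length + p₂.length = N := by
    rw [← hplen, hp, SimpleGraph.Walk.length_append]
  set K := p₁.length with hK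
  have hp1pos : 0 < K := by
    rcases Nat.eq_zero_or_pos K with h | h
    · exact absurd (SimpleGraph.Walk.eq_of_length_eq_zero h) hxne
    · exact h
  have hp2pos : 0 < p₂.length := by
    rcases Nat.eq_zero_or_pos p₂.length with h | h
    · exact absurd (SimpleGraph.Walk.eq_of_length_eq_zero h) hxne.symm
    · exact h
  have hNpos : (0 : ℝ) < N := by positivity
  have hNm : (N : ℝ) = 2 * m := by rw [hN]; push_cast; ring
  -- the function on the cycle
  set F : ZMod N → ℝ := fun j => f (p.getVert j.val) with hF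
  have hF0 : ∑ j, F j = 0 := by
    have h1 := Pool.Agent.H43.RelaxTime.sum_tour G p hnd hall hcard (fun u _ => f u)
    rw [Pool.Agent.H43.RelaxTime.sum_darts_fst G f] at h1
    rw [← hsum, ← h1]
  have hF2 : ∑ j, F j ^ 2 = ∑ v, (G.degree v : ℝ) * f v ^ 2 := by
    have h1 := Pool.Agent.H43.RelaxTime.sum_tour G p hnd hall hcard (fun u _ => f u ^ 2)
    rw [Pool.Agent.H43.RelaxTime.sum_darts_fst G (fun v => f v ^ 2)] at h1
    rw [← h1]
  have hFd : ∑ j, (F (j + 1) - F j) ^ 2 =
      ∑ u, ∑ v, (if G.Adj u v then (f u - f v) ^ 2 else 0) := by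
    rw [← Pool.Agent.H43.RelaxTime.sum_darts_pair G (fun u v => (f u - f v) ^ 2),
      ← Pool.Agent.H43.RelaxTime.sum_tour G p hnd hall hcard (fun u v => (f u - f v) ^ 2)]
    refine Finset.sum_congr rfl fun j _ => ?_
    rw [hF]; ring
  -- the small parameter
  set M : ℝ := 2 * ((m : ℝ) - D) with hM
  have hMpos : 0 < M := by linarith
  set r : ℝ := M / (100 * N) with hr
  have hrpos : 0 < r := by positivity
  have hrN : r * N = M / 100 := by rw [hr]; field_simp
  have hεr : ε < r ^ 3 := by
    have h1 : 10 ^ 6 * ε * (m : ℝ) ^ 3 < 10 ^ 6 * r ^ 3 * (m : ℝ) ^ 3 := by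
      calc 10 ^ 6 * ε * (m : ℝ) ^ 3 < ((m : ℝ) - D) ^ 3 := hcon
        _ = 10 ^ 6 * r ^ 3 * (m : ℝ) ^ 3 := by
            rw [hr, hM, hNm]; field_simp; ring
    have h2 : 0 < 10 ^ 6 * (m : ℝ) ^ 3 := by positivity
    nlinarith
  have hMN : M ≤ N := by
    rw [hM, hNm]
    have : (0 : ℝ) ≤ D := Nat.cast_nonneg _
    linarith
  have hr1 : r ≤ 1 / 100 := by
    rw [hr, div_le_div_iff₀ (by positivity) (by norm_num)]
    linarith
  have hε1 : ε ≤ 1 / 1000000 := by
    have : r ^ 3 ≤ (1 / 100) ^ 3 := pow_le_pow_left₀ hrpos.le hr1 3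
    norm_num at this
    linarith
  -- stability of the Wirtinger inequality
  have hcos : (2 * Real.pi / (N : ℝ)) = Real.pi / m := by
    rw [hNm]
    field_simp
  obtain ⟨A, φ, hA0, hstab⟩ := wirtinger_stab hN4 F hF0 ε hε0 (by linarith) (by
    rw [hFd, hF2, hcos]; exact hE)
  set θ := 2 * Real.pi / N with hθ
  have hθ0 : 0 < θ := by positivity
  have hθN : θ * N = 2 * Real.pi := by rw [hθ]; field_simp
  set H : ℝ := 2 * ε * θ ^ 2 * A ^ 2 * N with hH
  set g : ℤ → ℝ := fun i => F (i : ZMod N) with hg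
  have hHes : ∀ (i : ℤ) (n : ℕ), n ≤ N → es N A φ g i n ≤ H := fun i n hn =>
    (es_le_total A φ F i n hn).trans hstab
  have hH0 : 0 ≤ H := by positivity
  -- values of `g`
  have hgn : ∀ i : ℕ, i ≤ N → g i = f (p.getVert i) := by
    intro i hi
    rw [hg, hF]
    simp only
    rw [Int.cast_natCast, ZMod.val_natCast]
    rcases Nat.lt_or_ge i N with h | h
    · rw [Nat.mod_eq_of_lt h]
    · have h1 : i = N := le_antisymm hi h
      rw [h1, Nat.mod_self, SimpleGraph.Walk.getVert_zero]
      conv_rhs => rw [← hplen, SimpleGraph.Walk.getVert_length]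
  have hgper : ∀ i, g (i + N) = g i := by
    intro i
    rw [hg]
    simp
  have hpK : p.getVert K = y := by
    rw [hp, SimpleGraph.Walk.getVert_append, if_neg (by omega), hK, Nat.sub_self,
      SimpleGraph.Walk.getVert_zero]
  have hgK : g (K : ℤ) = f y := by rw [hgn K (by omega), hpK]
  have hg0 : g 0 = f x := by
    have := hgn 0 (Nat.zero_le _)
    rw [SimpleGraph.Walk.getVert_zero] at this
    exact_mod_cast this
  have hgmax : ∀ j, g j ≤ g (K : ℤ) := by
    intro j; rw [hgK]; exact hy _
  have hgmin : ∀ j, g 0 ≤ g j := by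
    intro j; rw [hg0]; exact hx _
  -- `A > 0`
  have hApos : 0 < A := by
    rcases eq_or_lt_of_le hA0 with h | h
    · exfalso
      have h1 := rm_sq N A φ g 0 K
      have h2 := hHes 0 K (by omega)
      have h3 : H = 0 := by rw [hH, ← h]; ring
      rw [h3] at h2
      have h4 : rm N A φ g (0 + K) - rm N A φ g 0 = f y - f x := by
        unfold rm md
        rw [← h, zero_add, hgK, hg0]; ring
      rw [h4] at h1
      have h5 : (K : ℝ) * es N A φ g 0 K ≤ 0 := mul_nonpos_of_nonneg_of_nonpos (Nat.cast_nonneg _) h2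
      nlinarith
    · exact h
  -- closed pieces
  have hadj : ∀ i, i < N → p.getVert i ≠ p.getVert (i + 1) := by
    intro i hi h
    have := p.adj_getVert_succ (i := i) (by omega)
    exact this.ne h
  have hpiece : ∀ a b : ℕ, a < b → b ≤ N → (b ≤ K ∨ K ≤ a) → p.getVert a = p.getVert b →
      2 ≤ b - a ∧ 4 * (b - a) ≤ 3 * N ∧ g ((a : ℤ) + ((b - a : ℕ) : ℤ)) = g a ∧
      (∀ k : ℤ, ¬ ((a : ℤ) < K + k * N ∧ (K : ℤ) + k * N < a + ((b - a : ℕ) : ℤ))) ∧
      (∀ k : ℤ, ¬ ((a : ℤ) < 0 + k * N ∧ (0 : ℤ) + k * N < a + ((b - a : ℕ) : ℤ))) := by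
    intro a b hab hbN hside hloop
    have e0 : (a : ℤ) + ((b - a : ℕ) : ℤ) = b := by omega
    have e1 : 2 ≤ b - a := by
      by_contra hlt
      have : b = a + 1 := by omega
      rw [this] at hloop
      exact hadj a (by omega) hloop
    refine ⟨e1, ?_, ?_, ?_, ?_⟩
    · by_contra hlong
      push Not at hlong
      rcases Nat.lt_or_ge N 6 with h6 | h6
      · -- N = 4
        have : N = 4 := by omega
        omega
      · have hsmall : A ^ 2 / (40 * N) ≤ H := by
          rcases hside with h | h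
          · refine osc h6 hA0 hHes (P := K) (Q := N) hgmax ?_ ?_
            · intro j
              have : g (N : ℤ) = g 0 := by
                have := hgper 0
                rwa [zero_add] at this
              rw [this]; exact hgmin j
            · have : |(K : ℤ) - N| = N - K := by
                rw [abs_of_nonpos (by omega)]; ring
              rw [this]
              omega
          · refine osc h6 hA0 hHes (P := K) (Q := 0) hgmax hgmin ?_
            have : |(K : ℤ) - 0| = K := by
              rw [sub_zero, abs_of_nonneg (by omega)]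
            rw [this]
            omega
        have hN6 : (6 : ℝ) ≤ N := by exact_mod_cast h6
        have e2 : A ^ 2 ≤ 80 * ε * (θ * N) ^ 2 * A ^ 2 := by
          rw [div_le_iff₀ (by positivity)] at hsmall
          calc A ^ 2 ≤ H * (40 * N) := hsmall
            _ = 80 * ε * (θ * N) ^ 2 * A ^ 2 := by rw [hH]; ring
        rw [hθN] at e2
        have e3 : 80 * ε * (2 * Real.pi) ^ 2 < 1 := by
          have hpi2 := Real.pi_lt_d2
          have e4 : (2 * Real.pi) ^ 2 ≤ 40 := by nlinarith
          calc 80 * ε * (2 * Real.pi) ^ 2 ≤ 80 * (1 / 1000000) * 40 := by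
                apply mul_le_mul _ e4 (by positivity) (by positivity)
                linarith
            _ < 1 := by norm_num
        have e5 : 0 < A ^ 2 := by positivity
        nlinarith
    · rw [e0, hgn b hbN, hgn a (by omega), hloop]
    · intro k
      rw [e0]
      rintro ⟨h1, h2⟩
      have hNz : (0 : ℤ) < N := by omega
      rcases lt_trichotomy k 0 with hk | hk | hk
      · have : k * N ≤ -1 * N := mul_le_mul_of_nonneg_right (by omega) hNz.le
        omega
      · rw [hk] at h1 h2
        omega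
      · have : 1 * (N : ℤ) ≤ k * N := mul_le_mul_of_nonneg_right (by omega) hNz.le
        omega
    · intro k
      rw [e0]
      rintro ⟨h1, h2⟩
      have hNz : (0 : ℤ) < N := by omega
      rcases le_or_gt k 0 with hk | hk
      · have : k * (N : ℤ) ≤ 0 * N := mul_le_mul_of_nonneg_right hk hNz.le
        omega
      · have : 1 * (N : ℤ) ≤ k * N := mul_le_mul_of_nonneg_right (by omega) hNz.le
        omega
  -- from weights to lengths
  have hDp : (D : ℝ) = Γ.length := by rw [hΓ]
  have hfinal : ∀ c : ℕ → ℝ, (∀ k, 0 ≤ c k) →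
      (∀ a b : ℕ, a < b → b ≤ N → (b ≤ K ∨ K ≤ a) → p.getVert a = p.getVert b →
        ((b - a : ℕ) : ℝ) ≤ ∑ k ∈ Finset.range (b - a), c (a + k)) →
      M ≤ ∑ k ∈ Finset.range N, c k := by
    intro c hc0 hc
    have h1 := sublist_bound G p₁ Γ hs1 c hc0 (by
      intro i j hij hj hloop
      rw [Finset.sum_Ico_eq_sum_range]
      apply hc i j hij (by omega) (Or.inl (by omega))
      rw [hp, SimpleGraph.Walk.getVert_append', SimpleGraph.Walk.getVert_append',
        if_pos (by omega), if_pos (by omega)]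
      exact hloop)
    have h2 := sublist_bound G p₂ Γ.reverse hs2 (fun k => c (K + k)) (fun k => hc0 _) (by
      intro i j hij hj hloop
      rw [Finset.sum_Ico_eq_sum_range]
      have e1 := hc (K + i) (K + j) (by omega) (by omega) (Or.inr (by omega)) (by
        rw [hp, SimpleGraph.Walk.getVert_append, SimpleGraph.Walk.getVert_append,
          if_neg (by omega), if_neg (by omega)]
        have e2 : K + i - p₁.length = i := by omega
        have e3 : K + j - p₁.length = j := by omega
        rw [e2, e3]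
        exact hloop)
      have e4 : K + j - (K + i) = j - i := by omega
      rw [e4] at e1
      refine e1.trans (le_of_eq ?_)
      refine Finset.sum_congr rfl fun k _ => ?_
      congr 1
      omega)
    rw [SimpleGraph.Walk.length_reverse] at h2
    have h3 : ∑ k ∈ Finset.range N, c k = ∑ k ∈ Finset.range K, c k +
        ∑ k ∈ Finset.range p₂.length, c (K + k) := by
      rw [← hlen12, Finset.sum_range_add]
    have h4 : (p₁.length : ℝ) + p₂.length = N := by exact_mod_cast hlen12
    rw [h3]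
    have h5 : M = N - 2 * Γ.length := by rw [hM, hNm, hDp]; ring
    rw [h5]
    linarith
  -- no closed pieces for a tiny remainder
  have hbig : A ^ 2 * θ ^ 4 / 500 ≤ H := by
    by_contra hlt
    push Not at hlt
    have h1 := hfinal (fun _ => 0) (fun _ => le_rfl) (by
      intro a b hab hbN hside hloop
      exfalso
      obtain ⟨e1, e2, e3, e4, e5⟩ := hpiece a b hab hbN hside hloop
      have := loop_none (by omega) hA0 hHes hgmax hgmin hgper e1 e2 e3 e4 e5
      linarith)
    simp at h1
    linarith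
  have hpi3 := Real.pi_gt_three
  have hpi2 := Real.pi_lt_d2
  have hM20 : 20 ≤ M := by
    have e1 : θ ^ 2 ≤ 1000 * ε * N := by
      have e2 : 0 < A ^ 2 * θ ^ 2 := by positivity
      have e3 : A ^ 2 * θ ^ 2 * θ ^ 2 ≤ A ^ 2 * θ ^ 2 * (1000 * ε * N) := by
        have : A ^ 2 * θ ^ 4 ≤ 500 * H := by linarith
        calc A ^ 2 * θ ^ 2 * θ ^ 2 = A ^ 2 * θ ^ 4 := by ring
          _ ≤ 500 * H := this
          _ = A ^ 2 * θ ^ 2 * (1000 * ε * N) := by rw [hH]; ring
      exact le_of_mul_le_mul_left e3 e2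
    have e4 : (2 * Real.pi) ^ 2 ≤ 1000 * (r * N) ^ 3 := by
      calc (2 * Real.pi) ^ 2 = θ ^ 2 * N ^ 2 := by rw [← hθN]; ring
        _ ≤ 1000 * ε * N * N ^ 2 := mul_le_mul_of_nonneg_right e1 (by positivity)
        _ ≤ 1000 * r ^ 3 * N * N ^ 2 := by
            apply mul_le_mul_of_nonneg_right _ (by positivity)
            apply mul_le_mul_of_nonneg_right _ hNpos.le
            linarith
        _ = 1000 * (r * N) ^ 3 := by ring
    rw [hrN] at e4
    by_contra hlt
    push Not at hlt
    have e5 : (M / 100) ^ 3 ≤ (1 / 5) ^ 3 := pow_le_pow_left₀ (by positivity) (by linarith) 3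
    nlinarith
  -- counting
  have hκH : 125 / 27 * (1300 / 9) * H < (22 * r) ^ 3 * A ^ 2 * (2 * Real.pi / N) := by
    rw [← hθ]
    have e1 : 125 / 27 * (1300 / 9) * H =
        (125 / 27 * (1300 / 9) * 2 * (2 * Real.pi)) * (A ^ 2 * θ) * ε := by
      rw [hH, ← hθN]; ring
    have e2 : (22 * r) ^ 3 * A ^ 2 * θ = 10648 * (A ^ 2 * θ) * r ^ 3 := by ring
    rw [e1, e2]
    have e3 : 125 / 27 * (1300 / 9) * 2 * (2 * Real.pi) ≤ 10648 := by nlinarith
    have e4 : 0 < A ^ 2 * θ := by positivity
    calc (125 / 27 * (1300 / 9) * 2 * (2 * Real.pi)) * (A ^ 2 * θ) * ε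
        ≤ 10648 * (A ^ 2 * θ) * ε := by
          apply mul_le_mul_of_nonneg_right _ hε0
          exact mul_le_mul_of_nonneg_right e3 e4.le
      _ < 10648 * (A ^ 2 * θ) * r ^ 3 := by
          apply mul_lt_mul_of_pos_left hεr (by positivity)
  have hcount := hfinal (fun k => wt N A φ (22 * r) g k) (fun k => wt_nonneg _ _ _ _ _ _) (by
    intro a b hab hbN hside hloop
    obtain ⟨e1, e2, e3, e4, e5⟩ := hpiece a b hab hbN hside hloop
    have := loop_count (by omega) hApos (by positivity) hHes hκH hgmax hgmin hgper e1 e2 e3 e4 e5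
    refine this.trans (le_of_eq ?_)
    refine Finset.sum_congr rfl fun k _ => ?_
    push_cast
    rfl)
  have hsumwt : ∑ k ∈ Finset.range N, wt N A φ (22 * r) g k ≤
      (2 * (22 * r) * N + 4) + 625 * Real.pi ^ 2 / 4 / ((22 * r) ^ 2 * A ^ 2 * θ ^ 2) * H := by
    unfold wt
    rw [Finset.sum_add_distrib, ← Finset.mul_sum]
    apply add_le_add
    · rw [Finset.sum_boole]
      exact near_count (by omega) (by positivity)
    · apply mul_le_mul_of_nonneg_left _ (by positivity)
      have := hHes 0 N le_rfl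
      unfold es at this
      simpa using this
  have hterm : 625 * Real.pi ^ 2 / 4 / ((22 * r) ^ 2 * A ^ 2 * θ ^ 2) * H ≤ 7 * (r * N) := by
    have e1 : 625 * Real.pi ^ 2 / 4 / ((22 * r) ^ 2 * A ^ 2 * θ ^ 2) * H =
        625 * Real.pi ^ 2 / 968 * (ε / r ^ 3) * (r * N) := by
      rw [hH]; field_simp; ring
    rw [e1]
    apply mul_le_mul_of_nonneg_right _ (by positivity)
    have e2 : ε / r ^ 3 ≤ 1 := by
      rw [div_le_one (by positivity)]; exact hεr.le
    have e3 : 625 * Real.pi ^ 2 / 968 ≤ 7 := by nlinarith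
    calc 625 * Real.pi ^ 2 / 968 * (ε / r ^ 3) ≤ 7 * 1 :=
          mul_le_mul e3 e2 (by positivity) (by norm_num)
      _ = 7 := by norm_num
  have h7 : M ≤ 44 * (r * N) + 4 + 7 * (r * N) := by
    have e1 : 2 * (22 * r) * (N : ℝ) = 44 * (r * N) := by ring
    rw [e1] at hsumwt
    linarith
  rw [hrN] at h7
  linarith

end Pool.Agent.H43.Stab
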