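import Mathlib
import Pool.Agent.Results.MP_ea35a0_co.ExactMax
import Pool.Agent.H43.Stab.Core

set_option autoImplicit false

namespace Pool.Agent.H43.Stab

open Finset
open Pool.Agent.Results.MP_ea35a0_co.ExactMax

theorem ediam_ne_top' {n : ℕ} (G : SimpleGraph (Fin n)) (hG : G.Connected) : G.ediam ≠ ⊤ := by
  haveI := hG.nonempty
  exact SimpleGraph.connected_iff_ediam_ne_top.mp hG

/-- Sum of `deg * f` vanishes for an eigenfunction with eigenvalue `≠ 1`. -/
theorem sum_deg_zero {n : ℕ} (G : SimpleGraph (Fin n)) [DecidableRel G.Adj] {μ : ℝ} (hne : μ ≠ 1)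
    (f : Fin n → ℝ)
    (hf : ∀ v, ∑ u, (if G.Adj v u then f u else 0) = μ * (G.degree v : ℝ) * f v) :
    ∑ v, (G.degree v : ℝ) * f v = 0 := by
  have h1 : ∑ v, ∑ u, (if G.Adj v u then f u else 0) = ∑ v, (G.degree v : ℝ) * f v := by
    rw [Finset.sum_comm]
    refine Finset.sum_congr rfl fun u _ => ?_
    rw [← G.card_neighborFinset_eq_degree, SimpleGraph.neighborFinset_eq_filter,
      ← Finset.sum_filter, Finset.sum_const, nsmul_eq_mul]
    simp only [G.adj_comm u]
  have h2 : ∑ v, ∑ u, (if G.Adj v u then f u else 0) = μ * ∑ v, (G.degree v : ℝ) * f v := by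
    rw [Finset.mul_sum]
    refine Finset.sum_congr rfl fun v _ => ?_
    rw [hf v]; ring
  rw [h1] at h2
  have h3 : (1 - μ) * ∑ v, (G.degree v : ℝ) * f v = 0 := by linarith
  rcases mul_eq_zero.mp h3 with h | h
  · exact absurd (by linarith) hne
  · exact h

theorem eig_stab {n m : ℕ} (G : SimpleGraph (Fin n)) (hG : G.Connected)
    (hm : G.edgeSet.ncard = m) (hm2 : 2 ≤ m) {μ : ℝ} (hμ : IsEig G μ) (hne : μ ≠ 1) :
    (((m : ℝ) - G.diam) / m) ^ 3 ≤ 10 ^ 6 * (1 - (1 - Real.cos (Real.pi / m)) / (1 - μ)) := by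
  classical
  have hm1 : 1 ≤ m := by omega
  have hle := eig_le G hG hm hm1 hμ hne
  have hcos := one_sub_cos_pos m hm1
  obtain ⟨f, hf0, hf⟩ := hμ
  have hdp := degree_pos G hG hm hm1
  rw [eig_iff G (by intro v; convert hdp v) μ f] at hf
  have hcard : G.edgeFinset.card = m := by
    rw [← hm, Set.ncard_eq_toFinset_card']
    rfl
  have hf' : ∀ v, ∑ u, (if G.Adj v u then f u else 0) = μ * (G.degree v : ℝ) * f v := by
    intro v
    have := hf v
    convert this
  have hD := dirichlet_eig G μ f (by intro v; convert hf v)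
  have hsum0 := sum_deg_zero G hne f hf'
  have hD' : (1 / 2 : ℝ) * ∑ u, ∑ v, (if G.Adj u v then (f u - f v) ^ 2 else 0) =
      (1 - μ) * ∑ v, (G.degree v : ℝ) * f v ^ 2 := by
    convert hD
  have h1μ : 0 < 1 - μ := by linarith
  obtain ⟨x, y, hxy⟩ := core G hG hcard hm2 f hf0 hdp hsum0
    (1 - (1 - Real.cos (Real.pi / m)) / (1 - μ))
    (by
      rw [sub_nonneg, div_le_one h1μ]
      linarith)
    (by
      have e1 : ∑ u, ∑ v, (if G.Adj u v then (f u - f v) ^ 2 else 0) =
          2 * ((1 - μ) * ∑ v, (G.degree v : ℝ) * f v ^ 2) := by rw [← hD']; ring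
      rw [e1]
      apply le_of_eq
      field_simp
      ring)
  have hdist : G.dist x y ≤ G.diam := SimpleGraph.dist_le_diam (ediam_ne_top' G hG)
  have hmp : (0 : ℝ) < m := by positivity
  have hdist' : (G.dist x y : ℝ) ≤ G.diam := by exact_mod_cast hdist
  have h2 : ((m : ℝ) - G.diam) ^ 3 ≤ ((m : ℝ) - G.dist x y) ^ 3 := by
    apply Odd.strictMono_pow (by decide : Odd 3) |>.monotone
    linarith
  rw [div_pow, div_le_iff₀ (by positivity)]
  linarith

/-- A connected graph with `m ≥ 1` edges has positive diameter. -/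
theorem one_le_diam {n m : ℕ} (G : SimpleGraph (Fin n)) (hG : G.Connected)
    (hm : G.edgeSet.ncard = m) (hm1 : 1 ≤ m) : 1 ≤ G.diam := by
  classical
  have hdp := degree_pos G hG hm hm1
  obtain ⟨v⟩ := hG.nonempty
  have h1 := hdp v
  rw [G.degree_pos_iff_exists_adj] at h1
  obtain ⟨w, hw⟩ := h1
  have h2 : G.dist v w = 1 := SimpleGraph.dist_eq_one_iff_adj.mpr hw
  rw [← h2]
  exact SimpleGraph.dist_le_diam (ediam_ne_top' G hG)

/-- Upper bound for the relaxation time with a cubic gain in the deficiency of the diameter. -/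
theorem relTime_upper {n m : ℕ} (G : SimpleGraph (Fin n)) (hG : G.Connected)
    (hm : G.edgeSet.ncard = m) (hm1 : 1 ≤ m) :
    relTime G ≤ (1 - (((m : ℝ) - G.diam) / m) ^ 3 / 10 ^ 6) *
      (1 / (1 - Real.cos (Real.pi / m))) := by
  have hcos := one_sub_cos_pos m hm1
  have hmp : (0 : ℝ) < m := by positivity
  have hδ1 : ((m : ℝ) - G.diam) / m ≤ 1 := by
    rw [div_le_one hmp]
    have : (0 : ℝ) ≤ G.diam := by positivity
    linarith
  have hδ3 : (((m : ℝ) - G.diam) / m) ^ 3 ≤ 1 := by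
    have : (((m : ℝ) - G.diam) / m) ^ 3 ≤ 1 ^ 3 := by
      apply Odd.strictMono_pow (by decide : Odd 3) |>.monotone
      exact hδ1
    simpa using this
  rcases Nat.lt_or_ge 1 m with h2 | h2
  · apply Real.sSup_le
    · rintro t ⟨μ, hne, hμ, rfl⟩
      have h1 := eig_stab G hG hm h2 hμ hne
      have hle := eig_le G hG hm hm1 hμ hne
      have h1μ : 0 < 1 - μ := by linarith
      have h3 : (1 - Real.cos (Real.pi / m)) / (1 - μ) ≤
          1 - (((m : ℝ) - G.diam) / m) ^ 3 / 10 ^ 6 := by linarith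
      rw [mul_one_div, le_div_iff₀ hcos]
      calc 1 / (1 - μ) * (1 - Real.cos (Real.pi / m)) =
          (1 - Real.cos (Real.pi / m)) / (1 - μ) := by ring
        _ ≤ _ := h3
    · apply mul_nonneg
      · linarith
      · positivity
  · have hm' : m = 1 := by omega
    have h4 := relTime_le G hG hm hm1
    have h5 := one_le_diam G hG hm hm1
    have h6 : (((m : ℝ) - G.diam) / m) ^ 3 ≤ 0 := by
      subst hm'
      have h7 : (1 : ℝ) ≤ G.diam := by exact_mod_cast h5
      have h8 : (((1 : ℕ) : ℝ) - G.diam) / ((1 : ℕ) : ℝ) ≤ 0 := by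
        push_cast
        linarith
      have h9 : ((((1 : ℕ) : ℝ) - G.diam) / ((1 : ℕ) : ℝ)) ^ 3 ≤ 0 ^ 3 := by
        apply Odd.strictMono_pow (by decide : Odd 3) |>.monotone
        exact h8
      simpa using h9
    have h7 : 0 < 1 / (1 - Real.cos (Real.pi / m)) := by positivity
    refine h4.trans ?_
    nlinarith

end Pool.Agent.H43.Stab
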