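import Mathlib
import Pool.Agent.Results.MP_ea35a0_co.ExactMax
import Pool.Agent.H43.Stab.Upper

set_option autoImplicit false

namespace Pool.Agent.H43.Stab

open Finset
open Pool.Agent.Results.MP_ea35a0_co.ExactMax

/-- The relaxation time bounds every `1/(1-μ)`. -/
theorem le_relTime {n m : ℕ} (G : SimpleGraph (Fin n)) (hG : G.Connected)
    (hm : G.edgeSet.ncard = m) (hm1 : 1 ≤ m) {μ : ℝ} (hμ : IsEig G μ) (hne : μ ≠ 1) :
    1 / (1 - μ) ≤ relTime G := by
  have hcos := one_sub_cos_pos m hm1
  apply le_csSup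
  · refine ⟨1 / (1 - Real.cos (Real.pi / m)), ?_⟩
    rintro t ⟨ν, hne', hν, rfl⟩
    have := eig_le _ hG hm hm1 hν hne'
    exact one_div_le_one_div_of_le hcos (by linarith)
  · exact ⟨μ, hne, hμ, rfl⟩

/-- A function with vanishing Dirichlet form on a connected graph is constant. -/
theorem const_of_adj {n : ℕ} (G : SimpleGraph (Fin n)) (hG : G.Connected) (f : Fin n → ℝ)
    (h : ∀ u v, G.Adj u v → f u = f v) (u v : Fin n) : f u = f v := by
  obtain ⟨w⟩ := hG.preconnected u v
  induction w with
  | nil => rfl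
  | cons h1 _ ih => exact (h _ _ h1).trans ih

open Classical in
/-- Poincaré inequality with the constant `relTime G`. -/
theorem poincare_relTime {n m : ℕ} (G : SimpleGraph (Fin n)) (hG : G.Connected)
    (hm : G.edgeSet.ncard = m) (hm1 : 1 ≤ m) (g : Fin n → ℝ)
    (hg : ∑ v, (G.degree v : ℝ) * g v = 0) :
    ∑ v, (G.degree v : ℝ) * g v ^ 2 ≤
      relTime G * ((1 / 2) * ∑ u, ∑ v, (if G.Adj u v then (g u - g v) ^ 2 else 0)) := by
  have hdp := degree_pos G hG hm hm1
  set s : Fin n → ℝ := fun v => Real.sqrt (G.degree v) with hs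
  have hs0 : ∀ v, 0 < s v := fun v => Real.sqrt_pos.mpr (by exact_mod_cast hdp v)
  have hs2 : ∀ v, s v * s v = G.degree v := fun v => Real.mul_self_sqrt (by positivity)
  set A : Matrix (Fin n) (Fin n) ℝ := fun u v => if G.Adj u v then 1 / (s u * s v) else 0 with hA
  have hAH : A.IsHermitian := by
    apply Matrix.IsHermitian.ext
    intro i j
    simp only [hA, star_trivial, G.adj_comm i j, mul_comm (s i) (s j)]
  set b : Fin n → Fin n → ℝ := fun i v => hAH.eigenvectorBasis i v with hb
  set lam : Fin n → ℝ := hAH.eigenvalues with hlam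
  have hbe : ∀ i v, ∑ u, A v u * b i u = lam i * b i v := by
    intro i v
    have h1 := congrFun (hAH.mulVec_eigenvectorBasis i) v
    simpa [Matrix.mulVec, dotProduct] using h1
  -- expansion in the orthonormal basis
  have hexp : ∀ x y : Fin n → ℝ, ∑ v, x v * y v =
      ∑ i, (∑ v, b i v * x v) * (∑ v, b i v * y v) := by
    intro x y
    have h1 := hAH.eigenvectorBasis.sum_inner_mul_inner (WithLp.toLp 2 x) (WithLp.toLp 2 y)
    simp only [PiLp.inner_apply, RCLike.inner_apply, conj_trivial] at h1
    calc ∑ v, x v * y v = ∑ v, y v * x v := Finset.sum_congr rfl fun v _ => mul_comm _ _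
      _ = _ := h1.symm
      _ = _ := by
        refine Finset.sum_congr rfl fun i _ => ?_
        congr 1
        refine Finset.sum_congr rfl fun v _ => ?_
        exact mul_comm _ _
  set h : Fin n → ℝ := fun v => s v * g v with hh
  set a : Fin n → ℝ := fun i => ∑ v, b i v * h v with ha
  have hnorm : ∑ v, (G.degree v : ℝ) * g v ^ 2 = ∑ i, a i ^ 2 := by
    have h1 := hexp h h
    have h2 : ∑ v, h v * h v = ∑ v, (G.degree v : ℝ) * g v ^ 2 := by
      refine Finset.sum_congr rfl fun v _ => ?_
      rw [← hs2 v, hh]; ring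
    rw [← h2, h1]
    refine Finset.sum_congr rfl fun i _ => ?_
    rw [ha]; ring
  have hcross : ∑ u, g u * ∑ v, (if G.Adj u v then g v else 0) = ∑ i, lam i * a i ^ 2 := by
    have h1 := hexp h (fun v => ∑ u, A v u * h u)
    have h2 : ∑ v, h v * (∑ u, A v u * h u) = ∑ u, g u * ∑ v, (if G.Adj u v then g v else 0) := by
      refine Finset.sum_congr rfl fun v _ => ?_
      rw [Finset.mul_sum, Finset.mul_sum]
      refine Finset.sum_congr rfl fun u _ => ?_
      simp only [hA, hh]
      split_ifs
      · have := (hs0 v).ne'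
        have := (hs0 u).ne'
        field_simp
      · ring
    rw [← h2, h1]
    refine Finset.sum_congr rfl fun i _ => ?_
    have h3 : ∑ v, b i v * (∑ u, A v u * h u) = lam i * a i := by
      have h4 : ∑ v, b i v * (∑ u, A v u * h u) = ∑ u, (∑ v, A u v * b i v) * h u := by
        simp_rw [Finset.mul_sum, Finset.sum_mul]
        rw [Finset.sum_comm]
        refine Finset.sum_congr rfl fun u _ => Finset.sum_congr rfl fun v _ => ?_
        have h5 : A v u = A u v := by
          simp only [hA, G.adj_comm v u, mul_comm (s v) (s u)]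
        rw [h5]; ring
      rw [h4, ha, Finset.mul_sum]
      refine Finset.sum_congr rfl fun u _ => ?_
      rw [hbe]; ring
    rw [h3, ha]; ring
  have hdeg : ∀ v : Fin n, (G.degree v : ℝ) = ∑ u, (if G.Adj v u then (1 : ℝ) else 0) :=
    fun v => degree_real G v
  have henergy : (1 / 2 : ℝ) * ∑ u, ∑ v, (if G.Adj u v then (g u - g v) ^ 2 else 0) =
      ∑ i, (1 - lam i) * a i ^ 2 := by
    have h1 : ∑ u, ∑ v, (if G.Adj u v then (g u - g v) ^ 2 else 0) =
        ∑ u, ∑ v, (if G.Adj u v then g u ^ 2 else 0) + ∑ u, ∑ v, (if G.Adj u v then g v ^ 2 else 0)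
          - 2 * ∑ u, g u * ∑ v, (if G.Adj u v then g v else 0) := by
      rw [Finset.mul_sum, ← Finset.sum_add_distrib, ← Finset.sum_sub_distrib]
      refine Finset.sum_congr rfl fun u _ => ?_
      rw [← mul_assoc, Finset.mul_sum, ← Finset.sum_add_distrib, ← Finset.sum_sub_distrib]
      refine Finset.sum_congr rfl fun v _ => ?_
      split_ifs <;> ring
    have h2 : ∑ u, ∑ v, (if G.Adj u v then g u ^ 2 else 0) = ∑ v, (G.degree v : ℝ) * g v ^ 2 := by
      refine Finset.sum_congr rfl fun u _ => ?_
      rw [hdeg, Finset.sum_mul]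
      refine Finset.sum_congr rfl fun v _ => ?_
      split_ifs <;> ring
    have h3 : ∑ u, ∑ v, (if G.Adj u v then g v ^ 2 else 0) = ∑ v, (G.degree v : ℝ) * g v ^ 2 := by
      rw [Finset.sum_comm, ← h2]
      refine Finset.sum_congr rfl fun u _ => Finset.sum_congr rfl fun v _ => ?_
      simp only [G.adj_comm v u]
    rw [h1, h2, h3, hcross, hnorm]
    have h4 : ∑ i, (1 - lam i) * a i ^ 2 = ∑ i, a i ^ 2 - ∑ i, lam i * a i ^ 2 := by
      rw [← Finset.sum_sub_distrib]
      refine Finset.sum_congr rfl fun i _ => ?_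
      ring
    rw [h4]; ring
  rw [henergy, hnorm, Finset.mul_sum]
  refine Finset.sum_le_sum fun i _ => ?_
  -- the eigenfunction
  set f : Fin n → ℝ := fun v => b i v / s v with hf
  have hfeq : ∀ v, ∑ u, (if G.Adj v u then f u else 0) = lam i * (G.degree v : ℝ) * f v := by
    intro v
    have h1 := hbe i v
    have hv := (hs0 v).ne'
    have h2 : ∑ u, (if G.Adj v u then f u else 0) = s v * ∑ u, A v u * b i u := by
      rw [Finset.mul_sum]
      refine Finset.sum_congr rfl fun u _ => ?_
      have hu := (hs0 u).ne'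
      simp only [hA, hf]
      split_ifs
      · field_simp
      · ring
    rw [h2, h1, ← hs2 v, hf]
    field_simp
  by_cases hl : lam i = 1
  · -- constant eigenfunction
    have h1 := dirichlet_eig G (lam i) f hfeq
    rw [hl] at h1
    have h2 : ∀ u v, G.Adj u v → f u = f v := by
      intro u v huv
      have h3 : ∑ u, ∑ v, (if G.Adj u v then (f u - f v) ^ 2 else 0) = 0 := by linarith
      rw [Finset.sum_eq_zero_iff_of_nonneg (fun u _ => Finset.sum_nonneg fun v _ => by
        split_ifs <;> positivity)] at h3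
      have h4 := h3 u (Finset.mem_univ _)
      rw [Finset.sum_eq_zero_iff_of_nonneg (fun v _ => by split_ifs <;> positivity)] at h4
      have h5 := h4 v (Finset.mem_univ _)
      rw [if_pos huv] at h5
      have h6 : f u - f v = 0 := by
        rcases pow_eq_zero_iff (two_ne_zero) |>.mp h5 with h7
        exact h7
      linarith
    have h3 := const_of_adj G hG f h2
    have ha0 : a i = 0 := by
      obtain ⟨v₀⟩ := hG.nonempty
      have h4 : a i = f v₀ * ∑ v, (G.degree v : ℝ) * g v := by
        rw [ha, Finset.mul_sum]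
        refine Finset.sum_congr rfl fun v _ => ?_
        have h5 : b i v = f v₀ * s v := by
          rw [h3 v₀ v, hf]
          have := (hs0 v).ne'
          field_simp
        rw [h5, ← hs2 v, hh]; ring
      rw [h4, hg, mul_zero]
    rw [ha0, hl]; simp
  · have hfne : f ≠ 0 := by
      intro h0
      have h1 : hAH.eigenvectorBasis i ≠ 0 := by
        have := hAH.eigenvectorBasis.orthonormal.ne_zero i
        exact this
      apply h1
      ext v
      have h2 : f v = 0 := by rw [h0]; rfl
      have h3 : b i v / s v = 0 := h2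
      rw [div_eq_zero_iff] at h3
      rcases h3 with h3 | h3
      · exact h3
      · exact absurd h3 (hs0 v).ne'
    have hE : IsEig G (lam i) := by
      refine ⟨f, hfne, ?_⟩
      rw [eig_iff G (by intro v; convert hdp v)]
      exact hfeq
    have h1 := le_relTime G hG hm hm1 hE hl
    have h2 := eig_le G hG hm hm1 hE hl
    have h3 := one_sub_cos_pos m hm1
    have h4 : 0 < 1 - lam i := by linarith
    rw [div_le_iff₀ h4] at h1
    calc a i ^ 2 = 1 * a i ^ 2 := (one_mul _).symm
      _ ≤ (relTime G * (1 - lam i)) * a i ^ 2 := mul_le_mul_of_nonneg_right h1 (by positivity)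
      _ = _ := by ring

end Pool.Agent.H43.Stab
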