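import Mathlib
import Pool.Agent.Results.MP_ea35a0_co.ExactMax
import Pool.Agent.H43.Stab.Spec

set_option autoImplicit false

namespace Pool.Agent.H43.Stab

open Finset
open Pool.Agent.Results.MP_ea35a0_co.ExactMax

/-! ### Trigonometric facts -/

theorem cos_step_sq (θ : ℝ) (a : ℕ) :
    (Real.cos (θ * a) - Real.cos (θ * (a + 1 : ℕ))) ^ 2 ≤ 2 * (1 - Real.cos θ) := by
  have h1 : Real.cos (θ * a) - Real.cos (θ * (a + 1 : ℕ)) =
      2 * Real.sin (θ * a + θ / 2) * Real.sin (θ / 2) := by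
    have e1 : θ * (a : ℝ) = (θ * a + θ / 2) - θ / 2 := by ring
    have e2 : θ * ((a + 1 : ℕ) : ℝ) = (θ * a + θ / 2) + θ / 2 := by push_cast; ring
    rw [e2, Real.cos_add]
    nth_rewrite 1 [e1]
    rw [Real.cos_sub]
    ring
  have h2 : Real.cos θ = 1 - 2 * Real.sin (θ / 2) ^ 2 := by
    have h3 : Real.cos θ = Real.cos (2 * (θ / 2)) := by ring_nf
    rw [h3, Real.cos_two_mul]
    have := Real.sin_sq_add_cos_sq (θ / 2)
    linarith
  rw [h1, h2]
  have h4 : Real.sin (θ * a + θ / 2) ^ 2 ≤ 1 := Real.sin_sq_le_one _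
  have h5 : 0 ≤ Real.sin (θ / 2) ^ 2 := sq_nonneg _
  nlinarith

theorem cos_step_sq' (θ : ℝ) {a b : ℕ} (h1 : a ≤ b + 1) (h2 : b ≤ a + 1) :
    (Real.cos (θ * a) - Real.cos (θ * b)) ^ 2 ≤ 2 * (1 - Real.cos θ) := by
  rcases Nat.lt_trichotomy a b with h | h | h
  · have : b = a + 1 := by omega
    rw [this]
    exact cos_step_sq θ a
  · rw [h, sub_self]
    have := Real.cos_le_one θ
    simp only [ne_eq, OfNat.ofNat_ne_zero, not_false_eq_true, zero_pow]
    linarith
  · have : a = b + 1 := by omega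
    rw [this]
    have h3 := cos_step_sq θ b
    calc (Real.cos (θ * (b + 1 : ℕ)) - Real.cos (θ * b)) ^ 2 =
        (Real.cos (θ * b) - Real.cos (θ * (b + 1 : ℕ))) ^ 2 := by ring
      _ ≤ _ := h3

theorem path_energy (D : ℕ) (hD : 1 ≤ D) :
    ∑ j ∈ range D, (Real.cos (Real.pi / D * j) - Real.cos (Real.pi / D * (j + 1 : ℕ))) ^ 2 =
      (1 - Real.cos (Real.pi / D)) *
        ∑ j ∈ range D, (Real.cos (Real.pi / D * j) ^ 2 + Real.cos (Real.pi / D * (j + 1 : ℕ)) ^ 2) := by
  set θ := Real.pi / D with hθ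
  have hDpos : (0 : ℝ) < D := by exact_mod_cast hD
  have hθD : θ * D = Real.pi := by rw [hθ]; field_simp
  have hstep : ∀ j : ℕ, (Real.cos (θ * j) - Real.cos (θ * (j + 1 : ℕ))) ^ 2 -
      (1 - Real.cos θ) * (Real.cos (θ * j) ^ 2 + Real.cos (θ * (j + 1 : ℕ)) ^ 2) =
      -(Real.sin θ * (Real.cos (θ * (j + 1 : ℕ)) * Real.sin (θ * (j + 1 : ℕ)))
        - Real.sin θ * (Real.cos (θ * j) * Real.sin (θ * j))) := by
    intro j
    have e1 : θ * ((j + 1 : ℕ) : ℝ) = θ * j + θ := by push_cast; ring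
    rw [e1, Real.cos_add, Real.sin_add]
    have h1 := Real.sin_sq_add_cos_sq (θ * j)
    have h2 := Real.sin_sq_add_cos_sq θ
    have h3 : Real.sin θ ^ 2 = 1 - Real.cos θ ^ 2 := by linarith
    have h4 : Real.sin (θ * j) ^ 2 = 1 - Real.cos (θ * j) ^ 2 := by linarith
    linear_combination (Real.cos (θ * j) ^ 2 * Real.cos θ -
      Real.cos (θ * j) * Real.sin (θ * j) * Real.sin θ) * h2
  have htel : ∑ j ∈ range D, ((Real.cos (θ * j) - Real.cos (θ * (j + 1 : ℕ))) ^ 2 -
      (1 - Real.cos θ) * (Real.cos (θ * j) ^ 2 + Real.cos (θ * (j + 1 : ℕ)) ^ 2)) = 0 := by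
    simp_rw [hstep]
    rw [Finset.sum_neg_distrib, Finset.sum_range_sub (fun j : ℕ => Real.sin θ *
      (Real.cos (θ * j) * Real.sin (θ * j))) D, hθD]
    simp
  rw [Finset.sum_sub_distrib, ← Finset.mul_sum] at htel
  linarith

theorem path_mean (D : ℕ) (hD : 1 ≤ D) :
    ∑ j ∈ range D, (Real.cos (Real.pi / D * j) + Real.cos (Real.pi / D * (j + 1 : ℕ))) = 0 := by
  have hDpos : (0 : ℝ) < D := by exact_mod_cast hD
  rw [Finset.sum_add_distrib]
  have h1 : ∑ j ∈ range D, Real.cos (Real.pi / D * (j + 1 : ℕ)) =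
      ∑ j ∈ range D, Real.cos (Real.pi / D * ((D - 1 - j) + 1 : ℕ)) :=
    (Finset.sum_range_reflect (fun j : ℕ => Real.cos (Real.pi / D * (j + 1 : ℕ))) D).symm
  rw [h1, ← Finset.sum_add_distrib]
  apply Finset.sum_eq_zero
  intro j hj
  rw [Finset.mem_range] at hj
  have h2 : D - 1 - j + 1 = D - j := by omega
  rw [h2]
  have h3 : Real.pi / D * ((D - j : ℕ) : ℝ) = Real.pi - Real.pi / D * j := by
    rw [Nat.cast_sub hj.le]
    field_simp
  rw [h3, Real.cos_pi_sub]
  ring

theorem path_norm (D : ℕ) (hD : 1 ≤ D) :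
    (D : ℝ) ≤ ∑ j ∈ range D, (Real.cos (Real.pi / D * j) ^ 2 + Real.cos (Real.pi / D * (j + 1 : ℕ)) ^ 2) := by
  rcases Nat.lt_or_ge 1 D with h2 | h2
  · set θ := Real.pi / D with hθ
    have hDpos : (0 : ℝ) < D := by positivity
    have hθD : θ * D = Real.pi := by rw [hθ]; field_simp
    have hs : 0 < Real.sin θ := by
      apply Real.sin_pos_of_pos_of_lt_pi
      · rw [hθ]; positivity
      · rw [hθ, div_lt_iff₀ hDpos]
        have : (1 : ℝ) < D := by exact_mod_cast h2
        nlinarith [Real.pi_pos]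
    have hstep : ∀ j : ℕ, Real.sin θ * (Real.cos (θ * j) ^ 2 + Real.cos (θ * (j + 1 : ℕ)) ^ 2 - 1) =
        Real.cos θ * (Real.sin (θ * (j + 1 : ℕ)) * Real.cos (θ * (j + 1 : ℕ)) -
          Real.sin (θ * j) * Real.cos (θ * j)) := by
      intro j
      have e1 : θ * ((j + 1 : ℕ) : ℝ) = θ * j + θ := by push_cast; ring
      rw [e1, Real.cos_add, Real.sin_add]
      have h1 := Real.sin_sq_add_cos_sq (θ * j)
      have h2 := Real.sin_sq_add_cos_sq θ
      have h3 : Real.sin θ ^ 2 = 1 - Real.cos θ ^ 2 := by linarith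
      have h4 : Real.sin (θ * j) ^ 2 = 1 - Real.cos (θ * j) ^ 2 := by linarith
      linear_combination (Real.sin θ * Real.sin (θ * j) ^ 2 -
        Real.cos (θ * j) * Real.cos θ * Real.sin (θ * j)) * h2 + Real.sin θ * h1
    have htel : Real.sin θ * (∑ j ∈ range D,
        (Real.cos (θ * j) ^ 2 + Real.cos (θ * (j + 1 : ℕ)) ^ 2 - 1)) = 0 := by
      rw [Finset.mul_sum]
      simp_rw [hstep]
      rw [← Finset.mul_sum, Finset.sum_range_sub (fun j : ℕ => Real.sin (θ * j) * Real.cos (θ * j)) D,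
        hθD]
      simp
    rcases mul_eq_zero.mp htel with h | h
    · exact absurd h hs.ne'
    · rw [Finset.sum_sub_distrib] at h
      simp only [Finset.sum_const, Finset.card_range, nsmul_eq_mul, mul_one] at h
      linarith
  · have : D = 1 := by omega
    subst this
    simp

theorem cos_compare {D m : ℕ} (hD : 1 ≤ D) (hDm : D ≤ m) :
    (1 - Real.cos (Real.pi / D)) * (D : ℝ) ^ 2 ≤ (1 - Real.cos (Real.pi / m)) * (m : ℝ) ^ 2 := by
  have hDpos : (0 : ℝ) < D := by exact_mod_cast hD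
  have hmpos : (0 : ℝ) < m := by exact_mod_cast (by omega : 0 < m)
  have hpi := Real.pi_pos
  have hDm' : (D : ℝ) ≤ m := by exact_mod_cast hDm
  have hD1 : (1 : ℝ) ≤ D := by exact_mod_cast hD
  have hcos : ∀ t : ℝ, 1 - Real.cos t = 2 * Real.sin (t / 2) ^ 2 := by
    intro t
    have h3 : Real.cos t = Real.cos (2 * (t / 2)) := by ring_nf
    rw [h3, Real.cos_two_mul]
    have := Real.sin_sq_add_cos_sq (t / 2)
    linarith
  have hconc : (D / m : ℝ) * Real.sin (Real.pi / D / 2) ≤ Real.sin (Real.pi / m / 2) := by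
    have hx : Real.pi / D / 2 ∈ Set.Icc 0 Real.pi :=
      ⟨by positivity, by rw [div_div, div_le_iff₀ (by positivity)]; nlinarith⟩
    have hy : (0 : ℝ) ∈ Set.Icc 0 Real.pi := ⟨le_rfl, hpi.le⟩
    have ha : (0 : ℝ) ≤ D / m := by positivity
    have hb : (0 : ℝ) ≤ 1 - D / m := by rw [sub_nonneg, div_le_one hmpos]; exact hDm'
    have hab : (D / m : ℝ) + (1 - D / m) = 1 := by ring
    have h1 := strictConcaveOn_sin_Icc.concaveOn.2 hx hy ha hb hab
    simp only [smul_eq_mul, Real.sin_zero, mul_zero, add_zero] at h1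
    have h2 : (D / m : ℝ) * (Real.pi / D / 2) = Real.pi / m / 2 := by field_simp
    rw [h2] at h1
    exact h1
  have hs0 : 0 ≤ Real.sin (Real.pi / D / 2) := by
    apply Real.sin_nonneg_of_nonneg_of_le_pi
    · positivity
    · rw [div_div, div_le_iff₀ (by positivity)]; nlinarith
  have hmul : (D : ℝ) * Real.sin (Real.pi / D / 2) ≤ m * Real.sin (Real.pi / m / 2) := by
    have := mul_le_mul_of_nonneg_left hconc hmpos.le
    calc (D : ℝ) * Real.sin (Real.pi / D / 2) = m * (D / m * Real.sin (Real.pi / D / 2)) := by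
          field_simp
      _ ≤ _ := this
  rw [hcos, hcos]
  have h5 : ((D : ℝ) * Real.sin (Real.pi / D / 2)) ^ 2 ≤ (m * Real.sin (Real.pi / m / 2)) ^ 2 :=
    pow_le_pow_left₀ (by positivity) hmul 2
  nlinarith

/-! ### Sums over the edges of a geodesic -/

/-- A geodesic realising the diameter. -/
theorem exists_geodesic {n : ℕ} (G : SimpleGraph (Fin n)) (hG : G.Connected) :
    ∃ (x : Fin n) (P : ℕ → Fin n), (∀ j, j ≤ G.diam → G.dist x (P j) = j) ∧
      ∀ j, j < G.diam → G.Adj (P j) (P (j + 1)) := by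
  have := hG.nonempty
  obtain ⟨x, y, hxy⟩ := G.exists_dist_eq_diam
  obtain ⟨p, hp⟩ := hG.exists_walk_length_eq_dist x y
  rw [hxy] at hp
  have hadj : ∀ j, j < G.diam → G.Adj (p.getVert j) (p.getVert (j + 1)) := by
    intro j hj
    exact p.adj_getVert_succ (by omega)
  have h1 : ∀ j, j ≤ G.diam → G.dist x (p.getVert j) ≤ j := by
    intro j
    induction j with
    | zero => intro _; simp
    | succ j ih =>
      intro hj
      have h2 := ih (by omega)
      have h3 := hG.dist_triangle (u := x) (v := p.getVert j) (w := p.getVert (j + 1))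
      have h4 : G.dist (p.getVert j) (p.getVert (j + 1)) = 1 :=
        SimpleGraph.dist_eq_one_iff_adj.mpr (hadj j (by omega))
      omega
  have h2 : ∀ i, i ≤ G.diam → G.dist (p.getVert (G.diam - i)) y ≤ i := by
    intro i
    induction i with
    | zero =>
      intro _
      have : p.getVert (G.diam - 0) = y := by
        rw [Nat.sub_zero, ← hp, p.getVert_length]
      rw [this]; simp
    | succ i ih =>
      intro hi
      have h2 := ih (by omega)
      have h3 := hG.dist_triangle (u := p.getVert (G.diam - (i + 1)))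
        (v := p.getVert (G.diam - i)) (w := y)
      have h5 := hadj (G.diam - (i + 1)) (by omega)
      have e : G.diam - (i + 1) + 1 = G.diam - i := by omega
      rw [e] at h5
      have h4 := SimpleGraph.dist_eq_one_iff_adj.mpr h5
      omega
  refine ⟨x, p.getVert, ?_, hadj⟩
  intro j hj
  have h3 := h1 j hj
  have h4 := h2 (G.diam - j) (by omega)
  have e : G.diam - (G.diam - j) = j := by omega
  rw [e] at h4
  have h5 := hG.dist_triangle (u := x) (v := p.getVert j) (w := y)
  omega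

open Classical in
/-- Nonnegative sums over ordered adjacent pairs dominate the part coming from a geodesic. -/
theorem sum_adj_ge {n D : ℕ} (G : SimpleGraph (Fin n)) (x : Fin n) (P : ℕ → Fin n)
    (hP : ∀ j, j ≤ D → G.dist x (P j) = j) (hadj : ∀ j, j < D → G.Adj (P j) (P (j + 1)))
    (w : Fin n → Fin n → ℝ) (hw : ∀ u v, G.Adj u v → 0 ≤ w u v) :
    ∑ j ∈ range D, (w (P j) (P (j + 1)) + w (P (j + 1)) (P j)) ≤
      ∑ u, ∑ v, (if G.Adj u v then w u v else 0) := by
  have h1 : ∑ u, ∑ v, (if G.Adj u v then w u v else 0) =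
      ∑ q : Fin n × Fin n, (if G.Adj q.1 q.2 then w q.1 q.2 else 0) := by
    rw [Fintype.sum_prod_type]
  set φ : ℕ × Bool → Fin n × Fin n := fun z =>
    if z.2 then (P z.1, P (z.1 + 1)) else (P (z.1 + 1), P z.1) with hφ
  have hinj : Set.InjOn φ (range D ×ˢ (Finset.univ : Finset Bool) : Finset (ℕ × Bool)) := by
    rintro ⟨i, s⟩ hi ⟨j, t⟩ hj hij
    rw [Finset.mem_coe, Finset.mem_product, Finset.mem_range] at hi hj
    have hi1 := hi.1
    have hj1 := hj.1
    simp only at hi1 hj1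
    have e1 := hP i (by omega)
    have e2 := hP (i + 1) (by omega)
    have e3 := hP j (by omega)
    have e4 := hP (j + 1) (by omega)
    have f1 := congrArg (fun q : Fin n × Fin n => G.dist x q.1) hij
    have f2 := congrArg (fun q : Fin n × Fin n => G.dist x q.2) hij
    cases s <;> cases t <;> simp only [hφ, if_true, Bool.false_eq_true, if_false] at f1 f2
    · rw [e1, e3] at f2
      rw [f2]
    · rw [e2, e3] at f1
      rw [e1, e4] at f2
      omega
    · rw [e1, e4] at f1
      rw [e2, e3] at f2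
      omega
    · rw [e1, e3] at f1
      rw [f1]
  have h2 : ∑ j ∈ range D, (w (P j) (P (j + 1)) + w (P (j + 1)) (P j)) =
      ∑ z ∈ range D ×ˢ (Finset.univ : Finset Bool),
        (if G.Adj (φ z).1 (φ z).2 then w (φ z).1 (φ z).2 else 0) := by
    rw [Finset.sum_product]
    refine Finset.sum_congr rfl fun j hj => ?_
    rw [Finset.mem_range] at hj
    have := hadj j hj
    simp [hφ, this, this.symm]
  rw [h1, h2, ← Finset.sum_image (f := fun q : Fin n × Fin n => if G.Adj q.1 q.2 then w q.1 q.2 else 0)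
    hinj]
  apply Finset.sum_le_sum_of_subset_of_nonneg (Finset.subset_univ _)
  intro q _ _
  split_ifs with h
  · exact hw _ _ h
  · exact le_rfl

end Pool.Agent.H43.Stab
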