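import Mathlib
import Pool.Agent.Results.MP_ea35a0_co.ExactMax
import Pool.Agent.H43.Stab.Lower

set_option autoImplicit false

namespace Pool.Agent.H43.Stab

open Finset
open Pool.Agent.Results.MP_ea35a0_co.ExactMax

open Classical in
theorem sum_adj_const {n m : ℕ} (G : SimpleGraph (Fin n)) (hm : G.edgeSet.ncard = m) (c : ℝ) :
    ∑ u, ∑ v, (if G.Adj u v then c else 0) = 2 * m * c := by
  have hcard : G.edgeFinset.card = m := by
    rw [← hm, Set.ncard_eq_toFinset_card']
    rfl
  have h1 : ∀ u : Fin n, ∑ v, (if G.Adj u v then c else 0) = (G.degree u : ℝ) * c := by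
    intro u
    rw [degree_real, Finset.sum_mul]
    refine Finset.sum_congr rfl fun v _ => ?_
    split_ifs <;> ring
  simp_rw [h1]
  rw [← Finset.sum_mul]
  have h2 := G.sum_degrees_eq_twice_card_edges
  have h3 : ∑ u, (G.degree u : ℝ) = 2 * m := by
    have h4 : ((∑ u, G.degree u : ℕ) : ℝ) = ((2 * G.edgeFinset.card : ℕ) : ℝ) := by
      rw [← h2]
    rw [hcard] at h4
    push_cast at h4
    exact h4
  rw [h3]

theorem diam_le {n m : ℕ} (G : SimpleGraph (Fin n)) (hG : G.Connected)
    (hm : G.edgeSet.ncard = m) : G.diam ≤ m := by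
  classical
  obtain ⟨x, P, hP, hadj⟩ := exists_geodesic G hG
  have h1 := sum_adj_ge G x P hP hadj (fun _ _ => 1) (fun _ _ _ => zero_le_one)
  have h2 := sum_adj_const G hm 1
  rw [h2] at h1
  simp only [Finset.sum_const, Finset.card_range, nsmul_eq_mul] at h1
  have h3 : (G.diam : ℝ) ≤ m := by linarith
  exact_mod_cast h3

/-- Lower bound for the relaxation time in terms of the diameter. -/
theorem relTime_lower {n m : ℕ} (G : SimpleGraph (Fin n)) (hG : G.Connected)
    (hm : G.edgeSet.ncard = m) (hm1 : 1 ≤ m) :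
    (G.diam : ℝ) / ((2 * m - G.diam) * (1 - Real.cos (Real.pi / G.diam))) ≤ relTime G := by
  classical
  have hD1 := one_le_diam G hG hm hm1
  have hDm := diam_le G hG hm
  obtain ⟨x, P, hP, hadj⟩ := exists_geodesic G hG
  set D := G.diam with hD
  set θ := Real.pi / D with hθ
  have hDpos : (0 : ℝ) < D := by exact_mod_cast hD1
  have hDm' : (D : ℝ) ≤ m := by exact_mod_cast hDm
  have hcos := one_sub_cos_pos D hD1
  rw [← hθ] at hcos
  -- the test function
  set g₀ : Fin n → ℝ := fun v => Real.cos (θ * G.dist x v) with hg₀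
  have hdsum : ∑ v, (G.degree v : ℝ) = 2 * m := by
    have h1 := sum_adj_const G hm 1
    simp_rw [← degree_real] at h1
    linarith
  have hmpos : (0 : ℝ) < m := by exact_mod_cast (by omega : 0 < m)
  set c := (∑ v, (G.degree v : ℝ) * g₀ v) / (2 * m) with hc
  set g : Fin n → ℝ := fun v => g₀ v - c with hg
  have hg0 : ∑ v, (G.degree v : ℝ) * g v = 0 := by
    have h1 : ∑ v, (G.degree v : ℝ) * g v =
        ∑ v, (G.degree v : ℝ) * g₀ v - (∑ v, (G.degree v : ℝ)) * c := by
      rw [Finset.sum_mul, ← Finset.sum_sub_distrib]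
      refine Finset.sum_congr rfl fun v _ => ?_
      rw [hg]; ring
    rw [h1, hdsum, hc]
    field_simp
    ring
  have hpo := poincare_relTime G hG hm hm1 g hg0
  -- variance
  set Q := ∑ j ∈ range D, (Real.cos (θ * j) ^ 2 + Real.cos (θ * (j + 1 : ℕ)) ^ 2) with hQ
  have hQD : (D : ℝ) ≤ Q := path_norm D hD1
  have hmean := path_mean D hD1
  rw [← hθ] at hmean
  have hgP : ∀ j, j ≤ D → g₀ (P j) = Real.cos (θ * j) := by
    intro j hj
    rw [hg₀]
    simp only [hP j hj]
  have hvar : Q ≤ ∑ v, (G.degree v : ℝ) * g v ^ 2 := by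
    have h1 := sum_adj_ge G x P hP hadj (fun u _ => g u ^ 2) (fun _ _ _ => sq_nonneg _)
    have h2 : ∑ u, ∑ v, (if G.Adj u v then g u ^ 2 else 0) = ∑ v, (G.degree v : ℝ) * g v ^ 2 := by
      refine Finset.sum_congr rfl fun u _ => ?_
      rw [degree_real, Finset.sum_mul]
      refine Finset.sum_congr rfl fun v _ => ?_
      split_ifs <;> ring
    rw [h2] at h1
    refine le_trans ?_ h1
    have h3 : ∑ j ∈ range D, (g (P j) ^ 2 + g (P (j + 1)) ^ 2) =
        Q - 2 * c * (∑ j ∈ range D, (Real.cos (θ * j) + Real.cos (θ * (j + 1 : ℕ)))) +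
          2 * D * c ^ 2 := by
      have h4 : ∀ j ∈ range D, g (P j) ^ 2 + g (P (j + 1)) ^ 2 =
          (Real.cos (θ * j) ^ 2 + Real.cos (θ * (j + 1 : ℕ)) ^ 2) -
            2 * c * (Real.cos (θ * j) + Real.cos (θ * (j + 1 : ℕ))) + 2 * c ^ 2 := by
        intro j hj
        rw [Finset.mem_range] at hj
        have e1 : g (P j) = Real.cos (θ * j) - c := by rw [← hgP j hj.le]
        have e2 : g (P (j + 1)) = Real.cos (θ * (j + 1 : ℕ)) - c := by
          rw [← hgP (j + 1) (by omega)]
        rw [e1, e2]; ring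
      rw [Finset.sum_congr rfl h4, Finset.sum_add_distrib, Finset.sum_sub_distrib,
        ← Finset.mul_sum]
      simp only [Finset.sum_const, Finset.card_range, nsmul_eq_mul]
      ring
    rw [h3, hmean]
    have : 0 ≤ 2 * (D : ℝ) * c ^ 2 := by positivity
    linarith
  -- energy
  have hener : (1 / 2 : ℝ) * ∑ u, ∑ v, (if G.Adj u v then (g u - g v) ^ 2 else 0) ≤
      (1 - Real.cos θ) * (Q + 2 * (m - D)) := by
    have hstep : ∀ u v, G.Adj u v → (g u - g v) ^ 2 ≤ 2 * (1 - Real.cos θ) := by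
      intro u v huv
      have e : g u - g v = Real.cos (θ * G.dist x u) - Real.cos (θ * G.dist x v) := by
        rw [hg, hg₀]; ring
      rw [e]
      have h1 := hG.dist_triangle (u := x) (v := u) (w := v)
      have h2 := hG.dist_triangle (u := x) (v := v) (w := u)
      have h3 : G.dist u v = 1 := SimpleGraph.dist_eq_one_iff_adj.mpr huv
      have h4 : G.dist v u = 1 := SimpleGraph.dist_eq_one_iff_adj.mpr huv.symm
      exact cos_step_sq' θ (by omega) (by omega)
    have h1 := sum_adj_ge G x P hP hadj (fun u v => 2 * (1 - Real.cos θ) - (g u - g v) ^ 2)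
      (fun u v huv => by have := hstep u v huv; linarith)
    have h2 : ∑ u, ∑ v, (if G.Adj u v then 2 * (1 - Real.cos θ) - (g u - g v) ^ 2 else 0) =
        2 * m * (2 * (1 - Real.cos θ)) -
          ∑ u, ∑ v, (if G.Adj u v then (g u - g v) ^ 2 else 0) := by
      rw [← sum_adj_const G hm (2 * (1 - Real.cos θ)), ← Finset.sum_sub_distrib]
      refine Finset.sum_congr rfl fun u _ => ?_
      rw [← Finset.sum_sub_distrib]
      refine Finset.sum_congr rfl fun v _ => ?_
      split_ifs <;> ring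
    rw [h2] at h1
    have h3 : ∑ j ∈ range D, ((2 * (1 - Real.cos θ) - (g (P j) - g (P (j + 1))) ^ 2) +
        (2 * (1 - Real.cos θ) - (g (P (j + 1)) - g (P j)) ^ 2)) =
        4 * D * (1 - Real.cos θ) - 2 * ((1 - Real.cos θ) * Q) := by
      have h4 := path_energy D hD1
      rw [← hθ, ← hQ] at h4
      rw [← h4]
      have h5 : ∀ j ∈ range D, ((2 * (1 - Real.cos θ) - (g (P j) - g (P (j + 1))) ^ 2) +
          (2 * (1 - Real.cos θ) - (g (P (j + 1)) - g (P j)) ^ 2)) =
          4 * (1 - Real.cos θ) - 2 * (Real.cos (θ * j) - Real.cos (θ * (j + 1 : ℕ))) ^ 2 := by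
        intro j hj
        rw [Finset.mem_range] at hj
        have e1 : g (P j) = Real.cos (θ * j) - c := by rw [← hgP j hj.le]
        have e2 : g (P (j + 1)) = Real.cos (θ * (j + 1 : ℕ)) - c := by
          rw [← hgP (j + 1) (by omega)]
        rw [e1, e2]; ring
      rw [Finset.sum_congr rfl h5, Finset.sum_sub_distrib,
        ← Finset.mul_sum (range D) (fun j : ℕ => (Real.cos (θ * j) - Real.cos (θ * (j + 1 : ℕ))) ^ 2) 2]
      simp only [Finset.sum_const, Finset.card_range, nsmul_eq_mul]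
      ring
    have h6 : 4 * D * (1 - Real.cos θ) - 2 * ((1 - Real.cos θ) * Q) ≤
        2 * m * (2 * (1 - Real.cos θ)) -
          ∑ u, ∑ v, (if G.Adj u v then (g u - g v) ^ 2 else 0) := by
      rw [← h3]; exact h1
    linarith
  have hR0 : 0 ≤ relTime G := by
    by_contra hneg
    push Not at hneg
    have h1 : 0 ≤ (1 / 2 : ℝ) * ∑ u, ∑ v, (if G.Adj u v then (g u - g v) ^ 2 else 0) := by
      apply mul_nonneg (by norm_num)
      refine Finset.sum_nonneg fun u _ => Finset.sum_nonneg fun v _ => ?_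
      split_ifs <;> positivity
    have h2 := mul_nonneg_of_nonpos_of_nonpos hneg.le (neg_nonpos.mpr h1)
    nlinarith
  have hfin : Q ≤ relTime G * ((1 - Real.cos θ) * (Q + 2 * (m - D))) :=
    hvar.trans (hpo.trans (mul_le_mul_of_nonneg_left hener hR0))
  have h2mD : 0 < 2 * (m : ℝ) - D := by linarith
  rw [div_le_iff₀ (by positivity)]
  -- D (Q + 2(m-D)) ≤ Q (2m - D)
  have hQ2 : 0 < Q + 2 * (m - D) := by linarith
  have h7 : (D : ℝ) * (Q + 2 * (m - D)) ≤ Q * (2 * m - D) := by nlinarith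
  have h8 : Q * (2 * m - D) ≤ relTime G * ((1 - Real.cos θ) * (Q + 2 * (m - D))) * (2 * m - D) :=
    mul_le_mul_of_nonneg_right hfin h2mD.le
  have h9 : (D : ℝ) * (Q + 2 * (m - D)) ≤
      (relTime G * ((2 * m - D) * (1 - Real.cos θ))) * (Q + 2 * (m - D)) := by
    calc (D : ℝ) * (Q + 2 * (m - D)) ≤ Q * (2 * m - D) := h7
      _ ≤ _ := h8
      _ = _ := by ring
  exact le_of_mul_le_mul_right h9 hQ2

/-- Lower bound in terms of the deficiency `δ = (m - D)/m` of the diameter. -/
theorem relTime_lower' {n m : ℕ} (G : SimpleGraph (Fin n)) (hG : G.Connected)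
    (hm : G.edgeSet.ncard = m) (hm1 : 1 ≤ m) :
    (1 - ((m : ℝ) - G.diam) / m) ^ 3 / (1 + ((m : ℝ) - G.diam) / m) *
      (1 / (1 - Real.cos (Real.pi / m))) ≤ relTime G := by
  have hD1 := one_le_diam G hG hm hm1
  have hDm := diam_le G hG hm
  refine le_trans ?_ (relTime_lower G hG hm hm1)
  have hDpos : (0 : ℝ) < G.diam := by exact_mod_cast hD1
  have hmpos : (0 : ℝ) < m := by exact_mod_cast (by omega : 0 < m)
  have hDm' : (G.diam : ℝ) ≤ m := by exact_mod_cast hDm
  have h1 := cos_compare hD1 hDm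
  have h2 := one_sub_cos_pos _ hD1
  have h3 := one_sub_cos_pos m hm1
  have h2mD : 0 < 2 * (m : ℝ) - G.diam := by linarith
  have e1 : 1 - ((m : ℝ) - G.diam) / m = G.diam / m := by field_simp; ring
  have e2 : 1 + ((m : ℝ) - G.diam) / m = (2 * m - G.diam) / m := by field_simp; ring
  rw [e1, e2]
  set a := 1 - Real.cos (Real.pi / G.diam)
  set b := 1 - Real.cos (Real.pi / m)
  have e3 : ((G.diam : ℝ) / m) ^ 3 / ((2 * m - G.diam) / m) * (1 / b) =
      (G.diam : ℝ) ^ 3 / ((2 * m - G.diam) * (m ^ 2 * b)) := by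
    field_simp
  rw [e3]
  have e4 : (G.diam : ℝ) / ((2 * m - G.diam) * a) =
      (G.diam : ℝ) ^ 3 / ((2 * m - G.diam) * (G.diam ^ 2 * a)) := by
    field_simp
  rw [e4]
  apply div_le_div_of_nonneg_left (by positivity) (by positivity)
  apply mul_le_mul_of_nonneg_left _ h2mD.le
  linarith

end Pool.Agent.H43.Stab
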