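import Mathlib
import Pool.Agent.Results.MP_ea35a0_co.ExactMax
import Pool.Agent.H43.Stab.LowerB

set_option autoImplicit false

namespace Pool.Agent.H43.Stab

open Finset
open Pool.Agent.Results.MP_ea35a0_co.ExactMax

/-- parent function of the path `0, …, L` with the vertices `L+1, …` attached to `q` -/
def par (L q i : ℕ) : ℕ := if i ≤ L then i - 1 else q

/-- The path `0, 1, …, L` with the vertices `L+1, …, m` as leaves attached to the vertex `q`. -/
def leafPath (m L q : ℕ) (hq : q ≤ L) : SimpleGraph (Fin (m + 1)) where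
  Adj u v := (v.val ≠ 0 ∧ par L q v.val = u.val) ∨ (u.val ≠ 0 ∧ par L q u.val = v.val)
  symm := ⟨fun _ _ h => h.symm⟩
  loopless := ⟨fun u h => by
    have h1 : u.val ≠ 0 ∧ par L q u.val = u.val := by rcases h with h | h <;> exact h
    obtain ⟨h2, h3⟩ := h1
    unfold par at h3
    split_ifs at h3 <;> omega⟩

theorem par_lt {L q i : ℕ} (hq : q ≤ L) (hi : i ≠ 0) : par L q i < i := by
  unfold par
  split_ifs <;> omega

theorem leafPath_adj {m L q : ℕ} (hq : q ≤ L) (u v : Fin (m + 1)) :
    (leafPath m L q hq).Adj u v ↔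
      (v.val ≠ 0 ∧ par L q v.val = u.val) ∨ (u.val ≠ 0 ∧ par L q u.val = v.val) := Iff.rfl

theorem leafPath_connected (m L q : ℕ) (hq : q ≤ L) : (leafPath m L q hq).Connected := by
  have hreach : ∀ k : ℕ, ∀ v : Fin (m + 1), v.val = k → (leafPath m L q hq).Reachable 0 v := by
    intro k
    induction k using Nat.strong_induction_on with
    | _ k ih =>
      intro v hv
      by_cases h0 : v.val = 0
      · have : v = 0 := Fin.ext h0
        rw [this]
      · have h1 := par_lt (L := L) hq h0
        have h3 : par L q v.val < m + 1 := by have := v.isLt; omega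
        have h2 := ih (par L q v.val) (by omega) ⟨par L q v.val, h3⟩ rfl
        exact h2.trans (SimpleGraph.Adj.reachable ((leafPath_adj hq _ _).mpr (Or.inl ⟨h0, rfl⟩)))
  refine ⟨fun u v => ?_⟩
  exact (hreach _ u rfl).symm.trans (hreach _ v rfl)

theorem leafPath_isTree (m L q : ℕ) (hq : q ≤ L) : (leafPath m L q hq).IsTree := by
  classical
  have hconn := leafPath_connected m L q hq
  rw [SimpleGraph.isTree_iff_connected_and_card]
  refine ⟨hconn, ?_⟩
  have h1 := hconn.card_vert_le_card_edgeSet_add_one
  have h2 : Nat.card (leafPath m L q hq).edgeSet ≤ m := by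
    have h3 : (leafPath m L q hq).edgeSet ⊆
        ((Finset.univ.erase (0 : Fin (m + 1))).image (fun v : Fin (m + 1) =>
          s((⟨par L q v.val % (m + 1), Nat.mod_lt _ (Nat.succ_pos _)⟩ : Fin (m + 1)), v)) :
            Finset (Sym2 (Fin (m + 1)))) := by
      intro e he
      induction e using Sym2.ind with
      | _ x y =>
        rw [SimpleGraph.mem_edgeSet, leafPath_adj] at he
        rw [Finset.coe_image, Set.mem_image]
        rcases he with ⟨h4, h5⟩ | ⟨h4, h5⟩
        · refine ⟨y, ?_, ?_⟩
          · rw [Finset.mem_coe, Finset.mem_erase]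
            exact ⟨fun h => h4 (by rw [h]; rfl), Finset.mem_univ _⟩
          · have h6 : (⟨par L q y.val % (m + 1), Nat.mod_lt _ (Nat.succ_pos _)⟩ : Fin (m + 1)) = x :=
              Fin.ext (by simp only [h5]; exact Nat.mod_eq_of_lt x.isLt)
            rw [h6]
        · refine ⟨x, ?_, ?_⟩
          · rw [Finset.mem_coe, Finset.mem_erase]
            exact ⟨fun h => h4 (by rw [h]; rfl), Finset.mem_univ _⟩
          · have h6 : (⟨par L q x.val % (m + 1), Nat.mod_lt _ (Nat.succ_pos _)⟩ : Fin (m + 1)) = y :=
              Fin.ext (by simp only [h5]; exact Nat.mod_eq_of_lt y.isLt)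
            rw [h6]
            exact Sym2.eq_swap
    rw [Nat.card_coe_set_eq]
    refine (Set.ncard_le_ncard h3 (Finset.finite_toSet _)).trans ?_
    rw [Set.ncard_coe_finset]
    refine Finset.card_image_le.trans ?_
    rw [Finset.card_erase_of_mem (Finset.mem_univ _), Finset.card_univ, Fintype.card_fin]
    omega
  rw [Nat.card_eq_fintype_card (α := Fin (m + 1)), Fintype.card_fin] at h1 ⊢
  omega

theorem leafPath_edges (m L q : ℕ) (hq : q ≤ L) : (leafPath m L q hq).edgeSet.ncard = m := by
  have h1 := (SimpleGraph.isTree_iff_connected_and_card.mp (leafPath_isTree m L q hq)).2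
  rw [Nat.card_eq_fintype_card (α := Fin (m + 1)), Fintype.card_fin, Nat.card_coe_set_eq] at h1
  omega

open Classical in
/-- sum over the neighbours of a vertex -/
theorem leafPath_nbr (m L q : ℕ) (hq : q ≤ L) (v : Fin (m + 1)) (F : ℕ → ℝ) :
    ∑ u : Fin (m + 1), (if (leafPath m L q hq).Adj v u then F u.val else 0) =
      (if v.val ≠ 0 then F (par L q v.val) else 0) +
        ∑ i ∈ range m, (if par L q (i + 1) = v.val then F (i + 1) else 0) := by
  have h : ∀ u : Fin (m + 1), (if (leafPath m L q hq).Adj v u then F u.val else 0) =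
      (if v.val ≠ 0 ∧ par L q v.val = u.val then F u.val else 0) +
        (if u.val ≠ 0 ∧ par L q u.val = v.val then F u.val else 0) := by
    intro u
    by_cases h1 : v.val ≠ 0 ∧ par L q v.val = u.val
    · have h2 : ¬ (u.val ≠ 0 ∧ par L q u.val = v.val) := by
        rintro ⟨h3, h4⟩
        have h5 := par_lt (L := L) hq h1.1
        have h6 := par_lt (L := L) hq h3
        omega
      rw [if_pos h1, if_neg h2, if_pos ((leafPath_adj hq v u).mpr (Or.inr h1)), add_zero]
    · by_cases h2 : u.val ≠ 0 ∧ par L q u.val = v.val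
      · rw [if_neg h1, if_pos h2, if_pos ((leafPath_adj hq v u).mpr (Or.inl h2)), zero_add]
      · rw [if_neg h1, if_neg h2, if_neg, add_zero]
        rw [leafPath_adj]
        rintro (h | h)
        · exact h2 h
        · exact h1 h
  simp_rw [h, Finset.sum_add_distrib]
  congr 1
  · split_ifs with hv
    · have h3 : par L q v.val < m + 1 := by
        have := par_lt (L := L) hq hv
        have := v.isLt
        omega
      rw [Finset.sum_eq_single (⟨par L q v.val, h3⟩ : Fin (m + 1))]
      · rw [if_pos ⟨hv, rfl⟩]
      · intro b _ hb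
        rw [if_neg]
        rintro ⟨_, h4⟩
        exact hb (Fin.ext h4.symm)
      · intro h; exact absurd (Finset.mem_univ _) h
    · apply Finset.sum_eq_zero
      intro u _
      rw [if_neg (fun h => hv h.1)]
  · rw [Fin.sum_univ_succ]
    rw [if_neg (by simp), zero_add, Finset.sum_range]
    refine Finset.sum_congr rfl fun i _ => ?_
    simp

open Classical in
/-- sum over all ordered adjacent pairs -/
theorem leafPath_sum (m L q : ℕ) (hq : q ≤ L) (w : ℕ → ℕ → ℝ) :
    ∑ u : Fin (m + 1), ∑ v : Fin (m + 1), (if (leafPath m L q hq).Adj u v then w u.val v.val else 0) =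
      ∑ i ∈ range m, (w (par L q (i + 1)) (i + 1) + w (i + 1) (par L q (i + 1))) := by
  have h1 : ∀ u : Fin (m + 1), ∑ v : Fin (m + 1),
      (if (leafPath m L q hq).Adj u v then w u.val v.val else 0) =
      (if u.val ≠ 0 then w u.val (par L q u.val) else 0) +
        ∑ i ∈ range m, (if par L q (i + 1) = u.val then w u.val (i + 1) else 0) :=
    fun u => leafPath_nbr m L q hq u (fun j => w u.val j)
  simp_rw [h1, Finset.sum_add_distrib]
  rw [add_comm]
  congr 1
  · rw [Finset.sum_comm]
    refine Finset.sum_congr rfl fun i hi => ?_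
    rw [Finset.mem_range] at hi
    have h3 : par L q (i + 1) < m + 1 := by
      have : par L q (i + 1) < i + 1 := par_lt (L := L) hq (Nat.succ_ne_zero i)
      omega
    rw [Finset.sum_eq_single (⟨par L q (i + 1), h3⟩ : Fin (m + 1))]
    · rw [if_pos rfl]
    · intro b _ hb
      rw [if_neg]
      intro h4
      exact hb (Fin.ext h4.symm)
    · intro h; exact absurd (Finset.mem_univ _) h
  · rw [Fin.sum_univ_succ]
    rw [if_neg (by simp), zero_add, Finset.sum_range]
    refine Finset.sum_congr rfl fun i _ => ?_
    simp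

/-! ### The diameter -/

theorem leafPath_chain {m L q : ℕ} (hq : q ≤ L) (hL : L ≤ m) (i j : ℕ) (hij : i + j ≤ L) :
    (leafPath m L q hq).dist ⟨i, by omega⟩ ⟨i + j, by omega⟩ ≤ j := by
  induction j with
  | zero => simp
  | succ j ih =>
    have h1 := ih (by omega)
    have h2 : (leafPath m L q hq).Adj ⟨i + j, by omega⟩ ⟨i + (j + 1), by omega⟩ := by
      rw [leafPath_adj]
      left
      refine ⟨by simp only; omega, ?_⟩
      simp only
      unfold par
      rw [if_pos (by omega)]
      omega
    have h3 := SimpleGraph.dist_eq_one_iff_adj.mpr h2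
    have h4 := (leafPath_connected m L q hq).dist_triangle (u := ⟨i, by omega⟩)
      (v := ⟨i + j, by omega⟩) (w := ⟨i + (j + 1), by omega⟩)
    omega

theorem leafPath_chain' {m L q : ℕ} (hq : q ≤ L) (hL : L ≤ m) (u v : Fin (m + 1)) (hu : u.val ≤ L)
    (hv : v.val ≤ L) : (leafPath m L q hq).dist u v ≤ (u.val - v.val) + (v.val - u.val) := by
  rcases le_total u.val v.val with h | h
  · have h1 := leafPath_chain hq hL u.val (v.val - u.val) (by omega)
    have e1 : (⟨u.val, by omega⟩ : Fin (m + 1)) = u := Fin.ext rfl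
    have e2 : (⟨u.val + (v.val - u.val), by omega⟩ : Fin (m + 1)) = v := Fin.ext (by simp only; omega)
    rw [e1, e2] at h1
    omega
  · have h1 := leafPath_chain hq hL v.val (u.val - v.val) (by omega)
    have e1 : (⟨v.val, by omega⟩ : Fin (m + 1)) = v := Fin.ext rfl
    have e2 : (⟨v.val + (u.val - v.val), by omega⟩ : Fin (m + 1)) = u := Fin.ext (by simp only; omega)
    rw [e1, e2, SimpleGraph.dist_comm] at h1
    omega

theorem leafPath_leaf {m L q : ℕ} (hq : q ≤ L) (hL : L ≤ m) (u : Fin (m + 1)) (hu : L < u.val) :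
    (leafPath m L q hq).dist u ⟨q, by omega⟩ = 1 := by
  rw [SimpleGraph.dist_eq_one_iff_adj, leafPath_adj]
  right
  refine ⟨by omega, ?_⟩
  unfold par
  rw [if_neg (by omega)]

theorem leafPath_diam (m L q : ℕ) (hq1 : 1 ≤ q) (hq : q + 1 ≤ L) (hL : L ≤ m) :
    (leafPath m L q (by omega)).diam = L := by
  have hqL : q ≤ L := by omega
  have hconn := leafPath_connected m L q hqL
  apply le_antisymm
  · have := hconn.nonempty
    obtain ⟨u, v, huv⟩ := (leafPath m L q hqL).exists_dist_eq_diam
    show (leafPath m L q hqL).diam ≤ L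
    rw [← huv]
    by_cases hu : u.val ≤ L
    · by_cases hv : v.val ≤ L
      · have := leafPath_chain' hqL hL u v hu hv
        omega
      · have h1 := leafPath_leaf hqL hL v (by omega)
        have h2 := leafPath_chain' hqL hL u ⟨q, by omega⟩ hu hqL
        have h3 := hconn.dist_triangle (u := u) (v := ⟨q, by omega⟩) (w := v)
        rw [SimpleGraph.dist_comm] at h1
        simp only at h2
        omega
    · have h1 := leafPath_leaf hqL hL u (by omega)
      by_cases hv : v.val ≤ L
      · have h2 := leafPath_chain' hqL hL ⟨q, by omega⟩ v hqL hv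
        have h3 := hconn.dist_triangle (u := u) (v := ⟨q, by omega⟩) (w := v)
        simp only at h2
        omega
      · have h4 := leafPath_leaf hqL hL v (by omega)
        have h3 := hconn.dist_triangle (u := u) (v := ⟨q, by omega⟩) (w := v)
        rw [SimpleGraph.dist_comm] at h4
        omega
  · -- a 1-Lipschitz function
    have hlip : ∀ u v : Fin (m + 1), ∀ p : (leafPath m L q hqL).Walk u v,
        (if v.val ≤ L then v.val else q) ≤ (if u.val ≤ L then u.val else q) + p.length := by
      intro u v p
      induction p with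
      | nil => simp
      | @cons a b c h p ih =>
        rw [SimpleGraph.Walk.length_cons]
        have h1 : (if b.val ≤ L then b.val else q) ≤ (if a.val ≤ L then a.val else q) + 1 := by
          rw [leafPath_adj] at h
          unfold par at h
          rcases h with ⟨h2, h3⟩ | ⟨h2, h3⟩
          · split_ifs at h3 ⊢ <;> omega
          · split_ifs at h3 ⊢ <;> omega
        omega
    obtain ⟨p, hp⟩ := hconn.exists_walk_length_eq_dist (⟨0, by omega⟩ : Fin (m + 1)) ⟨L, by omega⟩
    have h1 := hlip _ _ p
    simp only [le_refl, if_true, Nat.zero_le] at h1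
    rw [hp] at h1
    have h2 : (leafPath m L q hqL).dist (⟨0, by omega⟩ : Fin (m + 1)) ⟨L, by omega⟩ ≤
        (leafPath m L q hqL).diam := SimpleGraph.dist_le_diam (ediam_ne_top' _ hconn)
    omega

end Pool.Agent.H43.Stab
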