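import Mathlib
import Pool.Agent.Results.MP_ea35a0_co.ExactMax
import Pool.Agent.H43.Stab.LeafPath

set_option autoImplicit false

namespace Pool.Agent.H43.Stab

open Finset
open Pool.Agent.Results.MP_ea35a0_co.ExactMax

/-- Split a sum over the edges of `leafPath` into the path and the leaves. -/
theorem split_sum (m k L q : ℕ) (hm : L + k = m) (W : ℕ → ℕ → ℝ) :
    ∑ i ∈ range m, W (par L q (i + 1)) (i + 1) =
      ∑ i ∈ range L, W i (i + 1) + ∑ x ∈ range k, W q (L + x + 1) := by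
  rw [← hm, Finset.sum_range_add]
  congr 1
  · refine Finset.sum_congr rfl fun i hi => ?_
    rw [Finset.mem_range] at hi
    have : par L q (i + 1) = i := by
      unfold par
      rw [if_pos (by omega)]
      rfl
    rw [this]
  · refine Finset.sum_congr rfl fun x _ => ?_
    have : par L q (L + x + 1) = q := by
      unfold par
      rw [if_neg (by omega)]
    rw [this]

theorem one_add_cos_le {m k j : ℕ} (hk : 1 ≤ k) (hj : j ≤ m) (hjk : m ≤ j + (k + 1)) (hm : 1 ≤ m) :
    0 ≤ 1 + Real.cos (Real.pi / m * j) ∧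
      1 + Real.cos (Real.pi / m * j) ≤ 2 * (k : ℝ) ^ 2 * (Real.pi / m) ^ 2 := by
  have hmpos : (0 : ℝ) < m := by exact_mod_cast hm
  set θ := Real.pi / m with hθ
  have hθ0 : 0 < θ := by rw [hθ]; positivity
  constructor
  · have := Real.neg_one_le_cos (θ * j)
    linarith
  · have e1 : θ * (j : ℝ) = Real.pi - θ * ((m - j : ℕ) : ℝ) := by
      rw [Nat.cast_sub hj, hθ]
      field_simp
      ring
    rw [e1, Real.cos_pi_sub]
    have h1 := Real.one_sub_sq_div_two_le_cos (x := θ * ((m - j : ℕ) : ℝ))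
    have h2 : ((m - j : ℕ) : ℝ) ≤ 2 * k := by
      have : m - j ≤ 2 * k := by omega
      exact_mod_cast this
    have h3 : (θ * ((m - j : ℕ) : ℝ)) ^ 2 ≤ (θ * (2 * k)) ^ 2 := by
      apply pow_le_pow_left₀ (by positivity)
      exact mul_le_mul_of_nonneg_left h2 hθ0.le
    nlinarith

/-- The final computation. -/
theorem broom_arith {R Q m u x : ℝ} (hx0 : 0 < x) (hx1 : x ≤ 1) (hmpos : 0 < m) (hQm : m ≤ Q)
    (hu0 : 0 ≤ u) (hu : u = 2 * Real.pi ^ 2 * (m * x ^ 3))
    (hmain : Q - 4 * u - 2 * u ^ 2 / m ≤ R * (Q + 4 * u)) : 1 - 1000 * x ^ 3 ≤ R := by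
  by_contra hlt
  push Not at hlt
  have hx3 : 0 < m * x ^ 3 := by positivity
  have hQη : 0 < Q + 4 * u := by linarith
  have h1 : R * (Q + 4 * u) < (1 - 1000 * x ^ 3) * (Q + 4 * u) :=
    mul_lt_mul_of_pos_right hlt hQη
  have h2 : 1000 * x ^ 3 * Q < 8 * u + 2 * u ^ 2 / m := by
    have h3 : 0 ≤ 1000 * x ^ 3 * (4 * u) := by positivity
    nlinarith
  have h3 : 1000 * x ^ 3 * m ≤ 1000 * x ^ 3 * Q :=
    mul_le_mul_of_nonneg_left hQm (by positivity)
  have hpi2 : Real.pi ^ 2 ≤ 9.93 := by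
    have := Real.pi_lt_d2
    have h0 := Real.pi_pos
    nlinarith
  have h4 : 2 * u ^ 2 / m ≤ 8 * 9.93 ^ 2 * (m * x ^ 3) := by
    rw [hu, div_le_iff₀ hmpos]
    have h5 : (Real.pi ^ 2) ^ 2 ≤ 9.93 ^ 2 := pow_le_pow_left₀ (by positivity) hpi2 2
    have h6 : (x ^ 3) ^ 2 ≤ x ^ 3 := by
      have h7 : x ^ 3 ≤ 1 := pow_le_one₀ hx0.le hx1
      have h8 : 0 < x ^ 3 := pow_pos hx0 3
      nlinarith
    calc 2 * (2 * Real.pi ^ 2 * (m * x ^ 3)) ^ 2 = 8 * (Real.pi ^ 2) ^ 2 * (m ^ 2 * (x ^ 3) ^ 2) := by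
          ring
      _ ≤ 8 * 9.93 ^ 2 * (m ^ 2 * x ^ 3) := by
          apply mul_le_mul
          · linarith
          · exact mul_le_mul_of_nonneg_left h6 (by positivity)
          · positivity
          · positivity
      _ = _ := by ring
  have h5 : 8 * u ≤ 16 * 9.93 * (m * x ^ 3) := by
    rw [hu]
    nlinarith
  nlinarith

/-- A broom: the path with `m - k` edges with `k` further leaves at its last but one vertex. -/
theorem broom_lower (m k : ℕ) (hk : 1 ≤ k) (hkm : k + 2 ≤ m) :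
    (1 - 1000 * ((k : ℝ) / m) ^ 3) * (1 / (1 - Real.cos (Real.pi / m))) ≤
      relTime (leafPath m (m - k) (m - k - 1) (by omega)) := by
  classical
  set L := m - k with hL
  have hLk : L + k = m := by omega
  set G := leafPath m L (L - 1) (by omega) with hGdef
  have hG : G.Connected := leafPath_connected _ _ _ _
  have hm : G.edgeSet.ncard = m := leafPath_edges _ _ _ _
  have hm1 : 1 ≤ m := by omega
  have hmpos : (0 : ℝ) < m := by exact_mod_cast hm1
  have hkpos : (0 : ℝ) < k := by exact_mod_cast hk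
  have hkm' : (k : ℝ) ≤ m := by exact_mod_cast (by omega : k ≤ m)
  set θ := Real.pi / m with hθ
  have hθ0 : 0 < θ := by rw [hθ]; positivity
  have hcos := one_sub_cos_pos m hm1
  rw [← hθ] at hcos
  set c : ℕ → ℝ := fun i => Real.cos (θ * i) with hc
  set F : ℕ → ℝ := fun i => c (min i L) with hF
  have hFi : ∀ i, i ≤ L → F i = c i := fun i hi => by rw [hF]; simp only [min_eq_left hi]
  have hFL : ∀ x, F (L + x + 1) = c L := fun x => by
    rw [hF]; simp only; rw [min_eq_right (by omega)]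
  have hFq : F (L - 1) = c (L - 1) := hFi _ (by omega)
  -- the three sums for the path with `m` edges
  set Q := ∑ i ∈ range m, (c i ^ 2 + c (i + 1) ^ 2) with hQ
  have hQm : (m : ℝ) ≤ Q := path_norm m hm1
  have hQs : Q = ∑ i ∈ range L, (c i ^ 2 + c (i + 1) ^ 2) +
      ∑ x ∈ range k, (c (L + x) ^ 2 + c (L + x + 1) ^ 2) := by
    rw [hQ, ← hLk, Finset.sum_range_add]
  have hM : ∑ i ∈ range L, (c i + c (i + 1)) = -∑ x ∈ range k, (c (L + x) + c (L + x + 1)) := by
    have h1 : ∑ i ∈ range m, (c i + c (i + 1)) = 0 := path_mean m hm1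
    rw [← hLk, Finset.sum_range_add] at h1
    have h2 : ∑ x ∈ range k, (c (L + x) + c (L + x + 1)) =
        ∑ x ∈ range k, (c (L + x) + c (L + x + 1)) := rfl
    linarith
  have hEn : ∑ i ∈ range m, (c i - c (i + 1)) ^ 2 = (1 - Real.cos θ) * Q := path_energy m hm1
  have hEs : ∑ i ∈ range L, (c i - c (i + 1)) ^ 2 ≤ (1 - Real.cos θ) * Q := by
    rw [← hEn]
    apply Finset.sum_le_sum_of_subset_of_nonneg
    · intro i hi
      rw [Finset.mem_range] at hi ⊢
      omega
    · intro i _ _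
      exact sq_nonneg _
  set η := 2 * (k : ℝ) ^ 2 * θ ^ 2 with hη
  have hη0 : 0 ≤ η := by positivity
  have ha : ∀ j, j ≤ m → m ≤ j + (k + 1) → 0 ≤ 1 + c j ∧ 1 + c j ≤ η :=
    fun j h1 h2 => one_add_cos_le hk h1 h2 hm1
  have haL := ha L (by omega) (by omega)
  have haL1 := ha (L - 1) (by omega) (by omega)
  -- sums for the broom
  have hS2 : ∑ v, (G.degree v : ℝ) * F v.val ^ 2 =
      ∑ i ∈ range L, (c i ^ 2 + c (i + 1) ^ 2) + k * (c (L - 1) ^ 2 + c L ^ 2) := by
    have h1 := leafPath_sum m L (L - 1) (by omega) (fun i _ => F i ^ 2)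
    have h2 : ∑ u : Fin (m + 1), ∑ v : Fin (m + 1), (if G.Adj u v then F u.val ^ 2 else 0) =
        ∑ v, (G.degree v : ℝ) * F v.val ^ 2 := by
      refine Finset.sum_congr rfl fun u _ => ?_
      rw [degree_real, Finset.sum_mul]
      refine Finset.sum_congr rfl fun v _ => ?_
      split_ifs <;> ring
    rw [← h2]
    refine h1.trans ?_
    rw [split_sum m k L (L - 1) hLk (fun i j => F i ^ 2 + F j ^ 2)]
    congr 1
    · refine Finset.sum_congr rfl fun i hi => ?_
      rw [Finset.mem_range] at hi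
      simp only [hFi i hi.le, hFi (i + 1) hi]
    · rw [Finset.sum_congr rfl (fun x _ => by rw [hFq, hFL x])]
      rw [Finset.sum_const, Finset.card_range, nsmul_eq_mul]
  have hS1 : ∑ v, (G.degree v : ℝ) * F v.val =
      ∑ i ∈ range L, (c i + c (i + 1)) + k * (c (L - 1) + c L) := by
    have h1 := leafPath_sum m L (L - 1) (by omega) (fun i _ => F i)
    have h2 : ∑ u : Fin (m + 1), ∑ v : Fin (m + 1), (if G.Adj u v then F u.val else 0) =
        ∑ v, (G.degree v : ℝ) * F v.val := by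
      refine Finset.sum_congr rfl fun u _ => ?_
      rw [degree_real, Finset.sum_mul]
      refine Finset.sum_congr rfl fun v _ => ?_
      split_ifs <;> ring
    rw [← h2]
    refine h1.trans ?_
    rw [split_sum m k L (L - 1) hLk (fun i j => F i + F j)]
    congr 1
    · refine Finset.sum_congr rfl fun i hi => ?_
      rw [Finset.mem_range] at hi
      simp only [hFi i hi.le, hFi (i + 1) hi]
    · rw [Finset.sum_congr rfl (fun x _ => by rw [hFq, hFL x])]
      rw [Finset.sum_const, Finset.card_range, nsmul_eq_mul]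
  have hS3 : (1 / 2 : ℝ) * ∑ u : Fin (m + 1), ∑ v : Fin (m + 1),
      (if G.Adj u v then (F u.val - F v.val) ^ 2 else 0) =
      ∑ i ∈ range L, (c i - c (i + 1)) ^ 2 + k * (c (L - 1) - c L) ^ 2 := by
    have h1 := leafPath_sum m L (L - 1) (by omega) (fun i j => (F i - F j) ^ 2)
    have h2 : ∑ u : Fin (m + 1), ∑ v : Fin (m + 1),
        (if G.Adj u v then (F u.val - F v.val) ^ 2 else 0) =
        2 * (∑ i ∈ range L, (c i - c (i + 1)) ^ 2 + k * (c (L - 1) - c L) ^ 2) := by
      refine h1.trans ?_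
      rw [split_sum m k L (L - 1) hLk (fun i j => (F i - F j) ^ 2 + (F j - F i) ^ 2), mul_add]
      congr 1
      · rw [Finset.mul_sum]
        refine Finset.sum_congr rfl fun i hi => ?_
        rw [Finset.mem_range] at hi
        simp only [hFi i hi.le, hFi (i + 1) hi]
        ring
      · rw [Finset.sum_congr rfl (fun x _ => by rw [hFq, hFL x])]
        rw [Finset.sum_const, Finset.card_range, nsmul_eq_mul]
        ring
    rw [h2]; ring
  -- mean
  set S := ∑ v, (G.degree v : ℝ) * F v.val with hS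
  have hSabs : |S| ≤ 2 * k * η := by
    have h1 : S = ∑ x ∈ range k, ((1 + c (L - 1)) + (1 + c L) - ((1 + c (L + x)) + (1 + c (L + x + 1)))) := by
      rw [hS1, hM, Finset.sum_sub_distrib, Finset.sum_const, Finset.card_range, nsmul_eq_mul]
      have h2 : ∑ x ∈ range k, ((1 + c (L + x)) + (1 + c (L + x + 1))) =
          ∑ x ∈ range k, (c (L + x) + c (L + x + 1)) + 2 * k := by
        have h3 : ∀ x ∈ range k, ((1 + c (L + x)) + (1 + c (L + x + 1))) =
            (c (L + x) + c (L + x + 1)) + 2 := fun x _ => by ring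
        rw [Finset.sum_congr rfl h3, Finset.sum_add_distrib, Finset.sum_const, Finset.card_range,
          nsmul_eq_mul]
        ring
      rw [h2]; ring
    rw [h1]
    refine (Finset.abs_sum_le_sum_abs _ _).trans ?_
    have h2 : ∀ x ∈ range k, |(1 + c (L - 1)) + (1 + c L) - ((1 + c (L + x)) + (1 + c (L + x + 1)))| ≤
        2 * η := by
      intro x hx
      rw [Finset.mem_range] at hx
      have b1 := ha (L + x) (by omega) (by omega)
      have b2 := ha (L + x + 1) (by omega) (by omega)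
      rw [abs_le]
      constructor <;> linarith [haL.1, haL.2, haL1.1, haL1.2, b1.1, b1.2, b2.1, b2.2]
    refine (Finset.sum_le_sum h2).trans ?_
    rw [Finset.sum_const, Finset.card_range, nsmul_eq_mul]
    apply le_of_eq
    ring
  have hdsum : ∑ v, (G.degree v : ℝ) = 2 * m := by
    have h1 := sum_adj_const G hm 1
    simp_rw [← degree_real] at h1
    linarith
  set cbar := S / (2 * m) with hcbar
  have hpo := poincare_relTime G hG hm hm1 (fun v => F v.val - cbar) (by
    have h1 : ∑ v, (G.degree v : ℝ) * (F v.val - cbar) = S - (∑ v, (G.degree v : ℝ)) * cbar := by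
      rw [Finset.sum_mul, hS, ← Finset.sum_sub_distrib]
      refine Finset.sum_congr rfl fun v _ => ?_
      ring
    rw [h1, hdsum, hcbar]
    field_simp
    ring)
  have hvar : ∑ v, (G.degree v : ℝ) * (F v.val - cbar) ^ 2 =
      ∑ v, (G.degree v : ℝ) * F v.val ^ 2 - S ^ 2 / (2 * m) := by
    have h1 : ∑ v, (G.degree v : ℝ) * (F v.val - cbar) ^ 2 =
        ∑ v, (G.degree v : ℝ) * F v.val ^ 2 - 2 * cbar * S + cbar ^ 2 * ∑ v, (G.degree v : ℝ) := by
      rw [hS, Finset.mul_sum, Finset.mul_sum, ← Finset.sum_sub_distrib, ← Finset.sum_add_distrib]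
      refine Finset.sum_congr rfl fun v _ => ?_
      ring
    rw [h1, hdsum, hcbar]
    field_simp
    ring
  have henergy : (1 / 2 : ℝ) * ∑ u : Fin (m + 1), ∑ v : Fin (m + 1),
      (if G.Adj u v then ((F u.val - cbar) - (F v.val - cbar)) ^ 2 else 0) =
      ∑ i ∈ range L, (c i - c (i + 1)) ^ 2 + k * (c (L - 1) - c L) ^ 2 := by
    rw [← hS3]
    congr 1
    refine Finset.sum_congr rfl fun u _ => Finset.sum_congr rfl fun v _ => ?_
    rw [sub_sub_sub_cancel_right]
  rw [hvar, henergy, hS2] at hpo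
  -- step at the end
  have hlast : (c (L - 1) - c L) ^ 2 ≤ 4 * (1 - Real.cos θ) * η := by
    have e0 : c (L - 1) - c L = 2 * Real.sin (θ * (k + 1 / 2)) * Real.sin (θ / 2) := by
      have e1 : θ * ((L - 1 : ℕ) : ℝ) = Real.pi - (θ * (k + 1 / 2) + θ / 2) := by
        rw [Nat.cast_sub (by omega), hL, Nat.cast_sub (by omega), hθ]
        field_simp
        push_cast
        ring
      have e2 : θ * ((L : ℕ) : ℝ) = Real.pi - (θ * (k + 1 / 2) - θ / 2) := by
        rw [hL, Nat.cast_sub (by omega), hθ]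
        field_simp
        ring
      show Real.cos (θ * ((L - 1 : ℕ) : ℝ)) - Real.cos (θ * ((L : ℕ) : ℝ)) = _
      rw [e1, e2, Real.cos_pi_sub, Real.cos_pi_sub, Real.cos_add, Real.cos_sub]
      ring
    have e3 : Real.cos θ = 1 - 2 * Real.sin (θ / 2) ^ 2 := by
      have h3 : Real.cos θ = Real.cos (2 * (θ / 2)) := by ring_nf
      rw [h3, Real.cos_two_mul]
      have := Real.sin_sq_add_cos_sq (θ / 2)
      linarith
    have e4 : Real.sin (θ * (k + 1 / 2)) ^ 2 ≤ 2 * η := by
      have h1 : |Real.sin (θ * (k + 1 / 2))| ≤ |θ * (k + 1 / 2)| := Real.abs_sin_le_abs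
      have h2 : Real.sin (θ * (k + 1 / 2)) ^ 2 ≤ (θ * (k + 1 / 2)) ^ 2 := sq_le_sq.mpr h1
      have h3 : (θ * ((k : ℝ) + 1 / 2)) ^ 2 ≤ (θ * (2 * k)) ^ 2 := by
        apply pow_le_pow_left₀ (by positivity)
        apply mul_le_mul_of_nonneg_left _ hθ0.le
        have : (1 : ℝ) ≤ k := by exact_mod_cast hk
        linarith
      have h4 : (θ * (2 * (k : ℝ))) ^ 2 = 2 * η := by rw [hη]; ring
      linarith
    rw [e0, e3]
    have e5 : 0 ≤ Real.sin (θ / 2) ^ 2 := sq_nonneg _
    nlinarith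
  -- collect
  have hQ1 : Q - 2 * k * η * 2 - S ^ 2 / (2 * m) ≤
      ∑ i ∈ range L, (c i ^ 2 + c (i + 1) ^ 2) + k * (c (L - 1) ^ 2 + c L ^ 2) - S ^ 2 / (2 * m) := by
    have h1 : ∑ x ∈ range k, (c (L + x) ^ 2 + c (L + x + 1) ^ 2) ≤ 2 * k := by
      have h2 : ∀ x ∈ range k, c (L + x) ^ 2 + c (L + x + 1) ^ 2 ≤ 2 := by
        intro x _
        have h3 : c (L + x) ^ 2 ≤ 1 := Real.cos_sq_le_one _
        have h4 : c (L + x + 1) ^ 2 ≤ 1 := Real.cos_sq_le_one _
        linarith
      refine (Finset.sum_le_sum h2).trans ?_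
      rw [Finset.sum_const, Finset.card_range, nsmul_eq_mul]
      linarith
    have h2 : 1 - 2 * η ≤ c L ^ 2 := by nlinarith [haL.1, haL.2]
    have h3 : 1 - 2 * η ≤ c (L - 1) ^ 2 := by nlinarith [haL1.1, haL1.2]
    have h4 : (k : ℝ) * (2 - 4 * η) ≤ k * (c (L - 1) ^ 2 + c L ^ 2) :=
      mul_le_mul_of_nonneg_left (by linarith) hkpos.le
    rw [hQs]
    linarith
  have hE1 : ∑ i ∈ range L, (c i - c (i + 1)) ^ 2 + k * (c (L - 1) - c L) ^ 2 ≤
      (1 - Real.cos θ) * (Q + 4 * k * η) := by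
    have h1 : (k : ℝ) * (c (L - 1) - c L) ^ 2 ≤ k * (4 * (1 - Real.cos θ) * η) :=
      mul_le_mul_of_nonneg_left hlast hkpos.le
    calc _ ≤ (1 - Real.cos θ) * Q + k * (4 * (1 - Real.cos θ) * η) := add_le_add hEs h1
      _ = _ := by ring
  have hS2' : S ^ 2 / (2 * m) ≤ 2 * (k * η) ^ 2 / m := by
    have h1 : S ^ 2 ≤ (2 * k * η) ^ 2 := by
      rw [← sq_abs]
      exact pow_le_pow_left₀ (abs_nonneg _) hSabs 2
    rw [div_le_div_iff₀ (by positivity) hmpos]
    nlinarith
  have hR0 : 0 ≤ relTime G := by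
    by_contra hneg
    push Not at hneg
    have h1 : 0 ≤ ∑ i ∈ range L, (c i - c (i + 1)) ^ 2 + k * (c (L - 1) - c L) ^ 2 := by
      apply add_nonneg
      · exact Finset.sum_nonneg fun i _ => sq_nonneg _
      · positivity
    have h2 := mul_nonneg_of_nonpos_of_nonpos hneg.le (neg_nonpos.mpr h1)
    have h3 : relTime G * (∑ i ∈ range L, (c i - c (i + 1)) ^ 2 + k * (c (L - 1) - c L) ^ 2) ≤ 0 := by
      linarith
    have h4 : relTime G ≤ 0 := hneg.le
    -- relaxation times are nonnegative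
    have h5 := relTime_lower G hG hm hm1
    have hD1 := one_le_diam G hG hm hm1
    have hDm := diam_le G hG hm
    have h6 := one_sub_cos_pos _ hD1
    have h7 : (0 : ℝ) < G.diam := by exact_mod_cast hD1
    have h8 : (G.diam : ℝ) ≤ m := by exact_mod_cast hDm
    have h9 : 0 < (G.diam : ℝ) / ((2 * m - G.diam) * (1 - Real.cos (Real.pi / G.diam))) := by
      apply div_pos h7
      apply mul_pos _ h6
      linarith
    linarith
  have hmain : Q - 4 * k * η - 2 * (k * η) ^ 2 / m ≤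
      relTime G * ((1 - Real.cos θ) * (Q + 4 * k * η)) := by
    have h1 := mul_le_mul_of_nonneg_left hE1 hR0
    linarith
  rw [mul_one_div, div_le_iff₀ hcos]
  have hkη : (k : ℝ) * η = 2 * Real.pi ^ 2 * (m * ((k : ℝ) / m) ^ 3) := by
    rw [hη, hθ]
    field_simp
  exact broom_arith (by positivity) ((div_le_one hmpos).mpr hkm') hmpos hQm
    (by positivity) hkη (by
      calc Q - 4 * (k * η) - 2 * (k * η) ^ 2 / m = Q - 4 * k * η - 2 * (k * η) ^ 2 / m := by ring
        _ ≤ _ := hmain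
        _ = _ := by ring)

end Pool.Agent.H43.Stab
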