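import Mathlib

set_option autoImplicit false
set_option linter.unusedSectionVars false

/-! Closed pieces of a closed walk along which a function is close to a cosine. -/

namespace Pool.Agent.H43.Stab

open Finset

/-- The mode `A cos (θ i - φ)`, `θ = 2 π / N`. -/
noncomputable def md (N : ℕ) (A φ : ℝ) (i : ℤ) : ℝ := A * Real.cos (2 * Real.pi / N * i - φ)

/-- The remainder. -/
noncomputable def rm (N : ℕ) (A φ : ℝ) (g : ℤ → ℝ) (i : ℤ) : ℝ := g i - md N A φ i

/-- Energy of the remainder at `i`. -/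
noncomputable def en (N : ℕ) (A φ : ℝ) (g : ℤ → ℝ) (i : ℤ) : ℝ :=
  (rm N A φ g (i + 1) - rm N A φ g i) ^ 2

/-- Energy of the remainder on `[i, i + n)`. -/
noncomputable def es (N : ℕ) (A φ : ℝ) (g : ℤ → ℝ) (i : ℤ) (n : ℕ) : ℝ :=
  ∑ k ∈ range n, en N A φ g (i + k)

theorem en_nonneg (N : ℕ) (A φ : ℝ) (g : ℤ → ℝ) (i : ℤ) : 0 ≤ en N A φ g i := sq_nonneg _

theorem es_nonneg (N : ℕ) (A φ : ℝ) (g : ℤ → ℝ) (i : ℤ) (n : ℕ) : 0 ≤ es N A φ g i n :=
  sum_nonneg fun _ _ => en_nonneg _ _ _ _ _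

theorem es_mono (N : ℕ) (A φ : ℝ) (g : ℤ → ℝ) (i : ℤ) {n n' : ℕ} (h : n ≤ n') :
    es N A φ g i n ≤ es N A φ g i n' :=
  sum_le_sum_of_subset_of_nonneg (range_subset_range.mpr h) fun _ _ _ => en_nonneg _ _ _ _ _

/-- Cauchy-Schwarz along a piece. -/
theorem rm_sq (N : ℕ) (A φ : ℝ) (g : ℤ → ℝ) (i : ℤ) (n : ℕ) :
    (rm N A φ g (i + n) - rm N A φ g i) ^ 2 ≤ n * es N A φ g i n := by
  have h1 : rm N A φ g (i + n) - rm N A φ g i =
      ∑ k ∈ range n, (rm N A φ g (i + k + 1) - rm N A φ g (i + k)) := by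
    have h2 := Finset.sum_range_sub (fun k : ℕ => rm N A φ g (i + k)) n
    simp only [Nat.cast_zero, add_zero] at h2
    rw [← h2]
    refine sum_congr rfl fun k _ => ?_
    push_cast
    rw [add_assoc]
  rw [h1]
  have h3 := sq_sum_le_card_mul_sum_sq (s := range n)
    (f := fun k : ℕ => rm N A φ g (i + k + 1) - rm N A φ g (i + k))
  rw [card_range] at h3
  exact h3

theorem md_period (N : ℕ) (hN : N ≠ 0) (A φ : ℝ) (i : ℤ) : md N A φ (i + N) = md N A φ i := by
  have hN' : (N : ℝ) ≠ 0 := by exact_mod_cast hN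
  unfold md
  congr 1
  have : 2 * Real.pi / N * ((i + N : ℤ) : ℝ) - φ = 2 * Real.pi / N * i - φ + 2 * Real.pi := by
    push_cast
    field_simp
    ring
  rw [this, Real.cos_add_two_pi]

/-- The difference of two cosines. -/
theorem cos_gap {α β : ℝ} (hα : 0 ≤ α) (hβ : β ≤ Real.pi) (h : α ≤ 4 / 9 * β) :
    β ^ 2 / 10 ≤ Real.cos α - Real.cos β := by
  have hβ0 : 0 ≤ β := by linarith
  have h1 := Real.one_sub_sq_div_two_le_cos (x := α)
  have h2 := Real.cos_le_one_sub_mul_cos_sq (x := β) (by rw [abs_of_nonneg hβ0]; exact hβ)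
  have hpi := Real.pi_lt_d2
  have hpi0 := Real.pi_pos
  have h3 : α ^ 2 ≤ (4 / 9 * β) ^ 2 := by
    apply pow_le_pow_left₀ hα h
  have h4 : (2 / 9.9225 : ℝ) ≤ 2 / Real.pi ^ 2 := by
    apply div_le_div_of_nonneg_left (by norm_num) (by positivity)
    nlinarith
  have h5 : 2 / 9.9225 * β ^ 2 ≤ 2 / Real.pi ^ 2 * β ^ 2 := mul_le_mul_of_nonneg_right h4 (sq_nonneg _)
  have h6 := sq_nonneg β
  nlinarith

/-- Position of a maximum of `g`: `K` is at distance `u` from a maximum `z` of the mode, `j` is an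
integer much closer to `z`. -/
theorem max_pos {N : ℕ} (hN : 0 < N) {A φ H : ℝ} (hA : 0 ≤ A) {g : ℤ → ℝ}
    (hH : ∀ (i : ℤ) (n : ℕ), n ≤ N → es N A φ g i n ≤ H)
    {K j : ℤ} (hK : g j ≤ g K) {z : ℝ} {n₀ : ℤ} (hz : 2 * Real.pi / N * z - φ = n₀ * (2 * Real.pi))
    (hu : |(K : ℝ) - z| ≤ N / 2) (hj : |(j : ℝ) - z| ≤ 4 / 9 * |(K : ℝ) - z|) :
    A ^ 2 * (2 * Real.pi / N) ^ 4 * |(K : ℝ) - z| ^ 3 ≤ 1300 / 9 * H := by
  set θ := 2 * Real.pi / N with hθ
  have hNpos : (0 : ℝ) < N := by exact_mod_cast hN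
  have hpi := Real.pi_pos
  have hθ0 : 0 < θ := by positivity
  set u := |(K : ℝ) - z| with hu'
  set α := |(j : ℝ) - z| with hα'
  have hu0 : 0 ≤ u := abs_nonneg _
  have hα0 : 0 ≤ α := abs_nonneg _
  -- values of the mode
  have hval : ∀ k : ℤ, md N A φ k = A * Real.cos (θ * |(k : ℝ) - z|) := by
    intro k
    unfold md
    congr 1
    have h1 : θ * (k : ℝ) - φ = θ * ((k : ℝ) - z) + n₀ * (2 * Real.pi) := by
      rw [← hz]; ring
    rw [← hθ, h1, Real.cos_add_int_mul_two_pi]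
    rw [← Real.cos_abs (θ * ((k : ℝ) - z)), abs_mul, abs_of_pos hθ0]
  have hgap : (θ * u) ^ 2 / 10 ≤ Real.cos (θ * α) - Real.cos (θ * u) := by
    apply cos_gap (by positivity)
    · calc θ * u ≤ θ * (N / 2) := mul_le_mul_of_nonneg_left hu hθ0.le
        _ = Real.pi := by rw [hθ]; field_simp
    · calc θ * α ≤ θ * (4 / 9 * u) := mul_le_mul_of_nonneg_left hj hθ0.le
        _ = 4 / 9 * (θ * u) := by ring
  have h1 : A * ((θ * u) ^ 2 / 10) ≤ rm N A φ g K - rm N A φ g j := by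
    have e1 : rm N A φ g K - rm N A φ g j = (g K - g j) + (md N A φ j - md N A φ K) := by
      unfold rm; ring
    rw [e1, hval, hval]
    have e2 := mul_le_mul_of_nonneg_left hgap hA
    have e3 : A * Real.cos (θ * |(j : ℝ) - z|) - A * Real.cos (θ * |(K : ℝ) - z|) =
        A * (Real.cos (θ * α) - Real.cos (θ * u)) := by rw [hu', hα']; ring
    linarith
  -- distance of `j` and `K`
  have h2 : |(K : ℝ) - j| ≤ 13 / 9 * u := by
    calc |(K : ℝ) - j| = |((K : ℝ) - z) - ((j : ℝ) - z)| := by ring_nf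
      _ ≤ |(K : ℝ) - z| + |(j : ℝ) - z| := abs_sub _ _
      _ ≤ 13 / 9 * u := by linarith
  have h3 : (rm N A φ g K - rm N A φ g j) ^ 2 ≤ |(K : ℝ) - j| * H := by
    have hHn : ∀ (a : ℤ) (n : ℕ), n ≤ N →
        (rm N A φ g (a + n) - rm N A φ g a) ^ 2 ≤ n * H := fun a n hn =>
      (rm_sq N A φ g a n).trans (mul_le_mul_of_nonneg_left (hH a n hn) (Nat.cast_nonneg _))
    have hdist : |(K : ℝ) - j| ≤ N := by
      calc |(K : ℝ) - j| ≤ 13 / 9 * u := h2
        _ ≤ 13 / 9 * (N / 2) := by linarith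
        _ ≤ N := by linarith
    rcases le_total j K with hjK | hjK
    · obtain ⟨n, hn⟩ := Int.eq_ofNat_of_zero_le (sub_nonneg.mpr hjK)
      have hK' : K = j + n := by omega
      have e1 : |(K : ℝ) - j| = n := by
        rw [hK']; push_cast
        rw [add_sub_cancel_left, abs_of_nonneg (Nat.cast_nonneg _)]
      rw [e1] at hdist ⊢
      rw [hK']
      exact hHn j n (by exact_mod_cast hdist)
    · obtain ⟨n, hn⟩ := Int.eq_ofNat_of_zero_le (sub_nonneg.mpr hjK)
      have hK' : j = K + n := by omega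
      have e1 : |(K : ℝ) - j| = n := by
        rw [hK']; push_cast
        rw [sub_add_cancel_left, abs_neg, abs_of_nonneg (Nat.cast_nonneg _)]
      rw [e1] at hdist ⊢
      rw [hK']
      have := hHn K n (by exact_mod_cast hdist)
      calc (rm N A φ g K - rm N A φ g (K + n)) ^ 2 = (rm N A φ g (K + n) - rm N A φ g K) ^ 2 := by
            ring
        _ ≤ _ := this
  have hH0 : 0 ≤ H := (es_nonneg N A φ g 0 0).trans (hH 0 0 (Nat.zero_le _))
  have h4 : (A * ((θ * u) ^ 2 / 10)) ^ 2 ≤ 13 / 9 * u * H := by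
    calc (A * ((θ * u) ^ 2 / 10)) ^ 2 ≤ (rm N A φ g K - rm N A φ g j) ^ 2 :=
          pow_le_pow_left₀ (by positivity) h1 2
      _ ≤ |(K : ℝ) - j| * H := h3
      _ ≤ _ := mul_le_mul_of_nonneg_right h2 hH0
  rcases eq_or_lt_of_le hu0 with h0 | hpos
  · rw [← h0]
    simp
    positivity
  · have h5 : u * (A ^ 2 * θ ^ 4 * u ^ 3) ≤ u * (1300 / 9 * H) := by
      calc u * (A ^ 2 * θ ^ 4 * u ^ 3) = 100 * (A * ((θ * u) ^ 2 / 10)) ^ 2 := by ring
        _ ≤ 100 * (13 / 9 * u * H) := by linarith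
        _ = u * (1300 / 9 * H) := by ring
    exact le_of_mul_le_mul_left h5 hpos

/-- Version for a minimum of `g`. -/
theorem min_pos {N : ℕ} (hN : 0 < N) {A φ H : ℝ} (hA : 0 ≤ A) {g : ℤ → ℝ}
    (hH : ∀ (i : ℤ) (n : ℕ), n ≤ N → es N A φ g i n ≤ H)
    {K j : ℤ} (hK : g K ≤ g j) {z : ℝ} {n₀ : ℤ}
    (hz : 2 * Real.pi / N * z - φ = n₀ * (2 * Real.pi) + Real.pi)
    (hu : |(K : ℝ) - z| ≤ N / 2) (hj : |(j : ℝ) - z| ≤ 4 / 9 * |(K : ℝ) - z|) :
    A ^ 2 * (2 * Real.pi / N) ^ 4 * |(K : ℝ) - z| ^ 3 ≤ 1300 / 9 * H := by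
  have hmd : ∀ i : ℤ, md N A (φ + Real.pi) i = - md N A φ i := by
    intro i
    unfold md
    have : 2 * Real.pi / N * (i : ℝ) - (φ + Real.pi) = (2 * Real.pi / N * i - φ) - Real.pi := by
      ring
    rw [this, Real.cos_sub_pi]; ring
  have hrm : ∀ i : ℤ, rm N A (φ + Real.pi) (fun k => - g k) i = - rm N A φ g i := by
    intro i
    unfold rm
    rw [hmd]; ring
  have hes : ∀ (i : ℤ) (n : ℕ), es N A (φ + Real.pi) (fun k => - g k) i n = es N A φ g i n := by
    intro i n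
    unfold es
    refine sum_congr rfl fun k _ => ?_
    unfold en
    rw [hrm, hrm]; ring
  refine max_pos (g := fun k => - g k) (φ := φ + Real.pi) (j := j) (n₀ := n₀) hN hA ?_ ?_ ?_ hu hj
  · intro i n hn
    rw [hes]
    exact hH i n hn
  · exact neg_le_neg hK
  · linarith

theorem sin_low {x : ℝ} (h0 : 0 ≤ x) (h1 : x ≤ 3 * Real.pi / 4) : x / 5 ≤ Real.sin x := by
  have hpi := Real.pi_lt_d2
  have hpi3 := Real.pi_gt_three
  rcases le_or_gt x (Real.pi / 2) with h | h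
  · have h2 := Real.mul_le_sin h0 h
    have h3 : (1 / 5 : ℝ) ≤ 2 / Real.pi := by
      rw [div_le_div_iff₀ (by norm_num) (by linarith)]
      linarith
    have h4 := mul_le_mul_of_nonneg_right h3 h0
    linarith
  · have h2 := Real.mul_le_sin (x := Real.pi - x) (by linarith) (by linarith)
    rw [Real.sin_pi_sub] at h2
    have h3 : (1 / 2 : ℝ) ≤ 2 / Real.pi * (Real.pi - x) := by
      rw [div_mul_eq_mul_div, le_div_iff₀ (by linarith)]
      linarith
    linarith

/-- The two possibilities for a closed piece `[s, s + n)` of the walk. -/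
theorem loop_main {N : ℕ} (hN : 0 < N) {A φ H : ℝ} (hA : 0 ≤ A) {g : ℤ → ℝ}
    (hH : ∀ (i : ℤ) (n : ℕ), n ≤ N → es N A φ g i n ≤ H)
    {P Q : ℤ} (hP : ∀ j, g j ≤ g P) (hQ : ∀ j, g Q ≤ g j) (hper : ∀ i, g (i + N) = g i)
    {s : ℤ} {n : ℕ} (hn : 2 ≤ n) (hn3 : 4 * n ≤ 3 * N) (hs : g (s + n) = g s)
    (hPs : ∀ k : ℤ, ¬ (s < P + k * N ∧ P + k * N < s + n))
    (hQs : ∀ k : ℤ, ¬ (s < Q + k * N ∧ Q + k * N < s + n)) :
    ∃ z : ℝ, (∃ n₁ : ℤ, 2 * Real.pi / N * z - φ = n₁ * Real.pi) ∧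
      (((n : ℝ) / 8 ≤ |(s + n / 2 : ℝ) - z| ∧
        4 / (25 * Real.pi ^ 2) * (A ^ 2 * (2 * Real.pi / N) ^ 4 * |(s + n / 2 : ℝ) - z| ^ 2 * n) ≤
          es N A φ g s n) ∨
      (|(s + n / 2 : ℝ) - z| < (n : ℝ) / 8 ∧ ∃ u : ℝ, 3 * n / 8 ≤ u ∧
        A ^ 2 * (2 * Real.pi / N) ^ 4 * u ^ 3 ≤ 1300 / 9 * H)) := by
  set θ := 2 * Real.pi / N with hθ
  have hNpos : (0 : ℝ) < N := by exact_mod_cast hN
  have hpi := Real.pi_pos
  have hθ0 : 0 < θ := by positivity
  have hn' : (2 : ℝ) ≤ n := by exact_mod_cast hn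
  set mid : ℝ := s + n / 2 with hmid
  set n₁ : ℤ := round ((θ * mid - φ) / Real.pi) with hn₁
  set z : ℝ := (φ + n₁ * Real.pi) / θ with hz
  have hzθ : θ * z - φ = n₁ * Real.pi := by
    rw [hz]; field_simp; ring
  have hper' : ∀ (i k : ℤ), g (i + k * N) = g i := by
    intro i k
    have h1 : Function.Periodic g (N : ℤ) := hper
    exact h1.int_mul k i
  set p := |mid - z| with hp
  have hp0 : 0 ≤ p := abs_nonneg _
  have hθp : θ * p ≤ Real.pi / 2 := by
    have h1 := abs_sub_round ((θ * mid - φ) / Real.pi)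
    rw [← hn₁] at h1
    have h2 : θ * p = Real.pi * |(θ * mid - φ) / Real.pi - n₁| := by
      rw [hp, ← abs_of_pos hθ0, ← abs_mul, ← abs_of_pos hpi, ← abs_mul, abs_of_pos hθ0,
        abs_of_pos hpi]
      congr 1
      have : θ * (mid - z) = θ * mid - φ - (θ * z - φ) := by ring
      rw [this, hzθ]
      field_simp
    rw [h2]
    nlinarith
  refine ⟨z, ⟨n₁, hzθ⟩, ?_⟩
  rcases le_or_gt ((n : ℝ) / 8) p with hgood | hbad
  · left
    refine ⟨hgood, ?_⟩
    have h1 : rm N A φ g (s + n) - rm N A φ g s =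
        2 * A * (Real.sin (θ * mid - φ) * Real.sin (θ * n / 2)) := by
      have e1 : rm N A φ g (s + n) - rm N A φ g s = md N A φ s - md N A φ (s + n) := by
        unfold rm; rw [hs]; ring
      rw [e1]
      unfold md
      rw [← mul_sub, Real.cos_sub_cos]
      have e2 : (2 * Real.pi / N * (s : ℝ) - φ + (2 * Real.pi / N * ((s + n : ℤ) : ℝ) - φ)) / 2 =
          θ * mid - φ := by
        rw [← hθ, hmid]; push_cast; ring
      have e3 : (2 * Real.pi / N * (s : ℝ) - φ - (2 * Real.pi / N * ((s + n : ℤ) : ℝ) - φ)) / 2 =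
          - (θ * n / 2) := by
        rw [← hθ]; push_cast; ring
      rw [e2, e3, Real.sin_neg]
      ring
    have h2 := rm_sq N A φ g s n
    rw [h1] at h2
    have h3 : (2 / Real.pi * (θ * p)) ^ 2 ≤ Real.sin (θ * mid - φ) ^ 2 := by
      have e1 : Real.sin (θ * mid - φ) ^ 2 = Real.sin (θ * p) ^ 2 := by
        have e2 : θ * mid - φ = θ * (mid - z) + n₁ * Real.pi := by
          rw [← hzθ]; ring
        rw [e2, Real.sin_add_int_mul_pi, mul_pow]
        have e3 : ((-1 : ℝ) ^ n₁) ^ 2 = 1 := by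
          rw [← zpow_natCast, ← zpow_mul, mul_comm, zpow_mul]
          norm_num
        rw [e3, one_mul, hp]
        rcases abs_cases (mid - z) with ⟨h, _⟩ | ⟨h, _⟩
        · rw [h]
        · rw [h, mul_neg, Real.sin_neg, neg_sq]
      rw [e1]
      apply pow_le_pow_left₀ (by positivity)
      exact Real.mul_le_sin (by positivity) hθp
    have h4 : (θ * n / 2 / 5) ^ 2 ≤ Real.sin (θ * n / 2) ^ 2 := by
      apply pow_le_pow_left₀ (by positivity)
      apply sin_low (by positivity)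
      rw [hθ]
      have : (4 : ℝ) * n ≤ 3 * N := by exact_mod_cast hn3
      rw [div_mul_eq_mul_div, div_div, div_le_div_iff₀ (by positivity) (by norm_num)]
      nlinarith
    have h5 : (2 / Real.pi * (θ * p)) ^ 2 * (θ * n / 2 / 5) ^ 2 ≤
        (Real.sin (θ * mid - φ) * Real.sin (θ * n / 2)) ^ 2 := by
      rw [mul_pow (Real.sin _)]
      exact mul_le_mul h3 h4 (by positivity) (by positivity)
    have h6 : n * (4 / (25 * Real.pi ^ 2) * (A ^ 2 * θ ^ 4 * p ^ 2 * n)) ≤ n * es N A φ g s n := by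
      calc n * (4 / (25 * Real.pi ^ 2) * (A ^ 2 * θ ^ 4 * p ^ 2 * n))
          = (2 * A) ^ 2 * ((2 / Real.pi * (θ * p)) ^ 2 * (θ * n / 2 / 5) ^ 2) := by
            field_simp; ring
        _ ≤ (2 * A) ^ 2 * (Real.sin (θ * mid - φ) * Real.sin (θ * n / 2)) ^ 2 :=
            mul_le_mul_of_nonneg_left h5 (by positivity)
        _ = (2 * A * (Real.sin (θ * mid - φ) * Real.sin (θ * n / 2))) ^ 2 := by ring
        _ ≤ n * es N A φ g s n := h2
    exact le_of_mul_le_mul_left h6 (by linarith)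
  · right
    refine ⟨hbad, ?_⟩
    have hpz := abs_lt.mp (show |mid - z| < (n : ℝ) / 8 from hbad)
    -- a translate of a point `R` at distance at most `N / 2` from `z`, outside the piece
    have key : ∀ R : ℤ, (∀ k : ℤ, ¬ (s < R + k * N ∧ R + k * N < s + n)) →
        ∃ k j : ℤ, |((R + k * N : ℤ) : ℝ) - z| ≤ N / 2 ∧
          3 * n / 8 ≤ |((R + k * N : ℤ) : ℝ) - z| ∧
          |(j : ℝ) - z| ≤ 4 / 9 * |((R + k * N : ℤ) : ℝ) - z| := by
      intro R hR
      set k : ℤ := round ((z - R) / N) with hk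
      have h1 : |((R + k * N : ℤ) : ℝ) - z| ≤ N / 2 := by
        have e1 := abs_sub_round ((z - R) / N)
        rw [← hk] at e1
        have e2 : |((R + k * N : ℤ) : ℝ) - z| = N * |(z - R) / N - k| := by
          rw [← abs_of_pos hNpos, ← abs_mul, abs_of_pos hNpos, ← abs_neg]
          congr 1
          push_cast
          field_simp
          ring
        rw [e2]
        nlinarith
      have h2 : 3 * n / 8 ≤ |((R + k * N : ℤ) : ℝ) - z| := by
        have e1 := hR k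
        rw [not_and_or, not_lt, not_lt] at e1
        rcases e1 with e1 | e1
        · have e2 : ((R + k * N : ℤ) : ℝ) ≤ s := by exact_mod_cast e1
          rw [abs_of_nonpos (by linarith)]
          linarith
        · have e2 : (s : ℝ) + n ≤ ((R + k * N : ℤ) : ℝ) := by exact_mod_cast e1
          rw [abs_of_nonneg (by linarith)]
          linarith
      rcases eq_or_lt_of_le hn with h3 | h3
      · refine ⟨k, s + 1, h1, h2, ?_⟩
        have e1 : (n : ℝ) = 2 := by exact_mod_cast h3.symm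
        have e2 : (((s + 1 : ℤ)) : ℝ) - z = mid - z := by
          rw [hmid, e1]; push_cast; ring
        rw [e2]
        rw [e1] at h2 hbad
        linarith
      · refine ⟨k, round z, h1, h2, ?_⟩
        have e1 := abs_sub_round z
        rw [abs_sub_comm] at e1
        have e3 : (3 : ℝ) ≤ n := by exact_mod_cast h3
        linarith
    rcases Int.even_or_odd' n₁ with ⟨n₀, h | h⟩
    · obtain ⟨k, j, h1, h2, h3⟩ := key P hPs
      refine ⟨_, h2, ?_⟩
      apply max_pos hN hA hH (K := P + k * N) (j := j) (z := z) (n₀ := n₀) _ _ h1 h3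
      · rw [hper']; exact hP j
      · rw [← hθ, hzθ, h]; push_cast; ring
    · obtain ⟨k, j, h1, h2, h3⟩ := key Q hQs
      refine ⟨_, h2, ?_⟩
      apply min_pos hN hA hH (K := Q + k * N) (j := j) (z := z) (n₀ := n₀) _ _ h1 h3
      · rw [hper']; exact hQ j
      · rw [← hθ, hzθ, h]; push_cast; ring

end Pool.Agent.H43.Stab
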