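import Mathlib
import Pool.Agent.Results.MP_ea35a0_co.ExactMax
import Pool.Agent.H43.Stab.LeafPath

set_option autoImplicit false

namespace Pool.Agent.H43.Stab

open Finset
open Pool.Agent.Results.MP_ea35a0_co.ExactMax

/-- Split a sum over the edges of `leafPath` into the path and the leaves. -/
theorem split_sum' (m k L q : ℕ) (hm : L + k = m) (W : ℕ → ℕ → ℝ) :
    ∑ i ∈ range m, W (par L q (i + 1)) (i + 1) =
      ∑ i ∈ range L, W i (i + 1) + ∑ x ∈ range k, W q (L + x + 1) := by
  rw [← hm, Finset.sum_range_add]
  congr 1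
  · refine Finset.sum_congr rfl fun i hi => ?_
    rw [Finset.mem_range] at hi
    have : par L q (i + 1) = i := by
      unfold par
      rw [if_pos (by omega)]
      rfl
    rw [this]
  · refine Finset.sum_congr rfl fun x _ => ?_
    have : par L q (L + x + 1) = q := by
      unfold par
      rw [if_neg (by omega)]
    rw [this]

/-- recursion of the cosines -/
theorem cos_rec {φ a : ℝ} {N : ℕ} (G : ℕ → ℝ) (h0 : G 0 = a) (h1 : 1 ≤ N → G 1 = Real.cos φ * G 0)
    (h2 : ∀ i, 1 ≤ i → i + 1 ≤ N → G (i - 1) + G (i + 1) = 2 * Real.cos φ * G i) :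
    ∀ i, i ≤ N → G i = a * Real.cos (φ * i) := by
  intro i
  induction i using Nat.strong_induction_on with
  | _ i ih =>
    intro hi
    rcases Nat.lt_trichotomy i 1 with h | h | h
    · have : i = 0 := by omega
      subst this
      simp [h0]
    · subst h
      rw [h1 hi, h0]
      simp
      ring
    · obtain ⟨j, rfl⟩ : ∃ j, i = j + 2 := ⟨i - 2, by omega⟩
      have e1 := h2 (j + 1) (by omega) (by omega)
      have e2 : j + 1 - 1 = j := by omega
      have e3 : j + 1 + 1 = j + 2 := rfl
      rw [e2, e3, ih j (by omega) (by omega), ih (j + 1) (by omega) (by omega)] at e1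
      have e4 : G (j + 2) = a * (2 * Real.cos φ * Real.cos (φ * (j + 1 : ℕ)) - Real.cos (φ * j)) := by
        linarith
      rw [e4]
      congr 1
      have e5 : φ * (j : ℝ) = φ * ((j + 1 : ℕ) : ℝ) - φ := by push_cast; ring
      have e6 : φ * ((j + 2 : ℕ) : ℝ) = φ * ((j + 1 : ℕ) : ℝ) + φ := by push_cast; ring
      rw [e5, e6, Real.cos_sub, Real.cos_add]
      ring

/-- The tree obtained from the path with `2h` edges by attaching leaves to the central vertex has
the relaxation time of this path. -/
theorem star_eig (m h : ℕ) (hh : 1 ≤ h) (hm : 2 * h ≤ m) {μ : ℝ}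
    (hμ : IsEig (leafPath m (2 * h) h (by omega)) μ) (hne : μ ≠ 1) :
    μ ≤ Real.cos (Real.pi / (2 * h : ℕ)) := by
  classical
  set G := leafPath m (2 * h) h (by omega) with hGdef
  have hG : G.Connected := leafPath_connected _ _ _ _
  have hmE : G.edgeSet.ncard = m := leafPath_edges _ _ _ _
  have hm1 : 1 ≤ m := by omega
  have hpi := Real.pi_pos
  have hhpos : (0 : ℝ) < h := by exact_mod_cast hh
  have hle := eig_le G hG hmE hm1 hμ hne
  have hc := one_sub_cos_pos m hm1
  by_contra hcon
  push Not at hcon
  have h2h : (0 : ℝ) < (2 * h : ℕ) := by exact_mod_cast (by omega : 0 < 2 * h)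
  have hang : Real.pi / (2 * h : ℕ) ≤ Real.pi / 2 := by
    apply div_le_div_of_nonneg_left hpi.le (by norm_num)
    push_cast
    have : (1 : ℝ) ≤ h := by exact_mod_cast hh
    linarith
  have hμ0 : 0 < μ := by
    have : 0 ≤ Real.cos (Real.pi / (2 * h : ℕ)) := by
      apply Real.cos_nonneg_of_mem_Icc
      constructor
      · have : 0 < Real.pi / (2 * h : ℕ) := by positivity
        linarith
      · exact hang
    linarith
  have hμ1 : μ < 1 := by linarith
  set φ := Real.arccos μ with hφ
  have hcosφ : Real.cos φ = μ := Real.cos_arccos (by linarith) hμ1.le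
  have hφ0 : 0 < φ := Real.arccos_pos.mpr hμ1
  have hφ1 : φ < Real.pi / (2 * h : ℕ) := by
    rw [hφ]
    have h1 : Real.arccos (Real.cos (Real.pi / (2 * h : ℕ))) = Real.pi / (2 * h : ℕ) := by
      apply Real.arccos_cos
      · positivity
      · linarith
    rw [← h1]
    apply Real.arccos_lt_arccos
    · exact Real.neg_one_le_cos _
    · exact hcon
    · exact hμ1.le
  have hφh : φ * h < Real.pi / 2 := by
    have h1 : φ * (2 * h : ℕ) < Real.pi := by
      rwa [lt_div_iff₀ h2h] at hφ1
    push_cast at h1
    linarith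
  have hcosh : 0 < Real.cos (φ * h) := by
    apply Real.cos_pos_of_mem_Ioo
    constructor
    · have : 0 < φ * h := by positivity
      linarith
    · exact hφh
  have hsinh : 0 < Real.sin (φ * h) := by
    apply Real.sin_pos_of_pos_of_lt_pi
    · positivity
    · linarith
  have hsin : 0 < Real.sin φ := by
    apply Real.sin_pos_of_pos_of_lt_pi hφ0
    linarith
  obtain ⟨f, hf0, hf⟩ := hμ
  have hdp := degree_pos G hG hmE hm1
  rw [eig_iff G (by intro v; convert hdp v) μ f] at hf
  -- the function on the naturals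
  set F : ℕ → ℝ := fun i => if hi : i < m + 1 then f ⟨i, hi⟩ else 0 with hF
  have hFf : ∀ v : Fin (m + 1), f v = F v.val := by
    intro v
    rw [hF]
    simp only [dif_pos v.isLt]
  have hbase : ∀ i, i < m + 1 → (if i ≠ 0 then F (par (2 * h) h i) else 0) +
      ∑ j ∈ range m, (if par (2 * h) h (j + 1) = i then F (j + 1) else 0) =
      μ * ((if i ≠ 0 then 1 else 0) +
        ∑ j ∈ range m, (if par (2 * h) h (j + 1) = i then (1 : ℝ) else 0)) * F i := by
    intro i hi
    have h1 := hf ⟨i, hi⟩
    have h2 := leafPath_nbr m (2 * h) h (by omega) ⟨i, hi⟩ F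
    have h3 := leafPath_nbr m (2 * h) h (by omega) ⟨i, hi⟩ (fun _ => 1)
    have h4 : ∑ u : Fin (m + 1), (if G.Adj ⟨i, hi⟩ u then f u else 0) =
        ∑ u : Fin (m + 1), (if G.Adj ⟨i, hi⟩ u then F u.val else 0) := by
      refine Finset.sum_congr rfl fun u _ => ?_
      rw [hFf u]
    rw [h4, degree_real, hFf ⟨i, hi⟩] at h1
    simp only at h1 h2 h3
    rw [← h2, ← h3]
    exact h1
  -- children of a vertex of the path different from the centre
  have hchild : ∀ (H : ℕ → ℝ) (i : ℕ), i < 2 * h → i ≠ h →
      ∑ j ∈ range m, (if par (2 * h) h (j + 1) = i then H (j + 1) else 0) = H (i + 1) := by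
    intro H i hi hih
    rw [Finset.sum_eq_single i]
    · rw [if_pos]
      unfold par
      rw [if_pos (by omega)]
      rfl
    · intro j _ hji
      rw [if_neg]
      unfold par
      split_ifs <;> omega
    · intro hi'
      exact absurd (Finset.mem_range.mpr (by omega)) hi'
  have hlastc : ∀ (H : ℕ → ℝ), ∑ j ∈ range m, (if par (2 * h) h (j + 1) = 2 * h then H (j + 1) else 0) = 0 := by
    intro H
    apply Finset.sum_eq_zero
    intro j _
    rw [if_neg]
    unfold par
    split_ifs <;> omega
  have hleafc : ∀ (H : ℕ → ℝ) (i : ℕ), 2 * h < i →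
      ∑ j ∈ range m, (if par (2 * h) h (j + 1) = i then H (j + 1) else 0) = 0 := by
    intro H i hi
    apply Finset.sum_eq_zero
    intro j _
    rw [if_neg]
    unfold par
    split_ifs <;> omega
  have hcent : ∀ (H : ℕ → ℝ), ∑ j ∈ range m, (if par (2 * h) h (j + 1) = h then H (j + 1) else 0) =
      H (h + 1) + ∑ x ∈ range (m - 2 * h), H (2 * h + x + 1) := by
    intro H
    have h1 := split_sum' m (m - 2 * h) (2 * h) h (by omega) (fun p j => if p = h then H j else 0)
    rw [h1]
    congr 1
    · rw [Finset.sum_eq_single h]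
      · rw [if_pos rfl]
      · intro j _ hj
        rw [if_neg hj]
      · intro h'
        exact absurd (Finset.mem_range.mpr (by omega)) h'
    · refine Finset.sum_congr rfl fun x _ => ?_
      rw [if_pos rfl]
  -- equations
  have E0 : F 1 = μ * F 0 := by
    have h1 := hbase 0 (by omega)
    rw [hchild F 0 (by omega) (by omega), hchild (fun _ => 1) 0 (by omega) (by omega)] at h1
    simp at h1
    exact h1
  have Ei : ∀ i, 1 ≤ i → i < 2 * h → i ≠ h → F (i - 1) + F (i + 1) = 2 * μ * F i := by
    intro i hi1 hi2 hih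
    have h1 := hbase i (by omega)
    rw [hchild F i hi2 hih, hchild (fun _ => 1) i hi2 hih, if_pos (by omega), if_pos (by omega)] at h1
    have h2 : par (2 * h) h i = i - 1 := by
      unfold par
      rw [if_pos (by omega)]
    rw [h2] at h1
    linarith
  have Elast : F (2 * h - 1) = μ * F (2 * h) := by
    have h1 := hbase (2 * h) (by omega)
    rw [hlastc F, hlastc (fun _ => 1), if_pos (by omega), if_pos (by omega)] at h1
    have h2 : par (2 * h) h (2 * h) = 2 * h - 1 := by
      unfold par
      rw [if_pos le_rfl]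
    rw [h2] at h1
    linarith
  have Eleaf : ∀ i, 2 * h < i → i < m + 1 → F h = μ * F i := by
    intro i hi1 hi2
    have h1 := hbase i hi2
    rw [hleafc F i hi1, hleafc (fun _ => 1) i hi1, if_pos (by omega), if_pos (by omega)] at h1
    have h2 : par (2 * h) h i = h := by
      unfold par
      rw [if_neg (by omega)]
    rw [h2] at h1
    linarith
  -- the left half and the right half
  have hleft : ∀ i, i ≤ h → F i = F 0 * Real.cos (φ * i) := by
    apply cos_rec F rfl
    · intro _
      rw [hcosφ]; exact E0
    · intro i h1 h2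
      rw [hcosφ]
      exact Ei i h1 (by omega) (by omega)
  have hright : ∀ i, i ≤ h → F (2 * h - i) = F (2 * h) * Real.cos (φ * i) := by
    apply cos_rec (fun i => F (2 * h - i)) rfl
    · intro _
      rw [hcosφ]; exact Elast
    · intro i h1 h2
      rw [hcosφ]
      have h3 := Ei (2 * h - i) (by omega) (by omega) (by omega)
      have e1 : 2 * h - (i - 1) = 2 * h - i + 1 := by omega
      have e2 : 2 * h - (i + 1) = 2 * h - i - 1 := by omega
      rw [e1, e2]
      linarith
  have hmid : F h = F 0 * Real.cos (φ * h) := hleft h le_rfl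
  have hmid' : F h = F (2 * h) * Real.cos (φ * h) := by
    have h1 := hright h le_rfl
    have e : 2 * h - h = h := by omega
    rwa [e] at h1
  have hends : F (2 * h) = F 0 := by
    have h1 : F (2 * h) * Real.cos (φ * h) = F 0 * Real.cos (φ * h) := by rw [← hmid', hmid]
    exact mul_right_cancel₀ hcosh.ne' h1
  -- the equation in the centre
  have hleafv : ∀ x ∈ range (m - 2 * h), F (2 * h + x + 1) = F h / μ := by
    intro x hx
    rw [Finset.mem_range] at hx
    rw [eq_div_iff hμ0.ne', Eleaf (2 * h + x + 1) (by omega) (by omega)]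
    ring
  have hcentre := hbase h (by omega)
  rw [hcent F, hcent (fun _ => 1), if_pos (by omega), if_pos (by omega)] at hcentre
  have hp : par (2 * h) h h = h - 1 := by
    unfold par
    rw [if_pos (by omega)]
  rw [hp, Finset.sum_congr rfl hleafv, Finset.sum_const, Finset.sum_const, Finset.card_range] at hcentre
  simp only [nsmul_eq_mul, mul_one] at hcentre
  set K := ((m - 2 * h : ℕ) : ℝ) with hK
  have hK0 : 0 ≤ K := by positivity
  have hm1' : F (h - 1) = F 0 * (Real.cos (φ * h) * Real.cos φ + Real.sin (φ * h) * Real.sin φ) := by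
    rw [hleft (h - 1) (by omega), Nat.cast_sub hh, ← Real.cos_sub]
    congr 2
    push_cast
    ring
  have hp1' : F (h + 1) = F 0 * (Real.cos (φ * h) * Real.cos φ + Real.sin (φ * h) * Real.sin φ) := by
    have h1 := hright (h - 1) (by omega)
    have e : 2 * h - (h - 1) = h + 1 := by omega
    rw [e, hends, Nat.cast_sub hh] at h1
    rw [h1, ← Real.cos_sub]
    congr 2
    push_cast
    ring
  rw [hm1', hp1', hmid, hcosφ] at hcentre
  have hF0 : F 0 = 0 := by
    have h1 : F 0 * (2 * (Real.sin (φ * h) * Real.sin φ) +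
        K * Real.cos (φ * h) * (1 / μ - μ)) = 0 := by
      field_simp at hcentre ⊢
      linarith
    rcases mul_eq_zero.mp h1 with h2 | h2
    · exact h2
    · exfalso
      have h3 : 0 < 1 / μ - μ := by
        rw [sub_pos, lt_div_iff₀ hμ0]
        nlinarith
      have h4 : 0 < Real.sin (φ * h) * Real.sin φ := mul_pos hsinh hsin
      have h5 : 0 ≤ K * Real.cos (φ * h) * (1 / μ - μ) := by positivity
      linarith
  apply hf0
  funext v
  rw [hFf v]
  show F v.val = 0
  by_cases h1 : v.val ≤ h
  · rw [hleft v.val h1, hF0, zero_mul]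
  · by_cases h2 : v.val ≤ 2 * h
    · have h3 := hright (2 * h - v.val) (by omega)
      have e : 2 * h - (2 * h - v.val) = v.val := by omega
      rw [e, hends, hF0, zero_mul] at h3
      exact h3
    · have h3 := Eleaf v.val (by omega) v.isLt
      rw [hmid, hF0, zero_mul] at h3
      rcases mul_eq_zero.mp h3.symm with h4 | h4
      · exact absurd h4 hμ0.ne'
      · exact h4

end Pool.Agent.H43.Stab
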