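import Mathlib
import Pool.Agent.Results.MP_ea35a0_co.ExactMax
import Pool.Agent.H43.Stab.LowerB

set_option autoImplicit false

namespace Pool.Agent.H43.Stab

open Finset
open Pool.Agent.Results.MP_ea35a0_co.ExactMax

/-- A connected graph with `m` edges and diameter `m` is the path. -/
theorem iso_of_diam {n m : ℕ} (G : SimpleGraph (Fin n)) (hG : G.Connected)
    (hm : G.edgeSet.ncard = m) (hD : G.diam = m) :
    Nonempty (SimpleGraph.pathGraph (m + 1) ≃g G) := by
  classical
  obtain ⟨x, P, hP, hadj⟩ := exists_geodesic G hG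
  rw [hD] at hP hadj
  have hinj : ∀ i j, i ≤ m → j ≤ m → P i = P j → i = j := by
    intro i j hi hj hij
    have h1 := hP i hi
    have h2 := hP j hj
    rw [hij, h2] at h1
    exact h1.symm
  set φ : Fin (m + 1) → Fin n := fun i => P i.val with hφ
  have hφinj : Function.Injective φ := by
    intro i j hij
    exact Fin.ext (hinj i.val j.val (by omega) (by omega) hij)
  have hcard : n = m + 1 := by
    have h1 := hG.card_vert_le_card_edgeSet_add_one
    rw [Nat.card_eq_fintype_card (α := Fin n), Fintype.card_fin, Nat.card_coe_set_eq, hm] at h1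
    have h2 := Fintype.card_le_of_injective φ hφinj
    rw [Fintype.card_fin, Fintype.card_fin] at h2
    omega
  have hbij : Function.Bijective φ := by
    rw [Fintype.bijective_iff_injective_and_card]
    exact ⟨hφinj, by rw [Fintype.card_fin, Fintype.card_fin]; exact hcard.symm⟩
  -- all edges are on the path
  have hedge : ∀ u v, G.Adj u v → ∃ j, j < m ∧ ((P j = u ∧ P (j + 1) = v) ∨ (P j = v ∧ P (j + 1) = u)) := by
    intro a b hab
    by_contra hcon
    push Not at hcon
    have h1 := sum_adj_ge G x P hP hadj (fun u v => if (u = a ∧ v = b) ∨ (u = b ∧ v = a) then 0 else 1)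
      (fun u v _ => by split_ifs <;> norm_num)
    have h2 : ∑ j ∈ range m, ((fun u v => if (u = a ∧ v = b) ∨ (u = b ∧ v = a) then (0 : ℝ) else 1) (P j) (P (j + 1)) +
        (fun u v => if (u = a ∧ v = b) ∨ (u = b ∧ v = a) then (0 : ℝ) else 1) (P (j + 1)) (P j)) = 2 * m := by
      have h3 : ∀ j ∈ range m, ((fun u v => if (u = a ∧ v = b) ∨ (u = b ∧ v = a) then (0 : ℝ) else 1) (P j) (P (j + 1)) +
          (fun u v => if (u = a ∧ v = b) ∨ (u = b ∧ v = a) then (0 : ℝ) else 1) (P (j + 1)) (P j)) = 2 := by
        intro j hj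
        rw [Finset.mem_range] at hj
        have h4 := hcon j hj
        simp only
        rw [if_neg, if_neg]
        · norm_num
        · rintro (⟨h5, h6⟩ | ⟨h5, h6⟩)
          · exact h4.2 h6 h5
          · exact h4.1 h6 h5
        · rintro (⟨h5, h6⟩ | ⟨h5, h6⟩)
          · exact h4.1 h5 h6
          · exact h4.2 h5 h6
      rw [Finset.sum_congr rfl h3, Finset.sum_const, Finset.card_range, nsmul_eq_mul]
      ring
    rw [h2] at h1
    have h3 := sum_adj_const G hm 1
    have h4 : ∑ u, ∑ v, (if G.Adj u v then (if (u = a ∧ v = b) ∨ (u = b ∧ v = a) then (0 : ℝ) else 1) else 0) ≤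
        ∑ u, ∑ v, (if G.Adj u v then (1 : ℝ) else 0) - 1 := by
      rw [le_sub_iff_add_le]
      have h5 : (1 : ℝ) ≤ ∑ u, ∑ v, (if u = a ∧ v = b then (1 : ℝ) else 0) := by
        have h6 : ∑ v, (if a = a ∧ v = b then (1 : ℝ) else 0) ≤ ∑ u, ∑ v, (if u = a ∧ v = b then (1 : ℝ) else 0) :=
          Finset.single_le_sum (f := fun u => ∑ v, (if u = a ∧ v = b then (1 : ℝ) else 0))
            (fun u _ => Finset.sum_nonneg fun v _ => by split_ifs <;> norm_num) (Finset.mem_univ a)
        have h7 : (if a = a ∧ b = b then (1 : ℝ) else 0) ≤ ∑ v, (if a = a ∧ v = b then (1 : ℝ) else 0) :=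
          Finset.single_le_sum (f := fun v => (if a = a ∧ v = b then (1 : ℝ) else 0))
            (fun v _ => by split_ifs <;> norm_num) (Finset.mem_univ b)
        rw [if_pos ⟨rfl, rfl⟩] at h7
        linarith
      refine le_trans (add_le_add_right h5 _) ?_
      rw [← Finset.sum_add_distrib]
      refine Finset.sum_le_sum fun u _ => ?_
      rw [← Finset.sum_add_distrib]
      refine Finset.sum_le_sum fun v _ => ?_
      by_cases h8 : u = a ∧ v = b
      · rw [if_pos h8, if_pos (Or.inl h8)]
        obtain ⟨rfl, rfl⟩ := h8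
        rw [if_pos hab, if_pos hab]
        norm_num
      · rw [if_neg h8]
        split_ifs <;> norm_num
    linarith
  refine ⟨⟨Equiv.ofBijective φ hbij, ?_⟩⟩
  intro i j
  rw [Equiv.ofBijective_apply, Equiv.ofBijective_apply, SimpleGraph.pathGraph_adj]
  constructor
  · intro h
    obtain ⟨k, hk, h1 | h1⟩ := hedge _ _ h
    · left
      have e1 := hinj k i.val (by omega) (by omega) h1.1
      have e2 := hinj (k + 1) j.val (by omega) (by omega) h1.2
      omega
    · right
      have e1 := hinj k j.val (by omega) (by omega) h1.1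
      have e2 := hinj (k + 1) i.val (by omega) (by omega) h1.2
      omega
  · rintro (h | h)
    · have h1 := hadj i.val (by omega)
      rw [h] at h1
      exact h1
    · have h1 := hadj j.val (by omega)
      rw [h] at h1
      exact h1.symm

end Pool.Agent.H43.Stab
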