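import Mathlib

set_option autoImplicit false
set_option linter.unusedSectionVars false

/-! Stability in the discrete Wirtinger inequality on a cycle. -/

namespace Pool.Agent.H43.Stab

open Finset

section Wirt

variable {N : ℕ} [NeZero N]

/-- The additive character `x ↦ exp (2 π i x / N)`. -/
noncomputable abbrev ec (x : ZMod N) : ℂ := ZMod.stdAddChar x

/-- Fourier transform on `ZMod N`. -/
noncomputable def FT (F : ZMod N → ℂ) (k : ZMod N) : ℂ := ∑ j, F j * ec (j * k)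

theorem ec_conj (x : ZMod N) : (starRingEnd ℂ) (ec x) = ec (-x) := by
  rw [ec, ec, ZMod.stdAddChar_apply, ZMod.stdAddChar_apply, AddChar.map_neg_eq_inv]
  rw [Circle.coe_inv_eq_conj]

theorem ec_add (x y : ZMod N) : ec (x + y) = ec x * ec y := AddChar.map_add_eq_mul _ _ _

theorem ec_zero : ec (0 : ZMod N) = 1 := AddChar.map_zero_eq_one _

theorem ec_val (x : ZMod N) :
    ec x = Complex.exp (((2 * Real.pi / N * x.val : ℝ) : ℂ) * Complex.I) := by
  have h1 : x = (((x.val : ℤ)) : ZMod N) := by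
    push_cast
    rw [ZMod.natCast_zmod_val]
  rw [ec]
  conv_lhs => rw [h1]
  rw [ZMod.stdAddChar_coe]
  congr 1
  push_cast
  ring

theorem ec_sum (c : ZMod N) : ∑ j : ZMod N, ec (j * c) = if c = 0 then (N : ℂ) else 0 := by
  have h := AddChar.sum_mulShift c (ZMod.isPrimitive_stdAddChar N)
  rw [ZMod.card] at h
  refine h.trans ?_
  split_ifs <;> simp

theorem parseval (F : ZMod N → ℂ) : ∑ k, ‖FT F k‖ ^ 2 = N * ∑ j, ‖F j‖ ^ 2 := by
  have h1 : ∀ z : ℂ, ((‖z‖ ^ 2 : ℝ) : ℂ) = z * (starRingEnd ℂ) z := by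
    intro z
    rw [Complex.mul_conj, Complex.normSq_eq_norm_sq]
  have h2 : ((∑ k, ‖FT F k‖ ^ 2 : ℝ) : ℂ) = ((N * ∑ j, ‖F j‖ ^ 2 : ℝ) : ℂ) := by
    push_cast
    have h3 : ∀ k, ((‖FT F k‖ : ℂ)) ^ 2 = ∑ i, ∑ j, F i * (starRingEnd ℂ) (F j) *
        ec (k * (i - j)) := by
      intro k
      have h4 := h1 (FT F k)
      push_cast at h4
      rw [h4]
      simp only [FT, map_sum, map_mul]
      rw [Finset.sum_mul_sum]
      refine Finset.sum_congr rfl fun i _ => Finset.sum_congr rfl fun j _ => ?_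
      rw [ec_conj]
      have h5 : (ec (k * (i - j)) : ℂ) = ec (i * k) * ec (-(j * k)) := by
        rw [← ec_add]; congr 1; ring
      rw [h5]; ring
    simp_rw [h3]
    rw [Finset.sum_comm]
    have h6 : ∀ i, ∑ k, ∑ j, F i * (starRingEnd ℂ) (F j) * ec (k * (i - j)) =
        (N : ℂ) * ((‖F i‖ : ℂ)) ^ 2 := by
      intro i
      rw [Finset.sum_comm]
      have h7 : ∀ j, ∑ k, F i * (starRingEnd ℂ) (F j) * ec (k * (i - j)) =
          if j = i then (N : ℂ) * ((‖F i‖ : ℂ)) ^ 2 else 0 := by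
        intro j
        rw [← Finset.mul_sum, ec_sum (i - j)]
        by_cases hij : j = i
        · subst hij
          have h4 := h1 (F j)
          push_cast at h4
          simp only [sub_self, if_true]
          rw [h4]; ring
        · rw [if_neg hij, if_neg (sub_ne_zero.mpr (Ne.symm hij))]
          simp
      simp_rw [h7]
      simp
    simp_rw [h6]
    rw [Finset.mul_sum]
  exact_mod_cast h2

theorem FT_diff (F : ZMod N → ℂ) (k : ZMod N) :
    FT (fun j => F (j + 1) - F j) k = (ec (-k) - 1) * FT F k := by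
  simp only [FT, sub_mul, Finset.sum_sub_distrib, one_mul]
  congr 1
  rw [Finset.mul_sum]
  rw [← Equiv.sum_comp (Equiv.addRight (1 : ZMod N)) (fun j => ec (-k) * (F j * ec (j * k)))]
  refine Finset.sum_congr rfl fun j _ => ?_
  simp only [Equiv.coe_addRight]
  have : (ec (j * k) : ℂ) = ec (-k) * ec ((j + 1) * k) := by
    rw [← ec_add]; congr 1; ring
  rw [this]; ring

/-- The multiplier of the difference operator. -/
theorem om (k : ZMod N) : ‖(ec (-k) - 1 : ℂ)‖ ^ 2 = 2 - 2 * Real.cos (2 * Real.pi / N * k.val) := by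
  rw [← ec_conj, ec_val, ← Complex.normSq_eq_norm_sq, Complex.normSq_apply]
  have hre : ((starRingEnd ℂ) (Complex.exp (((2 * Real.pi / N * k.val : ℝ) : ℂ) * Complex.I))
      - 1).re = Real.cos (2 * Real.pi / N * k.val) - 1 := by
    rw [Complex.sub_re, Complex.conj_re, Complex.exp_ofReal_mul_I_re, Complex.one_re]
  have him : ((starRingEnd ℂ) (Complex.exp (((2 * Real.pi / N * k.val : ℝ) : ℂ) * Complex.I))
      - 1).im = - Real.sin (2 * Real.pi / N * k.val) := by
    rw [Complex.sub_im, Complex.conj_im, Complex.exp_ofReal_mul_I_im, Complex.one_im, sub_zero]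
  rw [hre, him]
  have := Real.sin_sq_add_cos_sq (2 * Real.pi / N * k.val)
  nlinarith

theorem om_high (hN : 4 ≤ N) (k : ZMod N) (h0 : k ≠ 0) (h1 : k ≠ 1) (h2 : k ≠ -1) :
    2 * (2 - 2 * Real.cos (2 * Real.pi / N)) ≤ ‖(ec (-k) - 1 : ℂ)‖ ^ 2 := by
  rw [om]
  have hNpos : (0 : ℝ) < N := by positivity
  have hN4 : (4 : ℝ) ≤ N := by exact_mod_cast hN
  have hpi := Real.pi_pos
  have : Fact (1 < N) := ⟨by omega⟩
  set r := k.val with hr
  have hr2 : 2 ≤ r := by
    have e0 : k.val ≠ 0 := fun h => h0 ((ZMod.val_eq_zero k).mp h)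
    have e1 : k.val ≠ 1 := by
      intro h
      apply h1
      apply ZMod.val_injective N
      rw [h, ZMod.val_one]
    omega
  have hrN : r + 2 ≤ N := by
    have e2 : k.val < N := ZMod.val_lt k
    have e3 : k.val ≠ N - 1 := by
      intro h
      apply h2
      have : k = ((N - 1 : ℕ) : ZMod N) := by
        rw [← h, ZMod.natCast_zmod_val]
      rw [this, Nat.cast_sub (by omega)]
      simp
    omega
  have hr2' : (2 : ℝ) ≤ r := by exact_mod_cast hr2
  have hrN' : (r : ℝ) + 2 ≤ N := by exact_mod_cast hrN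
  -- cos (θ r) ≤ cos (2 θ)
  have hc : Real.cos (2 * Real.pi / N * r) ≤ Real.cos (2 * (2 * Real.pi / N)) := by
    by_cases hle : 2 * Real.pi / N * r ≤ Real.pi
    · apply Real.cos_le_cos_of_nonneg_of_le_pi (by positivity) hle
      have : 0 ≤ 2 * Real.pi / N := by positivity
      nlinarith
    · push Not at hle
      have h3 : Real.cos (2 * Real.pi / N * r) = Real.cos (2 * Real.pi - 2 * Real.pi / N * r) := by
        rw [Real.cos_two_pi_sub]
      rw [h3]
      apply Real.cos_le_cos_of_nonneg_of_le_pi (by positivity) (by linarith)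
      have h4 : 2 * Real.pi / N * r + 2 * (2 * Real.pi / N) ≤ 2 * Real.pi := by
        have : 2 * Real.pi / N * r + 2 * (2 * Real.pi / N) = 2 * Real.pi / N * (r + 2) := by ring
        rw [this, div_mul_eq_mul_div, div_le_iff₀ hNpos]
        nlinarith
      linarith
  have hc2 : Real.cos (2 * (2 * Real.pi / N)) = 2 * Real.cos (2 * Real.pi / N) ^ 2 - 1 :=
    Real.cos_two_mul _
  have hc0 : 0 ≤ Real.cos (2 * Real.pi / N) := by
    apply Real.cos_nonneg_of_neg_pi_div_two_le_of_le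
    · have : 0 ≤ 2 * Real.pi / N := by positivity
      linarith
    · rw [div_le_div_iff₀ hNpos (by norm_num)]
      nlinarith
  have hc1 := Real.cos_le_one (2 * Real.pi / N)
  nlinarith

/-- The first Fourier mode of a real function. -/
theorem mode (F : ZMod N → ℝ) (j : ZMod N) :
    (((2 * ‖FT (fun j => (F j : ℂ)) 1‖ / N) *
      Real.cos (2 * Real.pi / N * j.val - (FT (fun j => (F j : ℂ)) 1).arg) : ℝ) : ℂ) =
    (FT (fun j => (F j : ℂ)) 1 * ec (-j) +
      (starRingEnd ℂ) (FT (fun j => (F j : ℂ)) 1) * ec j) / N := by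
  set b := FT (fun j => (F j : ℂ)) 1 with hb
  have h1 : b = ‖b‖ * Complex.exp (b.arg * Complex.I) := (Complex.norm_mul_exp_arg_mul_I b).symm
  have h2 : (starRingEnd ℂ) b = ‖b‖ * Complex.exp (-(b.arg * Complex.I)) := by
    conv_lhs => rw [h1]
    rw [map_mul, Complex.conj_ofReal, ← Complex.exp_conj, map_mul, Complex.conj_ofReal,
      Complex.conj_I]
    congr 2
    ring
  have h3 : (ec (-j) : ℂ) = Complex.exp (-(((2 * Real.pi / N * j.val : ℝ) : ℂ) * Complex.I)) := by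
    rw [← ec_conj, ec_val, ← Complex.exp_conj, map_mul, Complex.conj_ofReal, Complex.conj_I]
    congr 1
    ring
  have h4 : ((Real.cos (2 * Real.pi / N * j.val - b.arg) : ℝ) : ℂ) =
      (Complex.exp (((2 * Real.pi / N * j.val : ℝ) : ℂ) * Complex.I - b.arg * Complex.I) +
      Complex.exp (-(((2 * Real.pi / N * j.val : ℝ) : ℂ) * Complex.I - b.arg * Complex.I))) / 2 := by
    rw [Complex.ofReal_cos, Complex.cos]
    congr 2
    · congr 1
      push_cast; ring
    · congr 1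
      push_cast; ring
  have h5 : b * ec (-j) = ‖b‖ * Complex.exp (b.arg * Complex.I) *
      Complex.exp (-(((2 * Real.pi / N * j.val : ℝ) : ℂ) * Complex.I)) := by
    rw [← h3, ← h1]
  rw [Complex.ofReal_mul, h4, h2, h5, ec_val]
  rw [sub_eq_add_neg, Complex.exp_add, neg_add, neg_neg, Complex.exp_add]
  push_cast
  ring

/-- Stability in the discrete Wirtinger inequality: a function on the cycle which almost attains
equality is close to its first Fourier mode. -/
theorem wirtinger_stab (hN : 4 ≤ N) (F : ZMod N → ℝ) (h0 : ∑ j, F j = 0) (ε : ℝ) (hε0 : 0 ≤ ε)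
    (hε : ε ≤ 1 / 4)
    (hF : (1 - ε) * ∑ j, (F (j + 1) - F j) ^ 2 ≤
      (2 - 2 * Real.cos (2 * Real.pi / N)) * ∑ j, F j ^ 2) :
    ∃ A φ : ℝ, 0 ≤ A ∧
      ∑ j : ZMod N, ((F (j + 1) - A * Real.cos (2 * Real.pi / N * (j + 1).val - φ)) -
        (F j - A * Real.cos (2 * Real.pi / N * j.val - φ))) ^ 2 ≤
        2 * ε * (2 * Real.pi / N) ^ 2 * A ^ 2 * N := by
  set FC : ZMod N → ℂ := fun j => (F j : ℂ) with hFC
  set b := FT FC 1 with hb
  have hNpos : (0 : ℝ) < N := by positivity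
  have hN0 : (N : ℂ) ≠ 0 := by
    have := NeZero.ne N
    exact_mod_cast this
  have : Fact (1 < N) := ⟨by omega⟩
  -- the mode
  set a : ZMod N → ℝ := fun j => (2 * ‖b‖ / N) * Real.cos (2 * Real.pi / N * j.val - b.arg) with ha
  have haC : ∀ j, ((a j : ℝ) : ℂ) = (b * ec (-j) + (starRingEnd ℂ) b * ec j) / N := by
    intro j
    exact mode F j
  -- 1 ≠ -1, 0
  have h11 : (1 : ZMod N) ≠ -1 := by
    intro h
    have h3 : ((2 : ℕ) : ZMod N) = 0 := by
      push_cast
      linear_combination h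
    rw [ZMod.natCast_eq_zero_iff] at h3
    have := Nat.le_of_dvd (by norm_num) h3
    omega
  have h10 : (1 : ZMod N) ≠ 0 := one_ne_zero
  have hm10 : (-1 : ZMod N) ≠ 0 := neg_ne_zero.mpr h10
  -- transform of `F` at `-1`
  have hbm : FT FC (-1) = (starRingEnd ℂ) b := by
    rw [hb]
    simp only [FT, map_sum, map_mul, hFC, Complex.conj_ofReal]
    refine Finset.sum_congr rfl fun j _ => ?_
    rw [ec_conj]
    congr 2
    ring
  have hF0 : FT FC 0 = 0 := by
    simp only [FT, mul_zero, ec_zero, mul_one, hFC]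
    rw [← Complex.ofReal_sum, h0, Complex.ofReal_zero]
  -- transform of the mode
  have hTa : ∀ k, FT (fun j => ((a j : ℝ) : ℂ)) k =
      if k = 1 then b else if k = -1 then (starRingEnd ℂ) b else 0 := by
    intro k
    have e1 : FT (fun j => ((a j : ℝ) : ℂ)) k =
        (b * ∑ j : ZMod N, ec (j * (k - 1)) + (starRingEnd ℂ) b *
          ∑ j : ZMod N, ec (j * (k + 1))) / N := by
      simp only [FT, haC]
      rw [Finset.mul_sum, Finset.mul_sum, ← Finset.sum_add_distrib, Finset.sum_div]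
      refine Finset.sum_congr rfl fun j _ => ?_
      have e2 : (ec (j * (k - 1)) : ℂ) = ec (-j) * ec (j * k) := by
        rw [← ec_add]; congr 1; ring
      have e3 : (ec (j * (k + 1)) : ℂ) = ec j * ec (j * k) := by
        rw [← ec_add]; congr 1; ring
      rw [e2, e3]
      ring
    rw [e1, ec_sum, ec_sum]
    by_cases hk1 : k = 1
    · subst hk1
      have : (1 : ZMod N) + 1 ≠ 0 := by
        intro h
        exact h11 (eq_neg_of_add_eq_zero_left h)
      rw [sub_self, if_pos rfl, if_neg this, if_pos rfl]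
      field_simp
      simp
    · by_cases hk2 : k = -1
      · subst hk2
        have : (-1 : ZMod N) - 1 ≠ 0 := by
          intro h
          exact hk1 (sub_eq_zero.mp h)
        rw [if_neg this, if_neg hk1, if_pos rfl, neg_add_cancel, if_pos rfl]
        field_simp
        simp
      · have e4 : k - 1 ≠ 0 := sub_ne_zero.mpr hk1
        have e5 : k + 1 ≠ 0 := fun h => hk2 (eq_neg_of_add_eq_zero_left h)
        rw [if_neg e4, if_neg e5, if_neg hk1, if_neg hk2]
        simp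
  -- the remainder
  set h : ZMod N → ℝ := fun j => F j - a j with hh
  have hTh : ∀ k, FT (fun j => ((h j : ℝ) : ℂ)) k =
      if k = 1 ∨ k = -1 then 0 else FT FC k := by
    intro k
    have e1 : FT (fun j => ((h j : ℝ) : ℂ)) k = FT FC k - FT (fun j => ((a j : ℝ) : ℂ)) k := by
      simp only [FT, hh, hFC]
      rw [← Finset.sum_sub_distrib]
      refine Finset.sum_congr rfl fun j _ => ?_
      push_cast
      ring
    rw [e1, hTa]
    by_cases hk1 : k = 1
    · subst hk1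
      simp [hb]
    · by_cases hk2 : k = -1
      · subst hk2
        rw [if_neg hk1, if_pos rfl, hbm]
        simp
      · rw [if_neg hk1, if_neg hk2]
        simp [hk1, hk2]
  -- Parseval identities
  set lam := 2 - 2 * Real.cos (2 * Real.pi / N) with hlam
  have hlam0 : 0 ≤ lam := by
    have := Real.cos_le_one (2 * Real.pi / N)
    rw [hlam]; linarith
  have hom1 : ‖(ec (-(1 : ZMod N)) - 1 : ℂ)‖ ^ 2 = lam := by
    rw [om, ZMod.val_one, hlam]
    simp
  have homm1 : ‖(ec (-(-1 : ZMod N)) - 1 : ℂ)‖ ^ 2 = lam := by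
    have e1 : (ec (-(-1 : ZMod N)) - 1 : ℂ) = (starRingEnd ℂ) (ec (-(1 : ZMod N)) - 1) := by
      rw [map_sub, ec_conj, map_one]
    rw [e1, RCLike.norm_conj, hom1]
  have P1 : ∑ k, ‖FT FC k‖ ^ 2 = N * ∑ j, F j ^ 2 := by
    rw [parseval]
    congr 1
    refine Finset.sum_congr rfl fun j _ => ?_
    rw [hFC]
    simp only [Complex.norm_real, Real.norm_eq_abs, sq_abs]
  have P2 : ∑ k, ‖(ec (-k) - 1 : ℂ)‖ ^ 2 * ‖FT FC k‖ ^ 2 = N * ∑ j, (F (j + 1) - F j) ^ 2 := by
    have e1 := parseval (fun j => FC (j + 1) - FC j)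
    have e2 : ∀ k, ‖FT (fun j => FC (j + 1) - FC j) k‖ ^ 2 =
        ‖(ec (-k) - 1 : ℂ)‖ ^ 2 * ‖FT FC k‖ ^ 2 := by
      intro k
      rw [FT_diff, norm_mul, mul_pow]
    simp_rw [e2] at e1
    rw [e1]
    congr 1
    refine Finset.sum_congr rfl fun j _ => ?_
    rw [hFC]
    simp only [← Complex.ofReal_sub, Complex.norm_real, Real.norm_eq_abs, sq_abs]
  have P3 : ∑ k, ‖(ec (-k) - 1 : ℂ)‖ ^ 2 * ‖FT (fun j => ((h j : ℝ) : ℂ)) k‖ ^ 2 =
      N * ∑ j, (h (j + 1) - h j) ^ 2 := by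
    have e1 := parseval (fun j => ((h (j + 1) : ℝ) : ℂ) - ((h j : ℝ) : ℂ))
    have e2 : ∀ k, ‖FT (fun j => ((h (j + 1) : ℝ) : ℂ) - ((h j : ℝ) : ℂ)) k‖ ^ 2 =
        ‖(ec (-k) - 1 : ℂ)‖ ^ 2 * ‖FT (fun j => ((h j : ℝ) : ℂ)) k‖ ^ 2 := by
      intro k
      rw [FT_diff (fun j => ((h j : ℝ) : ℂ)), norm_mul, mul_pow]
    simp_rw [e2] at e1
    rw [e1]
    congr 1
    refine Finset.sum_congr rfl fun j _ => ?_
    simp only [← Complex.ofReal_sub, Complex.norm_real, Real.norm_eq_abs, sq_abs]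
  -- split off the modes `± 1`
  set s : Finset (ZMod N) := Finset.univ.filter fun k => ¬ (k = 1 ∨ k = -1) with hs
  have hsplit : ∀ q : ZMod N → ℝ, ∑ k, q k = q 1 + q (-1) + ∑ k ∈ s, q k := by
    intro q
    rw [← Finset.sum_filter_add_sum_filter_not Finset.univ (fun k : ZMod N => k = 1 ∨ k = -1)]
    congr 1
    have : (Finset.univ.filter fun k : ZMod N => k = 1 ∨ k = -1) = {1, -1} := by
      ext k; simp
    rw [this, Finset.sum_pair h11]
  have hnb : ‖(starRingEnd ℂ) b‖ = ‖b‖ := RCLike.norm_conj b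
  rw [hsplit, ← hb, hbm, hnb] at P1
  rw [hsplit, ← hb, hbm, hnb, hom1, homm1] at P2
  have P3' : ∑ k ∈ s, ‖(ec (-k) - 1 : ℂ)‖ ^ 2 * ‖FT FC k‖ ^ 2 =
      N * ∑ j, (h (j + 1) - h j) ^ 2 := by
    rw [← P3, hsplit]
    rw [hTh 1, hTh (-1)]
    simp only [true_or, or_true, if_true, norm_zero]
    rw [zero_pow two_ne_zero, mul_zero, mul_zero, add_zero, zero_add]
    refine Finset.sum_congr rfl fun k hk => ?_
    rw [hTh k, if_neg (Finset.mem_filter.mp hk).2]
  have hcomp : 2 * lam * ∑ k ∈ s, ‖FT FC k‖ ^ 2 ≤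
      ∑ k ∈ s, ‖(ec (-k) - 1 : ℂ)‖ ^ 2 * ‖FT FC k‖ ^ 2 := by
    rw [Finset.mul_sum]
    apply Finset.sum_le_sum
    intro k hk
    have hk' := (Finset.mem_filter.mp hk).2
    push Not at hk'
    by_cases hk0 : k = 0
    · rw [hk0, hF0]; simp
    · exact mul_le_mul_of_nonneg_right (om_high hN k hk0 hk'.1 hk'.2) (by positivity)
  generalize ∑ k ∈ s, ‖FT FC k‖ ^ 2 = X at hcomp P1
  set Y := ∑ k ∈ s, ‖(ec (-k) - 1 : ℂ)‖ ^ 2 * ‖FT FC k‖ ^ 2 with hY
  have hY0 : 0 ≤ Y := Finset.sum_nonneg fun k _ => mul_nonneg (sq_nonneg _) (sq_nonneg _)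
  -- the hypothesis multiplied by N
  have hF' : (1 - ε) * (lam * ‖b‖ ^ 2 + lam * ‖b‖ ^ 2 + Y) ≤
      lam * (‖b‖ ^ 2 + ‖b‖ ^ 2 + X) := by
    rw [P1, P2]
    have e1 := mul_le_mul_of_nonneg_left hF hNpos.le
    rw [mul_left_comm, mul_left_comm lam]
    exact e1
  have hY1 : Y ≤ 4 * ε * lam * (2 * ‖b‖ ^ 2) := by
    have e1 : ε * Y ≤ 1 / 4 * Y := mul_le_mul_of_nonneg_right hε hY0
    have e2 : (1 - ε) * (lam * ‖b‖ ^ 2 + lam * ‖b‖ ^ 2 + Y) =
        2 * (lam * ‖b‖ ^ 2) + Y - 2 * (ε * (lam * ‖b‖ ^ 2)) - ε * Y := by ring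
    have e3 : lam * (‖b‖ ^ 2 + ‖b‖ ^ 2 + X) = 2 * (lam * ‖b‖ ^ 2) + lam * X := by ring
    have e4 : 4 * ε * lam * (2 * ‖b‖ ^ 2) = 8 * (ε * (lam * ‖b‖ ^ 2)) := by ring
    have e5 : 2 * lam * X = 2 * (lam * X) := by ring
    rw [e2, e3] at hF'
    rw [e5] at hcomp
    rw [e4]
    linarith
  refine ⟨2 * ‖b‖ / N, b.arg, by positivity, ?_⟩
  have hgoal : ∑ j : ZMod N, ((F (j + 1) - 2 * ‖b‖ / N *
      Real.cos (2 * Real.pi / N * (j + 1).val - b.arg)) -
        (F j - 2 * ‖b‖ / N * Real.cos (2 * Real.pi / N * j.val - b.arg))) ^ 2 =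
      ∑ j, (h (j + 1) - h j) ^ 2 := rfl
  rw [hgoal]
  have hlam1 : lam ≤ (2 * Real.pi / N) ^ 2 := by
    have := Real.one_sub_sq_div_two_le_cos (x := 2 * Real.pi / N)
    rw [hlam]; linarith
  have e2 : (N : ℝ) * ∑ j, (h (j + 1) - h j) ^ 2 ≤ N * (2 * ε * (2 * Real.pi / N) ^ 2 *
      (2 * ‖b‖ / N) ^ 2 * N) := by
    rw [← P3', ]
    calc Y ≤ 4 * ε * lam * (2 * ‖b‖ ^ 2) := hY1
      _ ≤ 4 * ε * (2 * Real.pi / N) ^ 2 * (2 * ‖b‖ ^ 2) := by
          apply mul_le_mul_of_nonneg_right _ (by positivity)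
          apply mul_le_mul_of_nonneg_left hlam1 (by positivity)
      _ = N * (2 * ε * (2 * Real.pi / N) ^ 2 * (2 * ‖b‖ / N) ^ 2 * N) := by
          field_simp
          ring
  exact le_of_mul_le_mul_left e2 hNpos

end Wirt

end Pool.Agent.H43.Stab
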